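import Mathlib

/-! # Circle integrals in logarithmic polar coordinates -/

set_option autoImplicit false

noncomputable section

namespace Pool.Agent.H172R3.SM

open Complex Set Filter Topology Metric MeasureTheory
open scoped ContDiff

/-- partial derivatives -/
def dx (g : ℂ → ℝ) (z : ℂ) : ℝ := fderiv ℝ g z 1
def dy (g : ℂ → ℝ) (z : ℂ) : ℝ := fderiv ℝ g z I

/-- Laplacian -/
def lap (g : ℂ → ℝ) (z : ℂ) : ℝ := dx (dx g) z + dy (dy g) z

theorem contDiff_dx {g : ℂ → ℝ} (hg : ContDiff ℝ ∞ g) : ContDiff ℝ ∞ (dx g) := by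
  unfold dx
  exact (hg.fderiv_right (m := ∞) (by simp)).clm_apply contDiff_const

theorem contDiff_dy {g : ℂ → ℝ} (hg : ContDiff ℝ ∞ g) : ContDiff ℝ ∞ (dy g) := by
  unfold dy
  exact (hg.fderiv_right (m := ∞) (by simp)).clm_apply contDiff_const

theorem contDiff_lap {g : ℂ → ℝ} (hg : ContDiff ℝ ∞ g) : ContDiff ℝ ∞ (lap g) :=
  (contDiff_dx (contDiff_dx hg)).add (contDiff_dy (contDiff_dy hg))

theorem fderiv_apply_eq (g : ℂ → ℝ) (z v : ℂ) :
    fderiv ℝ g z v = v.re * dx g z + v.im * dy g z := by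
  unfold dx dy
  conv_lhs => rw [← re_add_im v]
  have h1 : (v.re : ℂ) = v.re • (1 : ℂ) := by simp
  have h2 : (v.im : ℂ) * I = v.im • I := by simp
  rw [map_add, h2]
  nth_rewrite 1 [h1]
  rw [map_smul, map_smul]
  simp

/-- point in logarithmic polar coordinates about `c` -/
def pt (c : ℂ) (t θ : ℝ) : ℂ := c + exp (t + θ * I)

theorem pt_sub (c : ℂ) (t θ : ℝ) : pt c t θ - c = exp (t + θ * I) := by
  unfold pt; ring

theorem norm_pt_sub (c : ℂ) (t θ : ℝ) : ‖pt c t θ - c‖ = Real.exp t := by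
  rw [pt_sub, norm_exp]; simp

theorem continuous_pt (c : ℂ) : Continuous (fun q : ℝ × ℝ => pt c q.1 q.2) := by
  unfold pt; fun_prop

theorem pt_pi (c : ℂ) (t : ℝ) : pt c t Real.pi = pt c t (-Real.pi) := by
  unfold pt
  congr 1
  have : ((-Real.pi : ℝ) : ℂ) * I = Real.pi * I - 2 * Real.pi * I := by push_cast; ring
  rw [this, exp_eq_exp_iff_exists_int]
  exact ⟨1, by push_cast; ring⟩

theorem hasDerivAt_pt_t (c : ℂ) (t θ : ℝ) :
    HasDerivAt (fun t : ℝ => pt c t θ) (pt c t θ - c) t := by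
  have h1 : HasDerivAt (fun t : ℝ => (t : ℂ) + θ * I) 1 t :=
    (ofRealCLM.hasDerivAt (x := t)).add_const _
  have h2 := (h1.cexp).const_add c
  rw [pt_sub]
  rw [mul_one] at h2
  exact h2

theorem hasDerivAt_pt_θ (c : ℂ) (t θ : ℝ) :
    HasDerivAt (fun θ : ℝ => pt c t θ) (I * (pt c t θ - c)) θ := by
  have h1 : HasDerivAt (fun θ : ℝ => (t : ℂ) + θ * I) I θ := by
    simpa using ((ofRealCLM.hasDerivAt (x := θ)).mul_const I).const_add (t : ℂ)
  have h2 := (h1.cexp).const_add c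
  rw [pt_sub, mul_comm]
  exact h2

variable {g : ℂ → ℝ}

theorem hasDerivAt_comp (hg : ContDiff ℝ ∞ g) {γ : ℝ → ℂ} {v : ℂ} {s : ℝ}
    (hγ : HasDerivAt γ v s) :
    HasDerivAt (fun s => g (γ s)) (v.re * dx g (γ s) + v.im * dy g (γ s)) s := by
  have h1 := (hg.differentiable (by simp) (γ s)).hasFDerivAt.comp_hasDerivAt s hγ
  rw [← fderiv_apply_eq]
  exact h1

/-- radial derivative `r ∂_r` about `c` -/
def Dr (c : ℂ) (g : ℂ → ℝ) (z : ℂ) : ℝ := (z - c).re * dx g z + (z - c).im * dy g z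

/-- angular derivative -/
def Da (c : ℂ) (g : ℂ → ℝ) (z : ℂ) : ℝ := -(z - c).im * dx g z + (z - c).re * dy g z

theorem contDiff_Dr (c : ℂ) (hg : ContDiff ℝ ∞ g) : ContDiff ℝ ∞ (Dr c g) := by
  unfold Dr
  have h1 : ContDiff ℝ ∞ (fun z : ℂ => (z - c).re) :=
    reCLM.contDiff.comp (contDiff_id.sub contDiff_const)
  have h2 : ContDiff ℝ ∞ (fun z : ℂ => (z - c).im) :=
    imCLM.contDiff.comp (contDiff_id.sub contDiff_const)
  exact (h1.mul (contDiff_dx hg)).add (h2.mul (contDiff_dy hg))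

theorem contDiff_Da (c : ℂ) (hg : ContDiff ℝ ∞ g) : ContDiff ℝ ∞ (Da c g) := by
  unfold Da
  have h1 : ContDiff ℝ ∞ (fun z : ℂ => (z - c).re) :=
    reCLM.contDiff.comp (contDiff_id.sub contDiff_const)
  have h2 : ContDiff ℝ ∞ (fun z : ℂ => (z - c).im) :=
    imCLM.contDiff.comp (contDiff_id.sub contDiff_const)
  exact (h2.neg.mul (contDiff_dx hg)).add (h1.mul (contDiff_dy hg))

theorem hasDerivAt_t (hg : ContDiff ℝ ∞ g) (c : ℂ) (t θ : ℝ) :
    HasDerivAt (fun t => g (pt c t θ)) (Dr c g (pt c t θ)) t :=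
  hasDerivAt_comp hg (hasDerivAt_pt_t c t θ)

theorem hasDerivAt_θ (hg : ContDiff ℝ ∞ g) (c : ℂ) (t θ : ℝ) :
    HasDerivAt (fun θ => g (pt c t θ)) (Da c g (pt c t θ)) θ := by
  have := hasDerivAt_comp hg (hasDerivAt_pt_θ c t θ)
  convert this using 1
  unfold Da
  simp

/-- Laplacian in logarithmic polar coordinates -/
theorem lap_polar (hg : ContDiff ℝ ∞ g) (c z : ℂ) :
    Dr c (Dr c g) z + Da c (Da c g) z = ‖z - c‖ ^ 2 * lap g z := by
  have hx := contDiff_dx hg
  have hy := contDiff_dy hg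
  have hre : ∀ v : ℂ, HasFDerivAt (fun z : ℂ => (z - c).re) reCLM z := fun _ =>
    (reCLM.hasFDerivAt (x := z)).sub_const c.re
  have him : ∀ v : ℂ, HasFDerivAt (fun z : ℂ => (z - c).im) imCLM z := fun _ =>
    (imCLM.hasFDerivAt (x := z)).sub_const c.im
  have hX := (hx.differentiable (by simp) z).hasFDerivAt
  have hY := (hy.differentiable (by simp) z).hasFDerivAt
  have e1 : HasFDerivAt (Dr c g) _ z := ((hre z).mul hX).add ((him z).mul hY)
  have e2 : HasFDerivAt (Da c g) _ z := (((him z).neg).mul hX).add ((hre z).mul hY)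
  have q1 : dx (dx g) z = fderiv ℝ (dx g) z 1 := rfl
  have q2 : dx (dy g) z = fderiv ℝ (dy g) z 1 := rfl
  have q3 : dy (dx g) z = fderiv ℝ (dx g) z I := rfl
  have q4 : dy (dy g) z = fderiv ℝ (dy g) z I := rfl
  have f1 : dx (Dr c g) z = dx g z + (z - c).re * dx (dx g) z + (z - c).im * dx (dy g) z := by
    rw [show dx (Dr c g) z = fderiv ℝ (Dr c g) z 1 from rfl, e1.fderiv, q1, q2]
    simp
    ring
  have f2 : dy (Dr c g) z = dy g z + (z - c).re * dy (dx g) z + (z - c).im * dy (dy g) z := by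
    rw [show dy (Dr c g) z = fderiv ℝ (Dr c g) z I from rfl, e1.fderiv, q3, q4]
    simp
    ring
  have f3 : dx (Da c g) z = dy g z - (z - c).im * dx (dx g) z + (z - c).re * dx (dy g) z := by
    rw [show dx (Da c g) z = fderiv ℝ (Da c g) z 1 from rfl, e2.fderiv, q1, q2]
    simp
    ring
  have f4 : dy (Da c g) z = - dx g z - (z - c).im * dy (dx g) z + (z - c).re * dy (dy g) z := by
    rw [show dy (Da c g) z = fderiv ℝ (Da c g) z I from rfl, e2.fderiv, q3, q4]
    simp
    ring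
  have e0 : ‖z - c‖ ^ 2 = (z - c).re ^ 2 + (z - c).im ^ 2 := by
    rw [← normSq_eq_norm_sq, normSq_apply]; ring
  rw [e0]
  conv_lhs => unfold Dr Da
  show (z - c).re * dx (Dr c g) z + (z - c).im * dy (Dr c g) z +
    (-(z - c).im * dx (Da c g) z + (z - c).re * dy (Da c g) z) = _
  rw [f1, f2, f3, f4]
  unfold lap
  ring

/-- circle integral -/
def CM (c : ℂ) (g : ℂ → ℝ) (t : ℝ) : ℝ := ∫ θ in (-Real.pi)..Real.pi, g (pt c t θ)

theorem hasDerivAt_param {F F' : ℝ → ℝ → ℝ} (hF : Continuous (fun q : ℝ × ℝ => F q.1 q.2))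
    (hF' : Continuous (fun q : ℝ × ℝ => F' q.1 q.2))
    (hd : ∀ t θ, HasDerivAt (fun t => F t θ) (F' t θ) t) (t : ℝ) :
    HasDerivAt (fun t => ∫ θ in (-Real.pi)..Real.pi, F t θ)
      (∫ θ in (-Real.pi)..Real.pi, F' t θ) t := by
  obtain ⟨K, hK⟩ := (((isCompact_Icc (a := t - 1) (b := t + 1)).prod
    (isCompact_Icc (a := -Real.pi) (b := Real.pi))).image hF').isBounded.exists_norm_le
  have hpi := Real.pi_pos
  refine (intervalIntegral.hasDerivAt_integral_of_dominated_loc_of_deriv_le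
    (s := Icc (t - 1) (t + 1)) (bound := fun _ => K) (Icc_mem_nhds (by linarith) (by linarith))
    ?_ ?_ ?_ ?_ ?_ ?_).2
  · filter_upwards with s
    exact (hF.comp (by fun_prop : Continuous fun θ : ℝ => (s, θ))).aestronglyMeasurable
  · exact (hF.comp (by fun_prop : Continuous fun θ : ℝ => (t, θ))).intervalIntegrable _ _
  · exact (hF'.comp (by fun_prop : Continuous fun θ : ℝ => (t, θ))).aestronglyMeasurable
  · filter_upwards with θ hθ s hs
    rw [uIoc_of_le (by linarith)] at hθ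
    exact hK _ ⟨(s, θ), ⟨hs, ⟨hθ.1.le, hθ.2⟩⟩, rfl⟩
  · exact intervalIntegrable_const
  · filter_upwards with θ _ s _
    exact hd s θ

theorem continuous_CM (c : ℂ) (hg : Continuous g) : Continuous (CM c g) := by
  unfold CM
  refine intervalIntegral.continuous_parametric_intervalIntegral_of_continuous' ?_ _ _
  exact hg.comp (continuous_pt c)

theorem hasDerivAt_CM (hg : ContDiff ℝ ∞ g) (c : ℂ) (t : ℝ) :
    HasDerivAt (CM c g) (CM c (Dr c g) t) t := by
  unfold CM
  refine hasDerivAt_param (F := fun t θ => g (pt c t θ))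
    (F' := fun t θ => Dr c g (pt c t θ)) ?_ ?_ (fun t θ => hasDerivAt_t hg c t θ) t
  · exact hg.continuous.comp (continuous_pt c)
  · exact (contDiff_Dr c hg).continuous.comp (continuous_pt c)

theorem CM_Da (hg : ContDiff ℝ ∞ g) (c : ℂ) (t : ℝ) : CM c (Da c g) t = 0 := by
  unfold CM
  rw [intervalIntegral.integral_eq_sub_of_hasDerivAt (f := fun θ => g (pt c t θ))]
  · rw [pt_pi]; ring
  · intro θ _
    exact hasDerivAt_θ hg c t θ
  · exact ((contDiff_Da c hg).continuous.comp ((continuous_pt c).comp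
      (by fun_prop : Continuous fun θ : ℝ => (t, θ)))).intervalIntegrable _ _

theorem continuous_cc (c : ℂ) (hg : Continuous g) (t : ℝ) :
    Continuous fun θ => g (pt c t θ) :=
  hg.comp ((continuous_pt c).comp (by fun_prop : Continuous fun θ : ℝ => (t, θ)))

theorem ii (c : ℂ) (hg : Continuous g) (t : ℝ) :
    IntervalIntegrable (fun θ => g (pt c t θ)) volume (-Real.pi) Real.pi :=
  (continuous_cc c hg t).intervalIntegrable _ _

theorem CM_add (c : ℂ) {h : ℂ → ℝ} (hg : Continuous g) (hh : Continuous h) (t : ℝ) :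
    CM c (fun z => g z + h z) t = CM c g t + CM c h t :=
  intervalIntegral.integral_add (ii c hg t) (ii c hh t)

theorem CM_mono (c : ℂ) {h : ℂ → ℝ} (hg : Continuous g) (hh : Continuous h) (t : ℝ)
    (hle : ∀ z, ‖z - c‖ = Real.exp t → g z ≤ h z) : CM c g t ≤ CM c h t := by
  have hpi := Real.pi_pos
  refine intervalIntegral.integral_mono_on (by linarith) (ii c hg t) (ii c hh t) ?_
  intro θ _
  exact hle _ (norm_pt_sub c t θ)

theorem CM_const (c : ℂ) (a t : ℝ) : CM c (fun _ => a) t = 2 * Real.pi * a := by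
  unfold CM
  rw [intervalIntegral.integral_const, smul_eq_mul]
  ring

/-- second derivative of the circle integral -/
theorem hasDerivAt_CM2 (hg : ContDiff ℝ ∞ g) (c : ℂ) (t : ℝ) :
    HasDerivAt (CM c (Dr c g)) (Real.exp (2 * t) * CM c (lap g) t) t := by
  have h1 := hasDerivAt_CM (contDiff_Dr c hg) c t
  have h2 := CM_Da (contDiff_Da c hg) c t
  have h3 : CM c (Dr c (Dr c g)) t = Real.exp (2 * t) * CM c (lap g) t := by
    have h4 := CM_add c (g := Dr c (Dr c g)) (h := Da c (Da c g))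
      (contDiff_Dr c (contDiff_Dr c hg)).continuous
      (contDiff_Da c (contDiff_Da c hg)).continuous t
    rw [h2, add_zero] at h4
    rw [← h4]
    unfold CM
    rw [← intervalIntegral.integral_const_mul]
    congr 1
    funext θ
    show Dr c (Dr c g) (pt c t θ) + Da c (Da c g) (pt c t θ) = _
    rw [lap_polar hg, norm_pt_sub, ← Real.exp_nat_mul]
    norm_num
  rw [← h3]
  exact h1

theorem tendsto_CM (hg : Continuous g) (c : ℂ) :
    Tendsto (CM c g) atBot (𝓝 (2 * Real.pi * g c)) := by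
  have hpi := Real.pi_pos
  rw [Metric.tendsto_nhds]
  intro ε hε
  obtain ⟨δ, hδ, hδ2⟩ := Metric.continuousAt_iff.1 (hg.continuousAt (x := c)) (ε / (4 * Real.pi))
    (by positivity)
  filter_upwards [eventually_le_atBot (Real.log δ - 1)] with t ht
  have ht2 : Real.exp t < δ := by
    rw [← Real.lt_log_iff_exp_lt hδ]; linarith
  rw [Real.dist_eq, ← CM_const c (g c) t]
  unfold CM
  rw [← intervalIntegral.integral_sub (ii c hg t) (by simp)]
  have h1 : ∀ θ ∈ uIoc (-Real.pi) Real.pi, ‖g (pt c t θ) - g c‖ ≤ ε / (4 * Real.pi) := by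
    intro θ _
    have := hδ2 (x := pt c t θ) (by rw [dist_eq_norm, norm_pt_sub]; exact ht2)
    rw [Real.dist_eq] at this
    exact this.le
  have h2 := intervalIntegral.norm_integral_le_of_norm_le_const h1
  rw [Real.norm_eq_abs] at h2
  refine lt_of_le_of_lt h2 ?_
  have : |Real.pi - -Real.pi| = 2 * Real.pi := by
    rw [abs_of_pos (by linarith)]; ring
  rw [this]
  have : ε / (4 * Real.pi) * (2 * Real.pi) = ε / 2 := by field_simp; ring
  rw [this]
  linarith

theorem tendsto_CM_Dr (hg : ContDiff ℝ ∞ g) (c : ℂ) :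
    Tendsto (CM c (Dr c g)) atBot (𝓝 0) := by
  have h := tendsto_CM (contDiff_Dr c hg).continuous c
  have : Dr c g c = 0 := by unfold Dr; simp
  rw [this, mul_zero] at h
  exact h

/-- subharmonic functions: the radial derivative of the circle integral is nonnegative -/
theorem CM_Dr_nonneg (hg : ContDiff ℝ ∞ g) (c : ℂ) (hl : ∀ z, 0 ≤ lap g z) (t : ℝ) :
    0 ≤ CM c (Dr c g) t := by
  have hm : Monotone (CM c (Dr c g)) := by
    refine monotone_of_hasDerivAt_nonneg (fun t => hasDerivAt_CM2 hg c t) fun t => ?_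
    refine mul_nonneg (Real.exp_pos _).le ?_
    have := CM_mono c (g := fun _ => 0) (h := lap g) continuous_const
      (contDiff_lap hg).continuous t (fun z _ => hl z)
    rw [CM_const, mul_zero] at this
    exact this
  exact hm.le_of_tendsto (tendsto_CM_Dr hg c) t

theorem CM_ge (hg : ContDiff ℝ ∞ g) (c : ℂ) (hl : ∀ z, 0 ≤ lap g z) (t : ℝ) :
    2 * Real.pi * g c ≤ CM c g t := by
  have hm : Monotone (CM c g) :=
    monotone_of_hasDerivAt_nonneg (fun t => hasDerivAt_CM hg c t) (CM_Dr_nonneg hg c hl)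
  exact hm.le_of_tendsto (tendsto_CM hg.continuous c) t

end Pool.Agent.H172R3.SM
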