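import Pool.Agent.H172R3.SM.W

/-! # The self-dual gauged O(3) sigma model: definitions -/

set_option autoImplicit false

noncomputable section

namespace Pool.Agent.H172R3.SM

open Complex Set Filter Topology MeasureTheory
open scoped ContDiff Matrix

/-- the north pole `n` and the south pole `s` of the sphere -/
def nn : Fin 3 → ℝ := ![0, 0, 1]
def ss : Fin 3 → ℝ := ![0, 0, -1]

/-- A configuration on the plane `ℂ = ℝ²` (`∂₁`, `∂₂` are the derivatives in the directions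
`1`, `I`): a map into `ℝ³` and a gauge field. -/
structure Config where
  /-- the map -/
  phi : ℂ → Fin 3 → ℝ
  /-- first component of the gauge field -/
  A1 : ℂ → ℝ
  /-- second component of the gauge field -/
  A2 : ℂ → ℝ

namespace Config

variable (c : Config)

/-- `D₁ φ = ∂₁ φ + A₁ (n × φ)` -/
def D1 (z : ℂ) : Fin 3 → ℝ := fderiv ℝ c.phi z 1 + c.A1 z • (nn ⨯₃ c.phi z)

/-- `D₂ φ = ∂₂ φ + A₂ (n × φ)` -/
def D2 (z : ℂ) : Fin 3 → ℝ := fderiv ℝ c.phi z I + c.A2 z • (nn ⨯₃ c.phi z)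

/-- `F₁₂ = ∂₁ A₂ - ∂₂ A₁` -/
def F12 (z : ℂ) : ℝ := fderiv ℝ c.A2 z 1 - fderiv ℝ c.A1 z I

/-- smooth finite energy solutions of the self-dual equations -/
structure IsSolution : Prop where
  smooth : ContDiff ℝ ∞ c.phi
  smooth1 : ContDiff ℝ ∞ c.A1
  smooth2 : ContDiff ℝ ∞ c.A2
  sphere : ∀ z, c.phi z ⬝ᵥ c.phi z = 1
  sd1 : ∀ z, c.D1 z = -(c.phi z ⨯₃ c.D2 z)
  sd2 : ∀ z, c.F12 z = 1 - nn ⬝ᵥ c.phi z
  energy : Integrable fun z => c.D1 z ⬝ᵥ c.D1 z + c.D2 z ⬝ᵥ c.D2 z +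
    (1 - nn ⬝ᵥ c.phi z) ^ 2 + c.F12 z ^ 2
  infty : Tendsto (fun z => nn ⬝ᵥ c.phi z) (cocompact ℂ) (𝓝 1)

/-- the coordinate `φ₁ - i φ₂` of the sphere near the south pole (orientation preserving) -/
def south (z : ℂ) : ℂ := ⟨c.phi z 0, -c.phi z 1⟩

/-- The Brouwer degree of `φ` is `N`: the south pole has finitely many preimages, `φ₁ - i φ₂`
has a winding number `m p` on all small circles around each preimage `p` (the local degree of
`φ` at `p`), and the sum of the `m p` is `N`. -/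
def HasDegree (N : ℤ) : Prop :=
  (c.phi ⁻¹' {ss}).Finite ∧ ∃ m : ℂ → ℤ,
    (∀ p, c.phi p = ss → ∀ᶠ r in 𝓝[>] (0 : ℝ), Wind c.south p r (m p)) ∧
    ∑ᶠ p ∈ c.phi ⁻¹' {ss}, m p = N

/-- gauge equivalence: `φ' = R_θ φ`, `A' = A - ∇ θ` with `θ` smooth -/
def GaugeEquiv (c c' : Config) : Prop :=
  ∃ θ : ℂ → ℝ, ContDiff ℝ ∞ θ ∧
    (∀ z, c'.phi z = ![Real.cos (θ z) * c.phi z 0 - Real.sin (θ z) * c.phi z 1,
      Real.sin (θ z) * c.phi z 0 + Real.cos (θ z) * c.phi z 1, c.phi z 2]) ∧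
    (∀ z, c'.A1 z = c.A1 z - fderiv ℝ θ z 1) ∧ (∀ z, c'.A2 z = c.A2 z - fderiv ℝ θ z I)

end Config

end Pool.Agent.H172R3.SM
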