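import Pool.Agent.H172R3.SM.F0

/-! # Families of solutions -/

set_option autoImplicit false

noncomputable section

namespace Pool.Agent.H172R3.SM

open Complex Set Filter Topology MeasureTheory Metric
open scoped ContDiff Matrix

namespace Config

theorem lt_one {c : Config} (h : c.IsSolution) {z : ℂ} (h2 : c.phi z ≠ nn) : c.phi z 2 < 1 :=
  lt_of_le_of_ne (phi_le h z) fun h0 => h2 ((eq_nn_iff h z).2 h0)

theorem gt_neg_one {c : Config} (h : c.IsSolution) {z : ℂ} (h2 : c.phi z ≠ ss) :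
    -1 < c.phi z 2 :=
  lt_of_le_of_ne (phi_ge h z) fun h0 => h2 ((eq_ss_iff h z).2 h0.symm)

theorem cnt_zero {M : Multiset ℂ} {x : ℂ} {r : ℝ} (h : ∀ p ∈ M, ¬ ‖p - x‖ < r) :
    cnt M x r = 0 := by
  unfold cnt
  rw [Multiset.card_eq_zero, Multiset.filter_eq_nil]
  exact h

section fam

variable {E : Type*} [TopologicalSpace E] {U : Set E} {F : E → Config}
  {P Q : E → Multiset ℂ} {a b : E → ℂ → ℝ}

theorem cont_at (hU : IsOpen U)
    (hc : ContinuousOn (fun q : E × ℂ => (F q.1).phi q.2 2) (U ×ˢ univ)) {s1 : E} (hs1 : s1 ∈ U)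
    (z : ℂ) : ContinuousAt (fun q : E × ℂ => (F q.1).phi q.2 2) (s1, z) :=
  hc.continuousAt ((hU.prod isOpen_univ).mem_nhds
    (show (s1, z) ∈ U ×ˢ (univ : Set ℂ) from ⟨hs1, mem_univ z⟩))

theorem cont_snd {c : Config} (h : c.IsSolution) (s1 : E) (z : ℂ) :
    ContinuousAt (fun q : E × ℂ => c.phi q.2 2) (s1, z) :=
  (smoothc h 2).continuous.continuousAt.comp continuousAt_snd

/-- the quantity to average -/
def lr (c : Config) (z : ℂ) : ℝ := Real.log (1 - c.phi z 2) - Real.log (1 + c.phi z 2)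

theorem Str.avg {c : Config} {P Q : Multiset ℂ} {a b : ℂ → ℝ} (h : c.IsSolution)
    (s : Str c P Q a b) {x : ℂ} {r : ℝ} (hr : 0 < r) (hP : ∀ p ∈ P, ‖p - x‖ ≠ r)
    (hQ : ∀ p ∈ Q, ‖p - x‖ ≠ r) : CircleIntegrable (lr c) x r ∧
    Real.circleAverage (lr c) x r + Real.circleAverage (fun z => Real.log (normSq (PP P z))) x r =
    Real.circleAverage (fun z => a z + a z) x r +
      Real.circleAverage (fun z => Real.log (normSq (PP Q z))) x r := by
  have hns : ∀ z ∈ sphere x r, 0 < 1 + c.phi z 2 := by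
    intro z hz
    rw [mem_sphere, dist_eq_norm] at hz
    have := gt_neg_one h (fun h0 => hP z ((s.hP z).2 h0) hz)
    linarith
  have hnn : ∀ z ∈ sphere x r, 0 < 1 - c.phi z 2 := by
    intro z hz
    rw [mem_sphere, dist_eq_norm] at hz
    have := lt_one h (fun h0 => hQ z ((s.hQ z).2 h0) hz)
    linarith
  have c0 : ContinuousOn (lr c) (sphere x r) := by
    intro z hz
    have hc2 := (smoothc h 2).continuous
    exact (((continuous_const.sub hc2).continuousAt.log (hnn z hz).ne').sub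
      ((continuous_const.add hc2).continuousAt.log (hns z hz).ne')).continuousWithinAt
  have i0 := circleIntegrable_of_cont hr.le c0
  have i1 := circleIntegrable_of_cont hr.le (cont_log_PP P hP)
  have i2 := circleIntegrable_of_cont hr.le (s.smooth_v.continuous.continuousOn (s := sphere x r))
  have i3 := circleIntegrable_of_cont hr.le (cont_log_PP Q hQ)
  refine ⟨i0, ?_⟩
  rw [← Real.circleAverage_fun_add i0 i1, ← Real.circleAverage_fun_add i2 i3]
  refine Real.circleAverage_congr_sphere fun z hz => ?_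
  rw [abs_of_pos hr] at hz
  have e := s.E h z
  have nP : normSq (PP P z) ≠ 0 := fun h0 => hP z (PP_eq_zero.1 (normSq_eq_zero.1 h0))
    (by rwa [mem_sphere, dist_eq_norm] at hz)
  have nQ : normSq (PP Q z) ≠ 0 := fun h0 => hQ z (PP_eq_zero.1 (normSq_eq_zero.1 h0))
    (by rwa [mem_sphere, dist_eq_norm] at hz)
  have e2 := congrArg Real.log e
  rw [Real.log_mul (hnn z hz).ne' nP, Real.log_mul (hns z hz).ne'
    (mul_ne_zero (Real.exp_pos _).ne' nQ), Real.log_mul (Real.exp_pos _).ne' nQ,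
    Real.log_exp] at e2
  show lr c z + Real.log (normSq (PP P z)) = (a z + a z) + Real.log (normSq (PP Q z))
  unfold lr
  linarith

theorem avg_dist {f g : ℂ → ℝ} {x : ℂ} {r η : ℝ} (hr : 0 < r) (hf : CircleIntegrable f x r)
    (hg : CircleIntegrable g x r) (h : ∀ z, ‖z - x‖ = r → |f z - g z| ≤ η) :
    |Real.circleAverage f x r - Real.circleAverage g x r| ≤ η := by
  rw [← Real.circleAverage_fun_sub hf hg, abs_le]
  have hs : ∀ z ∈ sphere x |r|, |f z - g z| ≤ η := fun z hz => by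
    rw [abs_of_pos hr, mem_sphere, dist_eq_norm] at hz
    exact h z hz
  have hi : CircleIntegrable (fun z => f z - g z) x r := hf.sub hg
  constructor
  · have h1 := Real.circleAverage_mono (f₁ := fun _ => -η) (circleIntegrable_const _ _ _) hi
      (fun z hz => (abs_le.1 (hs z hz)).1)
    rwa [Real.circleAverage_const] at h1
  · exact Real.circleAverage_mono_on_of_le_circle hi (fun z hz => (abs_le.1 (hs z hz)).2)

/-- the number of poles minus the number of zeros in a disc is locally constant -/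
theorem cnt_diff (hU : IsOpen U)
    (hc : ContinuousOn (fun q : E × ℂ => (F q.1).phi q.2 2) (U ×ˢ univ))
    (hsol : ∀ s ∈ U, (F s).IsSolution) (hstr : ∀ s ∈ U, Str (F s) (P s) (Q s) (a s) (b s))
    {s1 : E} (hs1 : s1 ∈ U) {x : ℂ} {r : ℝ} (hr : 0 < r)
    (h1 : ∀ z, ‖z - x‖ = r → (F s1).phi z ≠ nn) (h2 : ∀ z, ‖z - x‖ = r → (F s1).phi z ≠ ss) :
    ∀ᶠ s in 𝓝 s1, s ∈ U ∧
      (cnt (P s) x r : ℤ) - cnt (Q s) x r = cnt (P s1) x r - cnt (Q s1) x r := by
  classical
  have hsol1 := hsol s1 hs1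
  have hstr1 := hstr s1 hs1
  -- the annulus
  obtain ⟨δ, hδ, hδr, hann⟩ : ∃ δ : ℝ, 0 < δ ∧ δ < r ∧
      ∀ z, r - δ ≤ ‖z - x‖ → ‖z - x‖ ≤ r + δ → z ∉ P s1 ∧ z ∉ Q s1 := by
    have hex : ∀ S : Finset ℂ, (∀ z ∈ S, ‖z - x‖ ≠ r) → ∃ δ : ℝ, 0 < δ ∧ δ < r ∧
        ∀ z ∈ S, ¬ (r - δ ≤ ‖z - x‖ ∧ ‖z - x‖ ≤ r + δ) := by
      intro S
      induction S using Finset.induction_on with
      | empty => exact fun _ => ⟨r / 2, by linarith, by linarith, fun z hz =>
          absurd hz (Finset.notMem_empty z)⟩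
      | insert q S hq ih =>
        intro hS
        obtain ⟨δ, hδ, hδr, hh⟩ := ih fun z hz => hS z (Finset.mem_insert_of_mem hz)
        have hqr := hS q (Finset.mem_insert_self q S)
        have hpos : 0 < |‖q - x‖ - r| := abs_pos.2 (sub_ne_zero.2 hqr)
        refine ⟨min δ (|‖q - x‖ - r| / 2), by positivity, (min_le_left _ _).trans_lt hδr, ?_⟩
        intro z hz hcon
        rcases Finset.mem_insert.1 hz with h3 | h3
        · rw [h3] at hcon
          have h4 := min_le_right δ (|‖q - x‖ - r| / 2)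
          have h5 : |‖q - x‖ - r| ≤ |‖q - x‖ - r| / 2 :=
            abs_le.2 ⟨by linarith [hcon.1], by linarith [hcon.2]⟩
          linarith
        · have h4 := min_le_left δ (|‖q - x‖ - r| / 2)
          exact hh z h3 ⟨by linarith [hcon.1], by linarith [hcon.2]⟩
    obtain ⟨δ, hδ, hδr, hh⟩ := hex ((P s1).toFinset ∪ (Q s1).toFinset) (by
      intro z hz h0
      rcases Finset.mem_union.1 hz with h3 | h3
      · exact h2 z h0 ((hstr1.hP z).1 (Multiset.mem_toFinset.1 h3))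
      · exact h1 z h0 ((hstr1.hQ z).1 (Multiset.mem_toFinset.1 h3)))
    refine ⟨δ, hδ, hδr, fun z h3 h4 => ⟨fun h5 => ?_, fun h5 => ?_⟩⟩
    · exact hh z (Finset.mem_union_left _ (Multiset.mem_toFinset.2 h5)) ⟨h3, h4⟩
    · exact hh z (Finset.mem_union_right _ (Multiset.mem_toFinset.2 h5)) ⟨h3, h4⟩
  set r1 := r - δ with hr1
  set r2 := r + δ with hr2
  have hr1pos : 0 < r1 := by linarith
  have hr2pos : 0 < r2 := by linarith
  set ℓ := Real.log r2 - Real.log r1 with hℓ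
  have hℓpos : 0 < ℓ := by
    have := Real.log_lt_log hr1pos (show r1 < r2 by linarith)
    linarith
  set K := (‖x‖ + r2) ^ 2 with hK
  have hKpos : 0 ≤ K := by positivity
  set ε := ℓ / (K + 2) with hε
  have hεpos : 0 < ε := by positivity
  -- compact sets
  have hAc : IsCompact (closedBall x r2 ∩ {z | r1 ≤ ‖z - x‖}) :=
    (isCompact_closedBall x r2).inter_right
      (isClosed_le continuous_const (by fun_prop))
  have hA1 : ∀ z ∈ closedBall x r2 ∩ {z | r1 ≤ ‖z - x‖}, (F s1).phi z 2 < 1 ∧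
      -1 < (F s1).phi z 2 := by
    intro z hz
    have h3 := hann z hz.2 (by have := hz.1; rwa [mem_closedBall, dist_eq_norm] at this)
    exact ⟨lt_one hsol1 fun h0 => h3.2 ((hstr1.hQ z).2 h0),
      gt_neg_one hsol1 fun h0 => h3.1 ((hstr1.hP z).2 h0)⟩
  have ev1 : ∀ᶠ s in 𝓝 s1, ∀ z ∈ closedBall x r2 ∩ {z | r1 ≤ ‖z - x‖},
      ((F s).phi z 2 < 1 ∧ -1 < (F s).phi z 2) ∧ |lr (F s) z - lr (F s1) z| < ε := by
    refine hAc.eventually_forall_of_forall_eventually fun z hz => ?_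
    have hca := cont_at hU hc hs1 z
    have hcb := cont_snd (E := E) hsol1 s1 z
    obtain ⟨h3, h4⟩ := hA1 z hz
    have n1 : 1 - (F s1).phi z 2 ≠ 0 := by linarith
    have n2 : 1 + (F s1).phi z 2 ≠ 0 := by linarith
    have hcc : ContinuousAt (fun q : E × ℂ => |lr (F q.1) q.2 - lr (F s1) q.2|) (s1, z) := by
      unfold lr
      exact ((((continuousAt_const.sub hca).log n1).sub ((continuousAt_const.add hca).log n2)).sub
        (((continuousAt_const.sub hcb).log n1).sub ((continuousAt_const.add hcb).log n2))).abs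
    have h5 : (fun q : E × ℂ => |lr (F q.1) q.2 - lr (F s1) q.2|) (s1, z) < ε := by
      show |lr (F s1) z - lr (F s1) z| < ε
      rw [sub_self, abs_zero]; exact hεpos
    filter_upwards [hca.eventually (gt_mem_nhds h3), hca.eventually (lt_mem_nhds h4),
      hcc.eventually (gt_mem_nhds h5)] with q q1 q2 q3
    exact ⟨⟨q1, q2⟩, q3⟩
  have ev2 : ∀ᶠ s in 𝓝 s1, ∀ z ∈ closedBall x r2, |(F s).phi z 2 - (F s1).phi z 2| < ε := by
    refine (isCompact_closedBall x r2).eventually_forall_of_forall_eventually fun z _ => ?_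
    have hca := cont_at hU hc hs1 z
    have hcb := cont_snd (E := E) hsol1 s1 z
    have hcc : ContinuousAt (fun q : E × ℂ => |(F q.1).phi q.2 2 - (F s1).phi q.2 2|) (s1, z) :=
      (hca.sub hcb).abs
    refine hcc.eventually (gt_mem_nhds ?_)
    show |(F s1).phi z 2 - (F s1).phi z 2| < ε
    rw [sub_self, abs_zero]; exact hεpos
  filter_upwards [ev1, ev2, hU.mem_nhds hs1] with s e1 e2 hsU
  refine ⟨hsU, ?_⟩
  have hsols := hsol s hsU
  have hstrs := hstr s hsU
  have hannS : ∀ z, r1 ≤ ‖z - x‖ → ‖z - x‖ ≤ r2 → z ∉ P s ∧ z ∉ Q s := by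
    intro z h3 h4
    have h5 := (e1 z ⟨by rw [mem_closedBall, dist_eq_norm]; exact h4, h3⟩).1
    refine ⟨fun h0 => ?_, fun h0 => ?_⟩
    · have := (eq_ss_iff hsols z).1 ((hstrs.hP z).1 h0)
      linarith [h5.2]
    · have := (eq_nn_iff hsols z).1 ((hstrs.hQ z).1 h0)
      linarith [h5.1]
  -- a formula for the difference
  have key : ∀ t ∈ U, (∀ z, r1 ≤ ‖z - x‖ → ‖z - x‖ ≤ r2 → z ∉ P t ∧ z ∉ Q t) →
      CircleIntegrable (lr (F t)) x r1 ∧ CircleIntegrable (lr (F t)) x r2 ∧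
      (Real.circleAverage (lr (F t)) x r2 - Real.circleAverage (lr (F t)) x r1) +
        2 * ((cnt (P t) x r : ℝ) - cnt (Q t) x r) * ℓ =
      Real.circleAverage (fun z => a t z + a t z) x r2 -
        Real.circleAverage (fun z => a t z + a t z) x r1 := by
    intro t ht hh
    have hneP : ∀ ρ, r1 ≤ ρ → ρ ≤ r2 → ∀ p ∈ P t, ‖p - x‖ ≠ ρ := fun ρ h3 h4 p hp h0 =>
      (hh p (by rw [h0]; exact h3) (by rw [h0]; exact h4)).1 hp
    have hneQ : ∀ ρ, r1 ≤ ρ → ρ ≤ r2 → ∀ p ∈ Q t, ‖p - x‖ ≠ ρ := fun ρ h3 h4 p hp h0 =>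
      (hh p (by rw [h0]; exact h3) (by rw [h0]; exact h4)).2 hp
    have h12 : r1 ≤ r2 := by linarith
    obtain ⟨i1, f1⟩ := (hstr t ht).avg (hsol t ht) hr1pos (hneP r1 le_rfl h12)
      (hneQ r1 le_rfl h12)
    obtain ⟨i2, f2⟩ := (hstr t ht).avg (hsol t ht) hr2pos (hneP r2 h12 le_rfl)
      (hneQ r2 h12 le_rfl)
    have g1 := avg_PP (P t) (x := x) (r1 := r1) (r := r) (r2 := r2) hr1pos (by linarith)
      (by linarith) (fun p hp => by
        by_contra hcon
        push Not at hcon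
        exact (hh p hcon.1 hcon.2).1 hp)
    have g2 := avg_PP (Q t) (x := x) (r1 := r1) (r := r) (r2 := r2) hr1pos (by linarith)
      (by linarith) (fun p hp => by
        by_contra hcon
        push Not at hcon
        exact (hh p hcon.1 hcon.2).2 hp)
    refine ⟨i1, i2, ?_⟩
    rw [← hℓ] at g1 g2
    linear_combination f2 - f1 - g1 + g2
  obtain ⟨i1, i2, k1⟩ := key s1 hs1 hann
  obtain ⟨j1, j2, k2⟩ := key s hsU hannS
  have d1 : |Real.circleAverage (lr (F s)) x r1 - Real.circleAverage (lr (F s1)) x r1| ≤ ε :=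
    avg_dist hr1pos j1 i1 fun z hz => (e1 z ⟨by
      rw [mem_closedBall, dist_eq_norm, hz]; linarith, hz.ge⟩).2.le
  have d2 : |Real.circleAverage (lr (F s)) x r2 - Real.circleAverage (lr (F s1)) x r2| ≤ ε :=
    avg_dist hr2pos j2 i2 fun z hz => (e1 z ⟨by
      rw [mem_closedBall, dist_eq_norm, hz], by
        show r1 ≤ ‖z - x‖
        rw [hz]; linarith⟩).2.le
  have hW : ContDiff ℝ ∞ (fun z => (a s z + a s z) - (a s1 z + a s1 z)) :=
    hstrs.smooth_v.sub hstr1.smooth_v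
  have hneg : ContDiff ℝ ∞ (fun z => - (a s1 z + a s1 z)) := hstr1.smooth_v.neg
  have hWl : ∀ z, lap (fun z => (a s z + a s z) - (a s1 z + a s1 z)) z =
      2 * ((F s1).phi z 2 - (F s).phi z 2) := by
    intro z
    have h3 : (fun z => (a s z + a s z) - (a s1 z + a s1 z)) =
        fun z => (a s z + a s z) + (- (a s1 z + a s1 z)) := by
      funext y; ring
    rw [h3, lap_add_at (hstrs.smooth_v.contDiffAt.of_le two_le_inf)
      (hneg.contDiffAt.of_le two_le_inf), lap_neg, hstrs.lap_v hsols, hstr1.lap_v hsol1]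
    ring
  have d3 := avg_close hW x (r1 := r1) (r2 := r2) (η := 2 * ε) hr1pos (by linarith)
    (by positivity) (fun z hz => by
      rw [hWl, abs_mul, abs_of_pos (by norm_num : (0 : ℝ) < 2), abs_sub_comm]
      have := e2 z (by rw [mem_closedBall, dist_eq_norm]; exact hz)
      linarith)
  have hcs : ∀ ρ, 0 < ρ → CircleIntegrable (fun z => a s z + a s z) x ρ := fun ρ hρ =>
    circleIntegrable_of_cont hρ.le hstrs.smooth_v.continuous.continuousOn
  have hcs1 : ∀ ρ, 0 < ρ → CircleIntegrable (fun z => a s1 z + a s1 z) x ρ := fun ρ hρ =>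
    circleIntegrable_of_cont hρ.le hstr1.smooth_v.continuous.continuousOn
  rw [Real.circleAverage_fun_sub (hcs r2 hr2pos) (hcs1 r2 hr2pos),
    Real.circleAverage_fun_sub (hcs r1 hr1pos) (hcs1 r1 hr1pos)] at d3
  have hεK : ε * (K + 2) = ℓ := by rw [hε]; field_simp
  have fin : |((cnt (P s) x r : ℝ) - cnt (Q s) x r) - ((cnt (P s1) x r : ℝ) - cnt (Q s1) x r)|
      < 1 := by
    have h3 : 2 * (((cnt (P s) x r : ℝ) - cnt (Q s) x r) -
        ((cnt (P s1) x r : ℝ) - cnt (Q s1) x r)) * ℓ =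
        ((Real.circleAverage (fun z => a s z + a s z) x r2 -
          Real.circleAverage (fun z => a s1 z + a s1 z) x r2) -
        (Real.circleAverage (fun z => a s z + a s z) x r1 -
          Real.circleAverage (fun z => a s1 z + a s1 z) x r1)) -
        (Real.circleAverage (lr (F s)) x r2 - Real.circleAverage (lr (F s1)) x r2) +
        (Real.circleAverage (lr (F s)) x r1 - Real.circleAverage (lr (F s1)) x r1) := by
      linear_combination k2 - k1
    have h4 := abs_le.1 d1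
    have h5 := abs_le.1 d2
    have h6 := abs_le.1 d3
    rw [← hK] at h6
    have h7 : |2 * (((cnt (P s) x r : ℝ) - cnt (Q s) x r) -
        ((cnt (P s1) x r : ℝ) - cnt (Q s1) x r)) * ℓ| ≤ 2 * ε / 4 * K + 2 * ε := by
      rw [h3, abs_le]
      constructor <;> linarith [h4.1, h4.2, h5.1, h5.2, h6.1, h6.2]
    rw [abs_mul, abs_mul, abs_of_pos hℓpos, abs_of_pos (by norm_num : (0 : ℝ) < 2)] at h7
    by_contra hcon
    push Not at hcon
    have h8 : 2 * ℓ ≤ 2 * |((cnt (P s) x r : ℝ) - cnt (Q s) x r) -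
        ((cnt (P s1) x r : ℝ) - cnt (Q s1) x r)| * ℓ := by
      nlinarith
    nlinarith
  have fin2 : |((cnt (P s) x r : ℤ) - cnt (Q s) x r) - ((cnt (P s1) x r : ℤ) - cnt (Q s1) x r)|
      < 1 := by exact_mod_cast fin
  have := Int.abs_lt_one_iff.1 fin2
  omega

theorem count_P (hU : IsOpen U)
    (hc : ContinuousOn (fun q : E × ℂ => (F q.1).phi q.2 2) (U ×ˢ univ))
    (hsol : ∀ s ∈ U, (F s).IsSolution) (hstr : ∀ s ∈ U, Str (F s) (P s) (Q s) (a s) (b s))
    {s1 : E} (hs1 : s1 ∈ U) {x : ℂ} {r : ℝ} (hr : 0 < r)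
    (h1 : ∀ z, ‖z - x‖ ≤ r → (F s1).phi z ≠ nn) (h2 : ∀ z, ‖z - x‖ = r → (F s1).phi z ≠ ss) :
    ∀ᶠ s in 𝓝 s1, s ∈ U ∧ cnt (P s) x r = cnt (P s1) x r ∧
      ∀ z, ‖z - x‖ ≤ r → (F s).phi z ≠ nn := by
  have hs1sol := hsol s1 hs1
  have ev1 : ∀ᶠ s in 𝓝 s1, ∀ z ∈ closedBall x r, (F s).phi z 2 < 1 := by
    refine (isCompact_closedBall x r).eventually_forall_of_forall_eventually fun z hz => ?_
    rw [mem_closedBall, dist_eq_norm] at hz
    exact (cont_at hU hc hs1 z).eventually (gt_mem_nhds (lt_one hs1sol (h1 z hz)))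
  filter_upwards [ev1, cnt_diff hU hc hsol hstr hs1 hr (fun z hz => h1 z hz.le) h2]
    with s e1 e2
  obtain ⟨hsU, e2⟩ := e2
  have hnn : ∀ z, ‖z - x‖ ≤ r → (F s).phi z ≠ nn := fun z hz h0 => by
    have h3 := e1 z (by rw [mem_closedBall, dist_eq_norm]; exact hz)
    rw [(eq_nn_iff (hsol s hsU) z).1 h0] at h3
    exact lt_irrefl _ h3
  refine ⟨hsU, ?_, hnn⟩
  have q1 : cnt (Q s1) x r = 0 := cnt_zero fun p hp h0 =>
    h1 p h0.le (((hstr s1 hs1).hQ p).1 hp)
  have q2 : cnt (Q s) x r = 0 := cnt_zero fun p hp h0 =>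
    hnn p h0.le (((hstr s hsU).hQ p).1 hp)
  rw [q1, q2] at e2
  omega

theorem count_Q (hU : IsOpen U)
    (hc : ContinuousOn (fun q : E × ℂ => (F q.1).phi q.2 2) (U ×ˢ univ))
    (hsol : ∀ s ∈ U, (F s).IsSolution) (hstr : ∀ s ∈ U, Str (F s) (P s) (Q s) (a s) (b s))
    {s1 : E} (hs1 : s1 ∈ U) {x : ℂ} {r : ℝ} (hr : 0 < r)
    (h1 : ∀ z, ‖z - x‖ ≤ r → (F s1).phi z ≠ ss) (h2 : ∀ z, ‖z - x‖ = r → (F s1).phi z ≠ nn) :
    ∀ᶠ s in 𝓝 s1, s ∈ U ∧ cnt (Q s) x r = cnt (Q s1) x r ∧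
      ∀ z, ‖z - x‖ ≤ r → (F s).phi z ≠ ss := by
  have hs1sol := hsol s1 hs1
  have ev1 : ∀ᶠ s in 𝓝 s1, ∀ z ∈ closedBall x r, -1 < (F s).phi z 2 := by
    refine (isCompact_closedBall x r).eventually_forall_of_forall_eventually fun z hz => ?_
    rw [mem_closedBall, dist_eq_norm] at hz
    exact (cont_at hU hc hs1 z).eventually (lt_mem_nhds (gt_neg_one hs1sol (h1 z hz)))
  filter_upwards [ev1, cnt_diff hU hc hsol hstr hs1 hr h2 (fun z hz => h1 z hz.le)]
    with s e1 e2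
  obtain ⟨hsU, e2⟩ := e2
  have hss : ∀ z, ‖z - x‖ ≤ r → (F s).phi z ≠ ss := fun z hz h0 => by
    have h3 := e1 z (by rw [mem_closedBall, dist_eq_norm]; exact hz)
    rw [(eq_ss_iff (hsol s hsU) z).1 h0] at h3
    exact lt_irrefl _ h3
  refine ⟨hsU, ?_, hss⟩
  have q1 : cnt (P s1) x r = 0 := cnt_zero fun p hp h0 =>
    h1 p h0.le (((hstr s1 hs1).hP p).1 hp)
  have q2 : cnt (P s) x r = 0 := cnt_zero fun p hp h0 =>
    hss p h0.le (((hstr s hsU).hP p).1 hp)
  rw [q1, q2] at e2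
  omega

end fam

/-- tracking: a multiset with points in disjoint discs -/
theorem track {M M' : Multiset ℂ} {ρ : ℝ}
    (hsep : ∀ p ∈ M.toFinset, ∀ q ∈ M.toFinset, p ≠ q → 2 * ρ < ‖p - q‖)
    (hcnt : ∀ p ∈ M.toFinset, 0 < cnt M' p ρ)
    (hcard : M'.toFinset.card ≤ M.toFinset.card) :
    ∀ x ∈ M', ∃ p ∈ M.toFinset, ‖x - p‖ < ρ := by
  classical
  have hex : ∀ p, ∃ y, p ∈ M.toFinset → y ∈ M' ∧ ‖y - p‖ < ρ := by
    intro p
    by_cases hp : p ∈ M.toFinset
    · have h1 := hcnt p hp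
      unfold cnt at h1
      obtain ⟨y, hy⟩ := Multiset.card_pos_iff_exists_mem.1 h1
      rw [Multiset.mem_filter] at hy
      exact ⟨y, fun _ => hy⟩
    · exact ⟨0, fun h => absurd h hp⟩
  choose f hf using hex
  have hinj : Set.InjOn f M.toFinset := by
    intro p hp q hq hpq
    by_contra hne
    have h1 := (hf p hp).2
    have h2 := (hf q hq).2
    have h3 := hsep p hp q hq hne
    rw [hpq] at h1
    have h4 : ‖p - q‖ ≤ ‖f q - p‖ + ‖f q - q‖ := by
      have : p - q = (f q - q) - (f q - p) := by ring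
      rw [this]
      exact (norm_sub_le _ _).trans (le_of_eq (add_comm _ _))
    linarith
  have himg : M.toFinset.image f = M'.toFinset := by
    refine Finset.eq_of_subset_of_card_le ?_ ?_
    · intro y hy
      obtain ⟨p, hp, rfl⟩ := Finset.mem_image.1 hy
      exact Multiset.mem_toFinset.2 (hf p hp).1
    · rw [Finset.card_image_of_injOn hinj]
      exact hcard
  intro x hx
  have h1 : x ∈ M.toFinset.image f := by rw [himg]; exact Multiset.mem_toFinset.2 hx
  obtain ⟨p, hp, rfl⟩ := Finset.mem_image.1 h1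
  exact ⟨p, hp, (hf p hp).2⟩

/-- the injection forces the number of points to be minimal -/
theorem card_le_of_cnt {M M' : Multiset ℂ} {ρ : ℝ}
    (hsep : ∀ p ∈ M.toFinset, ∀ q ∈ M.toFinset, p ≠ q → 2 * ρ < ‖p - q‖)
    (hcnt : ∀ p ∈ M.toFinset, 0 < cnt M' p ρ) : M.toFinset.card ≤ M'.toFinset.card := by
  classical
  have hex : ∀ p, ∃ y, p ∈ M.toFinset → y ∈ M' ∧ ‖y - p‖ < ρ := by
    intro p
    by_cases hp : p ∈ M.toFinset
    · have h1 := hcnt p hp
      unfold cnt at h1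
      obtain ⟨y, hy⟩ := Multiset.card_pos_iff_exists_mem.1 h1
      rw [Multiset.mem_filter] at hy
      exact ⟨y, fun _ => hy⟩
    · exact ⟨0, fun h => absurd h hp⟩
  choose f hf using hex
  refine Finset.card_le_card_of_injOn f (fun p hp => ?_) ?_
  · exact Multiset.mem_toFinset.2 (hf p hp).1
  · intro p hp q hq hpq
    by_contra hne
    have h1 := (hf p hp).2
    have h2 := (hf q hq).2
    have h3 := hsep p hp q hq hne
    rw [hpq] at h1
    have h4 : ‖p - q‖ ≤ ‖f q - p‖ + ‖f q - q‖ := by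
      have : p - q = (f q - q) - (f q - p) := by ring
      rw [this]
      exact (norm_sub_le _ _).trans (le_of_eq (add_comm _ _))
    linarith

end Config

/-- dimension of the source of a continuous injection -/
theorem dim_le {k : ℕ} {W : Type*} [NormedAddCommGroup W] [NormedSpace ℝ W]
    [FiniteDimensional ℝ W] {G : EuclideanSpace ℝ (Fin k) → W} {s0 : EuclideanSpace ℝ (Fin k)}
    {r : ℝ} (hr : 0 < r) (hc : ContinuousOn G (closedBall s0 r))
    (hi : InjOn G (closedBall s0 r)) : k ≤ Module.finrank ℝ W := by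
  by_contra hlt
  push Not at hlt
  set n := Module.finrank ℝ W with hn
  let bs := Module.finBasis ℝ W
  let Λ : W →ₗ[ℝ] EuclideanSpace ℝ (Fin k) :=
    { toFun := fun v => WithLp.toLp 2 fun j : Fin k =>
        if h : (j : ℕ) < n then bs.repr v ⟨j, h⟩ else 0
      map_add' := by
        intro u v
        ext j
        by_cases h : (j : ℕ) < n <;> simp [h]
      map_smul' := by
        intro t v
        ext j
        by_cases h : (j : ℕ) < n <;> simp [h] }
  have hΛj : ∀ v, Λ v ⟨n, hlt⟩ = 0 := by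
    intro v
    simp [Λ]
  have hΛi : Function.Injective Λ := by
    intro u v huv
    apply bs.repr.injective
    ext i
    have h1 := congrArg (fun x : EuclideanSpace ℝ (Fin k) => x ⟨i, i.2.trans hlt⟩) huv
    have hi : (i : ℕ) < n := i.2
    simpa [Λ, hi] using h1
  have hΛc : Continuous Λ := Λ.continuous_of_finiteDimensional
  have hmem := Pool.Agent.Helper607.Wild.IoD.image_mem_nhds (fun s => Λ (G s)) s0 r hr
    (hΛc.comp_continuousOn hc) (fun x hx y hy hxy => hi hx hy (hΛi hxy))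
  -- perturb the coordinate `n`
  have hline : Tendsto (fun t : ℝ => Λ (G s0) + t • EuclideanSpace.single ⟨n, hlt⟩ (1 : ℝ))
      (𝓝 0) (𝓝 (Λ (G s0))) := by
    have : Continuous (fun t : ℝ => Λ (G s0) + t • EuclideanSpace.single ⟨n, hlt⟩ (1 : ℝ)) := by
      fun_prop
    have h2 := this.tendsto 0
    simpa using h2
  have hev := hline.eventually hmem
  have hev2 : ∀ᶠ t in 𝓝[≠] (0 : ℝ), Λ (G s0) + t • EuclideanSpace.single ⟨n, hlt⟩ (1 : ℝ) ∈
      (fun s => Λ (G s)) '' closedBall s0 r := hev.filter_mono nhdsWithin_le_nhds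
  obtain ⟨t, ht1, ht2⟩ := (hev2.and self_mem_nhdsWithin).exists
  obtain ⟨s, _, hs⟩ := ht1
  have h3 := congrArg (fun x : EuclideanSpace ℝ (Fin k) => x ⟨n, hlt⟩) hs
  simp only [PiLp.add_apply, PiLp.smul_apply] at h3
  rw [hΛj, hΛj] at h3
  simp at h3
  exact ht2 h3.symm

end Pool.Agent.H172R3.SM
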