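import Pool.Agent.H172R3.SM.S5
import Pool.Agent.Helper607.Wild.IoD

/-! # Families of solutions: circle averages and counts -/

set_option autoImplicit false

noncomputable section

namespace Pool.Agent.H172R3.SM

open Complex Set Filter Topology MeasureTheory Metric
open scoped ContDiff Matrix

theorem CM_eq (c : ℂ) (g : ℂ → ℝ) (t : ℝ) :
    CM c g t = 2 * Real.pi * Real.circleAverage g c (Real.exp t) := by
  rw [Real.circleAverage_eq_integral_add (-Real.pi),
    intervalIntegral.integral_comp_add_right (fun θ => g (circleMap c (Real.exp t) θ)),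
    smul_eq_mul, ← mul_assoc, mul_inv_cancel₀ (by positivity), one_mul]
  unfold CM
  have e1 : (0 : ℝ) + -Real.pi = -Real.pi := by ring
  have e2 : 2 * Real.pi + -Real.pi = Real.pi := by ring
  rw [e1, e2]
  congr 1
  funext θ
  congr 1
  unfold pt circleMap
  rw [exp_add]
  push_cast
  rfl

theorem CM_mono_local {g : ℂ → ℝ} (hg : ContDiff ℝ ∞ g) (c : ℂ) {T : ℝ}
    (hl : ∀ z, ‖z - c‖ ≤ Real.exp T → 0 ≤ lap g z) {t1 t2 : ℝ} (h12 : t1 ≤ t2) (h2 : t2 ≤ T) :
    CM c g t1 ≤ CM c g t2 := by
  have hm : MonotoneOn (CM c (Dr c g)) (Iic T) := by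
    refine monotoneOn_of_deriv_nonneg (convex_Iic T)
      (fun t _ => (hasDerivAt_CM2 hg c t).continuousAt.continuousWithinAt)
      (fun t _ => (hasDerivAt_CM2 hg c t).differentiableAt.differentiableWithinAt) ?_
    intro t ht
    rw [interior_Iic] at ht
    rw [(hasDerivAt_CM2 hg c t).deriv]
    refine mul_nonneg (Real.exp_pos _).le ?_
    have := CM_mono c (g := fun _ => 0) (h := lap g) continuous_const
      (contDiff_lap hg).continuous t (fun z hz => hl z (by
        rw [hz]; exact Real.exp_le_exp.2 (le_of_lt ht)))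
    rw [CM_const, mul_zero] at this
    exact this
  have hnn : ∀ t ≤ T, 0 ≤ CM c (Dr c g) t := by
    intro t ht
    refine le_of_tendsto (tendsto_CM_Dr hg c) ?_
    filter_upwards [eventually_le_atBot t] with t' ht'
    exact hm (ht'.trans ht) ht ht'
  have hm2 : MonotoneOn (CM c g) (Iic T) := by
    refine monotoneOn_of_deriv_nonneg (convex_Iic T)
      (fun t _ => (hasDerivAt_CM hg c t).continuousAt.continuousWithinAt)
      (fun t _ => (hasDerivAt_CM hg c t).differentiableAt.differentiableWithinAt) ?_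
    intro t ht
    rw [interior_Iic] at ht
    rw [(hasDerivAt_CM hg c t).deriv]
    exact hnn t (le_of_lt ht)
  exact hm2 (h12.trans h2) h2 h12

theorem contDiff_const_mul {g : ℂ → ℝ} (hg : ContDiff ℝ ∞ g) (k : ℝ) :
    ContDiff ℝ ∞ (fun z => k * g z) := contDiff_const.mul hg

theorem lap_const_mul {g : ℂ → ℝ} (hg : ContDiff ℝ ∞ g) (k : ℝ) (z : ℂ) :
    lap (fun z => k * g z) z = k * lap g z := by
  have e1 : dx (fun z => k * g z) = fun z => k * dx g z := by
    funext y
    unfold dx
    rw [fderiv_const_mul (hg.differentiable (by simp) y)]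
    rfl
  have e2 : dy (fun z => k * g z) = fun z => k * dy g z := by
    funext y
    unfold dy
    rw [fderiv_const_mul (hg.differentiable (by simp) y)]
    rfl
  unfold lap
  rw [e1, e2]
  have f1 : dx (fun z => k * dx g z) z = k * dx (dx g) z := by
    show fderiv ℝ (fun z => k * dx g z) z 1 = _
    rw [fderiv_const_mul ((contDiff_dx hg).differentiable (by simp) z)]
    rfl
  have f2 : dy (fun z => k * dy g z) z = k * dy (dy g) z := by
    show fderiv ℝ (fun z => k * dy g z) z I = _
    rw [fderiv_const_mul ((contDiff_dy hg).differentiable (by simp) z)]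
    rfl
  rw [f1, f2]
  ring

theorem CM_const_mul (c : ℂ) (g : ℂ → ℝ) (k t : ℝ) :
    CM c (fun z => k * g z) t = k * CM c g t := by
  unfold CM
  rw [intervalIntegral.integral_const_mul]

theorem CM_normSq (c : ℂ) (t : ℝ) : 0 ≤ CM c (fun z => normSq z) t ∧
    CM c (fun z => normSq z) t ≤ 2 * Real.pi * (‖c‖ + Real.exp t) ^ 2 := by
  constructor
  · have := CM_mono c (g := fun _ => 0) (h := fun z => normSq z) continuous_const
      contDiff_normSq.continuous t (fun z _ => normSq_nonneg z)
    rwa [CM_const, mul_zero] at this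
  · have := CM_mono c (g := fun z => normSq z) (h := fun _ => (‖c‖ + Real.exp t) ^ 2)
      contDiff_normSq.continuous continuous_const t (fun z hz => by
        rw [normSq_eq_norm_sq]
        refine pow_le_pow_left₀ (norm_nonneg _) ?_ 2
        have h1 : z = c + (z - c) := by ring
        calc ‖z‖ = ‖c + (z - c)‖ := by rw [← h1]
          _ ≤ ‖c‖ + ‖z - c‖ := norm_add_le _ _
          _ = ‖c‖ + Real.exp t := by rw [hz])
    rwa [CM_const] at this

theorem CM_close {g : ℂ → ℝ} (hg : ContDiff ℝ ∞ g) (c : ℂ) {t1 t2 η : ℝ} (h12 : t1 ≤ t2)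
    (hη : 0 ≤ η) (hl : ∀ z, ‖z - c‖ ≤ Real.exp t2 → |lap g z| ≤ η) :
    |CM c g t2 - CM c g t1| ≤ η / 4 * (2 * Real.pi * (‖c‖ + Real.exp t2) ^ 2) := by
  have hn := contDiff_normSq
  have hq : ContDiff ℝ ∞ (fun z => η / 4 * normSq z) := contDiff_const_mul hn _
  have hlq : ∀ z, lap (fun z => η / 4 * normSq z) z = η := fun z => by
    rw [lap_const_mul hn, lap_normSq]; ring
  have b1 := (CM_normSq c t1).1
  have b2 := (CM_normSq c t2).2
  have b3 : η / 4 * CM c (fun z => normSq z) t2 ≤
      η / 4 * (2 * Real.pi * (‖c‖ + Real.exp t2) ^ 2) :=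
    mul_le_mul_of_nonneg_left b2 (by positivity)
  have b4 : 0 ≤ η / 4 * CM c (fun z => normSq z) t1 := mul_nonneg (by positivity) b1
  have m1 : CM c (fun z => g z + η / 4 * normSq z) t1 ≤
      CM c (fun z => g z + η / 4 * normSq z) t2 := by
    refine CM_mono_local (hg.add hq) c (fun z hz => ?_) h12 le_rfl
    rw [lap_add_at (hg.contDiffAt.of_le two_le_inf) (hq.contDiffAt.of_le two_le_inf), hlq]
    have := abs_le.1 (hl z hz)
    linarith [this.1]
  have hgn : ContDiff ℝ ∞ (fun z => - g z) := hg.neg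
  have m2 : CM c (fun z => - g z + η / 4 * normSq z) t1 ≤
      CM c (fun z => - g z + η / 4 * normSq z) t2 := by
    refine CM_mono_local (hgn.add hq) c (fun z hz => ?_) h12 le_rfl
    rw [lap_add_at (hgn.contDiffAt.of_le two_le_inf) (hq.contDiffAt.of_le two_le_inf), hlq,
      lap_neg]
    have := abs_le.1 (hl z hz)
    linarith [this.2]
  have hneg : ∀ t, CM c (fun z => - g z) t = - CM c g t := fun t => by
    unfold CM
    rw [intervalIntegral.integral_neg]
  rw [CM_add c hg.continuous hq.continuous, CM_add c hg.continuous hq.continuous,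
    CM_const_mul, CM_const_mul] at m1
  rw [CM_add c hgn.continuous hq.continuous, CM_add c hgn.continuous hq.continuous,
    CM_const_mul, CM_const_mul, hneg, hneg] at m2
  rw [abs_le]
  constructor <;> linarith

theorem avg_close {g : ℂ → ℝ} (hg : ContDiff ℝ ∞ g) (x : ℂ) {r1 r2 η : ℝ} (h1 : 0 < r1)
    (h12 : r1 ≤ r2) (hη : 0 ≤ η) (hl : ∀ z, ‖z - x‖ ≤ r2 → |lap g z| ≤ η) :
    |Real.circleAverage g x r2 - Real.circleAverage g x r1| ≤ η / 4 * (‖x‖ + r2) ^ 2 := by
  have h2 : 0 < r2 := h1.trans_le h12
  have hpi := Real.pi_pos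
  have key := CM_close hg x (t1 := Real.log r1) (t2 := Real.log r2) (Real.log_le_log h1 h12) hη
    (by rw [Real.exp_log h2]; exact hl)
  rw [CM_eq, CM_eq, Real.exp_log h1, Real.exp_log h2, ← mul_sub, abs_mul,
    abs_of_pos (by positivity : 0 < 2 * Real.pi)] at key
  have h3 : 2 * Real.pi * |Real.circleAverage g x r2 - Real.circleAverage g x r1| ≤
      2 * Real.pi * (η / 4 * (‖x‖ + r2) ^ 2) := by
    refine key.trans (le_of_eq ?_); ring
  exact le_of_mul_le_mul_left h3 (by positivity)

theorem circleIntegrable_of_cont {f : ℂ → ℝ} {x : ℂ} {r : ℝ} (hr : 0 ≤ r)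
    (hf : ContinuousOn f (sphere x r)) : CircleIntegrable f x r :=
  hf.circleIntegrable hr

theorem cont_log_PP (M : Multiset ℂ) {x : ℂ} {r : ℝ} (h : ∀ p ∈ M, ‖p - x‖ ≠ r) :
    ContinuousOn (fun z => Real.log (normSq (PP M z))) (sphere x r) := by
  intro z hz
  have h1 : normSq (PP M z) ≠ 0 := fun h0 => by
    have := PP_eq_zero.1 (normSq_eq_zero.1 h0)
    exact h z this (by rwa [mem_sphere, dist_eq_norm] at hz)
  have h2 : Continuous (fun z => normSq (PP M z)) :=
    contDiff_normSq.continuous.comp (contDiff_PP M).continuous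
  exact (h2.continuousAt.log h1).continuousWithinAt

theorem avg_log (p x : ℂ) {r : ℝ} (hr : 0 < r) :
    (‖p - x‖ < r → Real.circleAverage (fun z => Real.log ‖z - p‖) x r = Real.log r) ∧
    (r < ‖p - x‖ → Real.circleAverage (fun z => Real.log ‖z - p‖) x r = Real.log ‖p - x‖) := by
  have h := circleAverage_log_norm_sub_const_eq_log_radius_add_posLog (a := p) (c := x) hr.ne'
  constructor
  · intro h1
    have h2 : r⁻¹ * ‖x - p‖ ≤ 1 := by
      rw [norm_sub_rev, inv_mul_le_one₀ hr]; exact h1.le
    rw [h, (Real.posLog_eq_zero_iff _).2, add_zero]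
    rw [abs_of_nonneg (by positivity)]
    exact h2
  · intro h1
    have hp : 0 < ‖x - p‖ := by rw [norm_sub_rev]; linarith
    have h2 : 1 ≤ r⁻¹ * ‖x - p‖ := by
      rw [norm_sub_rev, le_inv_mul_iff₀ hr, mul_one]; exact h1.le
    rw [h, Real.posLog_eq_log (by rw [abs_of_nonneg (by positivity)]; exact h2),
      Real.log_mul (by positivity) hp.ne', Real.log_inv, norm_sub_rev]
    ring

theorem avg_PP (M : Multiset ℂ) {x : ℂ} {r1 r r2 : ℝ} (h0 : 0 < r1) (h1 : r1 ≤ r) (h2 : r ≤ r2)
    (hM : ∀ p ∈ M, ‖p - x‖ < r1 ∨ r2 < ‖p - x‖) :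
    Real.circleAverage (fun z => Real.log (normSq (PP M z))) x r2 -
      Real.circleAverage (fun z => Real.log (normSq (PP M z))) x r1 =
      2 * Config.cnt M x r * (Real.log r2 - Real.log r1) := by
  have hr2 : 0 < r2 := by linarith
  induction M using Multiset.induction_on with
  | empty =>
    simp [PP_zero, Config.cnt, Real.circleAverage_const]
  | cons p M ih =>
    have hMM : ∀ q ∈ M, ‖q - x‖ < r1 ∨ r2 < ‖q - x‖ := fun q hq =>
      hM q (Multiset.mem_cons_of_mem hq)
    have ih' := ih hMM
    have hp := hM p (Multiset.mem_cons_self p M)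
    have hsplit : ∀ ρ, 0 < ρ → (∀ q ∈ p ::ₘ M, ‖q - x‖ ≠ ρ) →
        Real.circleAverage (fun z => Real.log (normSq (PP (p ::ₘ M) z))) x ρ =
        2 * Real.circleAverage (fun z => Real.log ‖z - p‖) x ρ +
        Real.circleAverage (fun z => Real.log (normSq (PP M z))) x ρ := by
      intro ρ hρ hne
      have c1 : CircleIntegrable (fun z => Real.log (normSq (PP M z))) x ρ :=
        circleIntegrable_of_cont hρ.le (cont_log_PP M fun q hq =>
          hne q (Multiset.mem_cons_of_mem hq))
      have c2 : ContinuousOn (fun z => Real.log ‖z - p‖) (sphere x ρ) := by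
        intro z hz
        have : ‖z - p‖ ≠ 0 := fun h0 => by
          rw [norm_eq_zero, sub_eq_zero] at h0
          exact hne p (Multiset.mem_cons_self p M) (by
            rw [← h0]; rwa [mem_sphere, dist_eq_norm] at hz)
        exact ((by fun_prop : Continuous fun z : ℂ => ‖z - p‖).continuousAt.log
          this).continuousWithinAt
      have c3 : CircleIntegrable (fun z => 2 * Real.log ‖z - p‖) x ρ :=
        circleIntegrable_of_cont hρ.le (continuousOn_const.mul c2)
      have e1 : Real.circleAverage (fun z => Real.log (normSq (PP (p ::ₘ M) z))) x ρ =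
          Real.circleAverage ((fun z => 2 * Real.log ‖z - p‖) +
            (fun z => Real.log (normSq (PP M z)))) x ρ := by
        refine Real.circleAverage_congr_sphere fun z hz => ?_
        rw [abs_of_pos hρ, mem_sphere, dist_eq_norm] at hz
        have n1 : normSq (z - p) ≠ 0 := fun h0 => by
          rw [normSq_eq_zero, sub_eq_zero] at h0
          exact hne p (Multiset.mem_cons_self p M) (by rw [← h0]; exact hz)
        have n2 : normSq (PP M z) ≠ 0 := fun h0 => by
          have := PP_eq_zero.1 (normSq_eq_zero.1 h0)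
          exact hne z (Multiset.mem_cons_of_mem this) hz
        show Real.log (normSq (PP (p ::ₘ M) z)) = 2 * Real.log ‖z - p‖ +
          Real.log (normSq (PP M z))
        rw [PP_cons, map_mul, Real.log_mul n1 n2, normSq_eq_norm_sq, Real.log_pow]
        norm_num
      rw [e1, Real.circleAverage_add c3 c1]
      congr 1
      have : (fun z => 2 * Real.log ‖z - p‖) = fun z => (2 : ℝ) • Real.log ‖z - p‖ := rfl
      rw [this, Real.circleAverage_fun_smul, smul_eq_mul]
    have hne1 : ∀ q ∈ p ::ₘ M, ‖q - x‖ ≠ r1 := fun q hq => by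
      rcases hM q hq with h | h
      · exact h.ne
      · exact (by linarith : r1 < ‖q - x‖).ne'
    have hne2 : ∀ q ∈ p ::ₘ M, ‖q - x‖ ≠ r2 := fun q hq => by
      rcases hM q hq with h | h
      · exact (by linarith : ‖q - x‖ < r2).ne
      · exact h.ne'
    rw [hsplit r1 h0 hne1, hsplit r2 hr2 hne2]
    have hcnt : (Config.cnt (p ::ₘ M) x r : ℝ) =
        (if ‖p - x‖ < r then 1 else 0) + Config.cnt M x r := by
      unfold Config.cnt
      rw [Multiset.filter_cons]
      split_ifs
      · simp [add_comm]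
      · simp
    rw [hcnt]
    rcases hp with hp | hp
    · rw [if_pos (by linarith), ((avg_log p x h0).1 hp), ((avg_log p x hr2).1 (by linarith))]
      linarith
    · rw [if_neg (by linarith), ((avg_log p x h0).2 (by linarith)), ((avg_log p x hr2).2 hp)]
      linarith

end Pool.Agent.H172R3.SM
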