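import Pool.Agent.H172R3.SM.F

/-! # The bound on the number of parameters -/

set_option autoImplicit false

noncomputable section

namespace Pool.Agent.H172R3.SM

open Complex Set Filter Topology MeasureTheory Metric
open scoped ContDiff Matrix

namespace Config

theorem exists_sep2 (S : Finset ℂ) : ∃ ρ : ℝ, 0 < ρ ∧
    ∀ p ∈ S, ∀ q ∈ S, p ≠ q → 2 * ρ < ‖p - q‖ := by
  classical
  induction S using Finset.induction_on with
  | empty => exact ⟨1, one_pos, fun p hp => absurd hp (Finset.notMem_empty p)⟩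
  | insert x S hx ih =>
    obtain ⟨ρ, hρ, h1⟩ := ih
    obtain ⟨σ, hσ, h2⟩ := exists_sep S x
    refine ⟨min ρ (σ / 2) / 2, by positivity, fun p hp q hq hpq => ?_⟩
    have e0 : 0 < min ρ (σ / 2) := by positivity
    have e1 := min_le_left ρ (σ / 2)
    have e2 := min_le_right ρ (σ / 2)
    rcases Finset.mem_insert.1 hp with h3 | h3 <;> rcases Finset.mem_insert.1 hq with h4 | h4
    · exact absurd (h3.trans h4.symm) hpq
    · have := h2 q h4 (by rw [← h3]; exact hpq.symm)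
      rw [h3, norm_sub_rev]; linarith
    · have := h2 p h3 (by rw [← h4]; exact hpq)
      rw [h4]; linarith
    · have := h1 p h3 q h4 hpq; linarith

theorem track2 {M M' : Multiset ℂ} {ρ : ℝ}
    (hsep : ∀ p ∈ M.toFinset, ∀ q ∈ M.toFinset, p ≠ q → 2 * ρ < ‖p - q‖)
    (hcnt : ∀ p ∈ M.toFinset, 0 < cnt M' p ρ)
    (hcard : M'.toFinset.card ≤ M.toFinset.card) :
    ∃ f : ℂ → ℂ, (∀ p ∈ M.toFinset, f p ∈ M' ∧ ‖f p - p‖ < ρ ∧
      ∀ x ∈ M', ‖x - p‖ < ρ → x = f p) ∧ ∀ x ∈ M', ∃ p ∈ M.toFinset, x = f p := by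
  classical
  have hex : ∀ p, ∃ y, p ∈ M.toFinset → y ∈ M' ∧ ‖y - p‖ < ρ := by
    intro p
    by_cases hp : p ∈ M.toFinset
    · have h1 := hcnt p hp
      unfold cnt at h1
      obtain ⟨y, hy⟩ := Multiset.card_pos_iff_exists_mem.1 h1
      rw [Multiset.mem_filter] at hy
      exact ⟨y, fun _ => hy⟩
    · exact ⟨0, fun h => absurd h hp⟩
  choose f hf using hex
  have hclose : ∀ p ∈ M.toFinset, ∀ q ∈ M.toFinset, ∀ y, ‖y - p‖ < ρ → ‖y - q‖ < ρ → p = q := by
    intro p hp q hq y h1 h2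
    by_contra hne
    have h3 := hsep p hp q hq hne
    have h4 : ‖p - q‖ ≤ ‖y - p‖ + ‖y - q‖ := by
      have : p - q = (y - q) - (y - p) := by ring
      rw [this]
      exact (norm_sub_le _ _).trans (le_of_eq (add_comm _ _))
    linarith
  have hinj : Set.InjOn f M.toFinset := by
    intro p hp q hq hpq
    exact hclose p hp q hq (f p) (hf p hp).2 (by rw [hpq]; exact (hf q hq).2)
  have himg : M.toFinset.image f = M'.toFinset := by
    refine Finset.eq_of_subset_of_card_le ?_ ?_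
    · intro y hy
      obtain ⟨p, hp, rfl⟩ := Finset.mem_image.1 hy
      exact Multiset.mem_toFinset.2 (hf p hp).1
    · rw [Finset.card_image_of_injOn hinj]
      exact hcard
  have hall : ∀ x ∈ M', ∃ p ∈ M.toFinset, x = f p := by
    intro x hx
    have h1 : x ∈ M.toFinset.image f := by rw [himg]; exact Multiset.mem_toFinset.2 hx
    obtain ⟨p, hp, rfl⟩ := Finset.mem_image.1 h1
    exact ⟨p, hp, rfl⟩
  refine ⟨f, fun p hp => ⟨(hf p hp).1, (hf p hp).2, fun x hx hxp => ?_⟩, hall⟩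
  obtain ⟨q, hq, rfl⟩ := hall x hx
  rw [hclose p hp q hq (f q) hxp (hf q hq).2]

theorem count_track {M : Multiset ℂ} {p y : ℂ} {ρ : ℝ} (h1 : y ∈ M) (h2 : ‖y - p‖ < ρ)
    (h3 : ∀ x ∈ M, ‖x - p‖ < ρ → x = y) : M.count y = cnt M p ρ := by
  unfold cnt
  rw [Multiset.count, Multiset.countP_eq_card_filter]
  congr 1
  refine Multiset.filter_congr fun x hx => ?_
  constructor
  · intro h4
    rw [← h4]; exact h2
  · intro h4
    exact (h3 x hx h4).symm

theorem cont_track {E : Type*} [TopologicalSpace E] {V : Set E} {M : E → Multiset ℂ}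
    {f : E → ℂ → ℂ} {p : ℂ} {ρ : ℝ}
    (hf : ∀ s ∈ V, f s p ∈ M s ∧ ‖f s p - p‖ < ρ ∧ ∀ x ∈ M s, ‖x - p‖ < ρ → x = f s p)
    (hloc : ∀ s1 ∈ V, ∀ y ∈ M s1, ∃ R : ℝ, 0 < R ∧ ∀ r, 0 < r → r ≤ R →
      ∀ᶠ s in 𝓝 s1, cnt (M s) y r = cnt (M s1) y r) :
    ContinuousOn (fun s => f s p) V := by
  intro s1 hs1
  obtain ⟨hy, hyρ, _⟩ := hf s1 hs1
  obtain ⟨R, hR, hloc⟩ := hloc s1 hs1 _ hy
  rw [ContinuousWithinAt, Metric.tendsto_nhds]
  intro ε hε
  set y := f s1 p with hydef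
  set r := min (min R ε) (ρ - ‖y - p‖) with hr
  have hrpos : 0 < r := lt_min (lt_min hR hε) (by linarith)
  have hrR : r ≤ R := (min_le_left _ _).trans (min_le_left _ _)
  have hrε : r ≤ ε := (min_le_left _ _).trans (min_le_right _ _)
  have hrρ : r ≤ ρ - ‖y - p‖ := min_le_right _ _
  have hpos : 0 < cnt (M s1) y r := by
    unfold cnt
    refine Multiset.card_pos_iff_exists_mem.2 ⟨y, Multiset.mem_filter.2 ⟨hy, ?_⟩⟩
    rw [sub_self, norm_zero]; exact hrpos
  filter_upwards [(hloc r hrpos hrR).filter_mono nhdsWithin_le_nhds, self_mem_nhdsWithin]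
    with s hs hsV
  rw [← hs] at hpos
  obtain ⟨x, hx⟩ := Multiset.card_pos_iff_exists_mem.1 hpos
  rw [Multiset.mem_filter] at hx
  have h1 : ‖x - p‖ < ρ := by
    have h2 : ‖x - p‖ ≤ ‖x - y‖ + ‖y - p‖ := by
      have : x - p = (x - y) + (y - p) := by ring
      rw [this]; exact norm_add_le _ _
    linarith [hx.2]
  have h2 := (hf s hsV).2.2 x hx.1 h1
  rw [← h2, dist_eq_norm]
  exact hx.2.trans_le hrε

section fam

variable {E : Type*} [TopologicalSpace E] {U : Set E} {F : E → Config}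
  {P Q : E → Multiset ℂ} {a b : E → ℂ → ℝ}

theorem loc_P (hU : IsOpen U)
    (hc : ContinuousOn (fun q : E × ℂ => (F q.1).phi q.2 2) (U ×ˢ univ))
    (hsol : ∀ s ∈ U, (F s).IsSolution) (hstr : ∀ s ∈ U, Str (F s) (P s) (Q s) (a s) (b s))
    {s1 : E} (hs1 : s1 ∈ U) {y : ℂ} (hy : y ∈ P s1) :
    ∃ R : ℝ, 0 < R ∧ ∀ r, 0 < r → r ≤ R → ∀ᶠ s in 𝓝 s1, cnt (P s) y r = cnt (P s1) y r := by
  classical
  obtain ⟨R, hR, hsep⟩ := exists_sep ((P s1).toFinset ∪ (Q s1).toFinset) y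
  refine ⟨R, hR, fun r hr hrR => ?_⟩
  have hyQ : y ∉ Q s1 := fun h0 =>
    ss_ne_nn ((((hstr s1 hs1).hP y).1 hy).symm.trans (((hstr s1 hs1).hQ y).1 h0))
  have h1 : ∀ z, ‖z - y‖ ≤ r → (F s1).phi z ≠ nn := fun z hz h0 => by
    have hzQ := ((hstr s1 hs1).hQ z).2 h0
    have hne : z ≠ y := fun h => hyQ (h ▸ hzQ)
    have := hsep z (Finset.mem_union_right _ (Multiset.mem_toFinset.2 hzQ)) hne
    linarith
  have h2 : ∀ z, ‖z - y‖ = r → (F s1).phi z ≠ ss := fun z hz h0 => by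
    have hzP := ((hstr s1 hs1).hP z).2 h0
    have hne : z ≠ y := fun h => by rw [h, sub_self, norm_zero] at hz; linarith
    have := hsep z (Finset.mem_union_left _ (Multiset.mem_toFinset.2 hzP)) hne
    linarith
  filter_upwards [count_P hU hc hsol hstr hs1 hr h1 h2] with s hs
  exact hs.2.1

theorem loc_Q (hU : IsOpen U)
    (hc : ContinuousOn (fun q : E × ℂ => (F q.1).phi q.2 2) (U ×ˢ univ))
    (hsol : ∀ s ∈ U, (F s).IsSolution) (hstr : ∀ s ∈ U, Str (F s) (P s) (Q s) (a s) (b s))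
    {s1 : E} (hs1 : s1 ∈ U) {y : ℂ} (hy : y ∈ Q s1) :
    ∃ R : ℝ, 0 < R ∧ ∀ r, 0 < r → r ≤ R → ∀ᶠ s in 𝓝 s1, cnt (Q s) y r = cnt (Q s1) y r := by
  classical
  obtain ⟨R, hR, hsep⟩ := exists_sep ((P s1).toFinset ∪ (Q s1).toFinset) y
  refine ⟨R, hR, fun r hr hrR => ?_⟩
  have hyP : y ∉ P s1 := fun h0 =>
    ss_ne_nn ((((hstr s1 hs1).hP y).1 h0).symm.trans (((hstr s1 hs1).hQ y).1 hy))
  have h1 : ∀ z, ‖z - y‖ ≤ r → (F s1).phi z ≠ ss := fun z hz h0 => by
    have hzP := ((hstr s1 hs1).hP z).2 h0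
    have hne : z ≠ y := fun h => hyP (h ▸ hzP)
    have := hsep z (Finset.mem_union_left _ (Multiset.mem_toFinset.2 hzP)) hne
    linarith
  have h2 : ∀ z, ‖z - y‖ = r → (F s1).phi z ≠ nn := fun z hz h0 => by
    have hzQ := ((hstr s1 hs1).hQ z).2 h0
    have hne : z ≠ y := fun h => by rw [h, sub_self, norm_zero] at hz; linarith
    have := hsep z (Finset.mem_union_right _ (Multiset.mem_toFinset.2 hzQ)) hne
    linarith
  filter_upwards [count_Q hU hc hsol hstr hs1 hr h1 h2] with s hs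
  exact hs.2.1

end fam

theorem finrank_target (p q : ℕ) :
    Module.finrank ℝ ((Fin p → ℂ) × (Fin q → ℂ) × ℝ) = 2 * p + 2 * q + 1 := by
  rw [Module.finrank_prod, Module.finrank_prod, Module.finrank_pi_fintype,
    Module.finrank_pi_fintype]
  simp [Complex.finrank_real_complex]
  ring

/-- a continuous family of pairwise gauge inequivalent solutions of degree `N` has at most
`4 N - 3` parameters -/
theorem params_le {N : ℤ} (hN : 1 ≤ N) {k : ℕ} {U : Set (EuclideanSpace ℝ (Fin k))}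
    (hU : IsOpen U) (hne : U.Nonempty) {F : EuclideanSpace ℝ (Fin k) → Config}
    (hsol : ∀ s ∈ U, (F s).IsSolution) (hdeg : ∀ s ∈ U, (F s).HasDegree N)
    (hc : ContinuousOn (fun q : EuclideanSpace ℝ (Fin k) × ℂ => (F q.1).phi q.2 2)
      (U ×ˢ univ))
    (hinj : ∀ s ∈ U, ∀ t ∈ U, GaugeEquiv (F s) (F t) → s = t) : (k : ℤ) ≤ 4 * N - 3 := by
  classical
  have hpole : ∀ s ∈ U, ∃ z, (F s).phi z = ss := by
    intro s hs
    by_contra hcon
    push Not at hcon
    obtain ⟨_, m, _, hsum⟩ := hdeg s hs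
    have h0 : (F s).phi ⁻¹' {ss} = ∅ := by
      ext z
      simp [hcon z]
    rw [h0, finsum_mem_empty] at hsum
    omega
  have hex : ∀ s, ∃ (P Q : Multiset ℂ) (a b : ℂ → ℝ), s ∈ U → Str (F s) P Q a b := by
    intro s
    by_cases hs : s ∈ U
    · obtain ⟨P, Q, a, b, h⟩ := exists_str (hsol s hs) (hpole s hs)
      exact ⟨P, Q, a, b, fun _ => h⟩
    · exact ⟨0, 0, 0, 0, fun h => absurd h hs⟩
  choose P Q a b hstr using hex
  have hcP : ∀ s ∈ U, (Multiset.card (P s) : ℤ) = N := fun s hs =>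
    (hstr s hs).degree (hsol s hs) (hdeg s hs)
  have hcQ : ∀ s ∈ U, Multiset.card (Q s) + 2 ≤ Multiset.card (P s) := fun s hs =>
    (hstr s hs).card_lt (hsol s hs)
  have htP := fun s => Multiset.toFinset_card_le (P s)
  have htQ := fun s => Multiset.toFinset_card_le (Q s)
  -- a parameter with the maximal number of distinct points
  obtain ⟨s0, hs0, hmax⟩ : ∃ s0 ∈ U, ∀ s ∈ U,
      (P s).toFinset.card + (Q s).toFinset.card ≤
        (P s0).toFinset.card + (Q s0).toFinset.card := by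
    set D : EuclideanSpace ℝ (Fin k) → ℕ := fun s =>
      (P s).toFinset.card + (Q s).toFinset.card with hD
    have hb : BddAbove (D '' U) := by
      refine ⟨2 * N.toNat, ?_⟩
      rintro _ ⟨s, hs, rfl⟩
      have h1 := htP s
      have h2 := htQ s
      have h3 := hcP s hs
      have h4 := hcQ s hs
      show (P s).toFinset.card + (Q s).toFinset.card ≤ _
      omega
    obtain ⟨s0, hs0, he⟩ := Nat.sSup_mem (hne.image D) hb
    refine ⟨s0, hs0, fun s hs => ?_⟩
    show D s ≤ D s0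
    rw [he]
    exact le_csSup hb ⟨s, hs, rfl⟩
  obtain ⟨x0, hx0⟩ := Infinite.exists_notMem_finset ((P s0).toFinset ∪ (Q s0).toFinset)
  obtain ⟨ρ, hρ, hsep⟩ := exists_sep2 ((P s0).toFinset ∪ (Q s0).toFinset)
  have hsepP : ∀ p ∈ (P s0).toFinset, ∀ q ∈ (P s0).toFinset, p ≠ q → 2 * ρ < ‖p - q‖ :=
    fun p hp q hq => hsep p (Finset.mem_union_left _ hp) q (Finset.mem_union_left _ hq)
  have hsepQ : ∀ p ∈ (Q s0).toFinset, ∀ q ∈ (Q s0).toFinset, p ≠ q → 2 * ρ < ‖p - q‖ :=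
    fun p hp q hq => hsep p (Finset.mem_union_right _ hp) q (Finset.mem_union_right _ hq)
  have hdisj : ∀ p ∈ (P s0).toFinset, p ∉ (Q s0).toFinset := fun p hp hq =>
    ss_ne_nn ((((hstr s0 hs0).hP p).1 (Multiset.mem_toFinset.1 hp)).symm.trans
      (((hstr s0 hs0).hQ p).1 (Multiset.mem_toFinset.1 hq)))
  have evP : ∀ p ∈ (P s0).toFinset, ∀ᶠ s in 𝓝 s0, cnt (P s) p ρ = cnt (P s0) p ρ := by
    intro p hp
    have h1 : ∀ z, ‖z - p‖ ≤ ρ → (F s0).phi z ≠ nn := fun z hz h0 => by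
      have hzQ := Multiset.mem_toFinset.2 (((hstr s0 hs0).hQ z).2 h0)
      have := hsep z (Finset.mem_union_right _ hzQ) p (Finset.mem_union_left _ hp)
        (fun h => hdisj p hp (h ▸ hzQ))
      linarith
    have h2 : ∀ z, ‖z - p‖ = ρ → (F s0).phi z ≠ ss := fun z hz h0 => by
      have hzP := Multiset.mem_toFinset.2 (((hstr s0 hs0).hP z).2 h0)
      have := hsepP z hzP p hp (fun h => by rw [h, sub_self, norm_zero] at hz; linarith)
      linarith
    filter_upwards [count_P hU hc hsol hstr hs0 hρ h1 h2] with s hs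
    exact hs.2.1
  have evQ : ∀ p ∈ (Q s0).toFinset, ∀ᶠ s in 𝓝 s0, cnt (Q s) p ρ = cnt (Q s0) p ρ := by
    intro p hp
    have h1 : ∀ z, ‖z - p‖ ≤ ρ → (F s0).phi z ≠ ss := fun z hz h0 => by
      have hzP := Multiset.mem_toFinset.2 (((hstr s0 hs0).hP z).2 h0)
      have := hsep z (Finset.mem_union_left _ hzP) p (Finset.mem_union_right _ hp)
        (fun h => hdisj z hzP (h ▸ hp))
      linarith
    have h2 : ∀ z, ‖z - p‖ = ρ → (F s0).phi z ≠ nn := fun z hz h0 => by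
      have hzQ := Multiset.mem_toFinset.2 (((hstr s0 hs0).hQ z).2 h0)
      have := hsepQ z hzQ p hp (fun h => by rw [h, sub_self, norm_zero] at hz; linarith)
      linarith
    filter_upwards [count_Q hU hc hsol hstr hs0 hρ h1 h2] with s hs
    exact hs.2.1
  have evx : ∀ᶠ s in 𝓝 s0, (F s).phi x0 2 < 1 ∧ -1 < (F s).phi x0 2 := by
    have hca : ContinuousAt (fun s => (F s).phi x0 2) s0 :=
      (cont_at hU hc hs0 x0).comp (f := fun s => (s, x0)) (by fun_prop)
    have h1 : (F s0).phi x0 2 < 1 := lt_one (hsol s0 hs0) fun h0 => hx0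
      (Finset.mem_union_right _ (Multiset.mem_toFinset.2 (((hstr s0 hs0).hQ x0).2 h0)))
    have h2 : -1 < (F s0).phi x0 2 := gt_neg_one (hsol s0 hs0) fun h0 => hx0
      (Finset.mem_union_left _ (Multiset.mem_toFinset.2 (((hstr s0 hs0).hP x0).2 h0)))
    exact (hca.eventually (gt_mem_nhds h1)).and (hca.eventually (lt_mem_nhds h2))
  have ev : ∀ᶠ s in 𝓝 s0, s ∈ U ∧ (∀ p ∈ (P s0).toFinset, cnt (P s) p ρ = cnt (P s0) p ρ) ∧
      (∀ p ∈ (Q s0).toFinset, cnt (Q s) p ρ = cnt (Q s0) p ρ) ∧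
      ((F s).phi x0 2 < 1 ∧ -1 < (F s).phi x0 2) :=
    (hU.eventually_mem hs0).and (((Finset.eventually_all _).2 evP).and
      (((Finset.eventually_all _).2 evQ).and evx))
  obtain ⟨δ, hδ, hV⟩ := Metric.nhds_basis_closedBall.eventually_iff.1 ev
  have hposP : ∀ p ∈ (P s0).toFinset, cnt (P s0) p ρ = (P s0).count p := fun p hp =>
    cnt_small hρ le_rfl fun q hq hqp => by
      have := hsepP q (Multiset.mem_toFinset.2 hq) p hp hqp
      linarith
  have hposQ : ∀ p ∈ (Q s0).toFinset, cnt (Q s0) p ρ = (Q s0).count p := fun p hp =>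
    cnt_small hρ le_rfl fun q hq hqp => by
      have := hsepQ q (Multiset.mem_toFinset.2 hq) p hp hqp
      linarith
  -- tracking
  have hcards : ∀ s ∈ closedBall s0 δ, (P s).toFinset.card ≤ (P s0).toFinset.card ∧
      (Q s).toFinset.card ≤ (Q s0).toFinset.card := by
    intro s hs
    obtain ⟨hsU, e1, e2, _⟩ := hV hs
    have h1 := card_le_of_cnt (M := P s0) (M' := P s) hsepP fun p hp => by
      rw [e1 p hp, hposP p hp]
      exact Multiset.count_pos.2 (Multiset.mem_toFinset.1 hp)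
    have h2 := card_le_of_cnt (M := Q s0) (M' := Q s) hsepQ fun p hp => by
      rw [e2 p hp, hposQ p hp]
      exact Multiset.count_pos.2 (Multiset.mem_toFinset.1 hp)
    have h3 := hmax s hsU
    omega
  have hexP : ∀ s, ∃ f : ℂ → ℂ, s ∈ closedBall s0 δ → (∀ p ∈ (P s0).toFinset, f p ∈ P s ∧
      ‖f p - p‖ < ρ ∧ ∀ x ∈ P s, ‖x - p‖ < ρ → x = f p) ∧
      ∀ x ∈ P s, ∃ p ∈ (P s0).toFinset, x = f p := by
    intro s
    by_cases hs : s ∈ closedBall s0 δ
    · obtain ⟨hsU, e1, e2, _⟩ := hV hs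
      obtain ⟨f, hf⟩ := track2 (M := P s0) (M' := P s) hsepP (fun p hp => by
        rw [e1 p hp, hposP p hp]
        exact Multiset.count_pos.2 (Multiset.mem_toFinset.1 hp)) (hcards s hs).1
      exact ⟨f, fun _ => hf⟩
    · exact ⟨id, fun h => absurd h hs⟩
  have hexQ : ∀ s, ∃ f : ℂ → ℂ, s ∈ closedBall s0 δ → (∀ p ∈ (Q s0).toFinset, f p ∈ Q s ∧
      ‖f p - p‖ < ρ ∧ ∀ x ∈ Q s, ‖x - p‖ < ρ → x = f p) ∧
      ∀ x ∈ Q s, ∃ p ∈ (Q s0).toFinset, x = f p := by
    intro s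
    by_cases hs : s ∈ closedBall s0 δ
    · obtain ⟨hsU, e1, e2, _⟩ := hV hs
      obtain ⟨f, hf⟩ := track2 (M := Q s0) (M' := Q s) hsepQ (fun p hp => by
        rw [e2 p hp, hposQ p hp]
        exact Multiset.count_pos.2 (Multiset.mem_toFinset.1 hp)) (hcards s hs).2
      exact ⟨f, fun _ => hf⟩
    · exact ⟨id, fun h => absurd h hs⟩
  choose fP hfP using hexP
  choose fQ hfQ using hexQ
  have hcountP : ∀ s ∈ closedBall s0 δ, ∀ p ∈ (P s0).toFinset,
      (P s).count (fP s p) = (P s0).count p := by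
    intro s hs p hp
    obtain ⟨h1, h2, h3⟩ := (hfP s hs).1 p hp
    rw [count_track h1 h2 h3, (hV hs).2.1 p hp, hposP p hp]
  have hcountQ : ∀ s ∈ closedBall s0 δ, ∀ p ∈ (Q s0).toFinset,
      (Q s).count (fQ s p) = (Q s0).count p := by
    intro s hs p hp
    obtain ⟨h1, h2, h3⟩ := (hfQ s hs).1 p hp
    rw [count_track h1 h2 h3, (hV hs).2.2.1 p hp, hposQ p hp]
  -- the map
  set eP := (P s0).toFinset.equivFin.symm with heP
  set eQ := (Q s0).toFinset.equivFin.symm with heQ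
  set G : EuclideanSpace ℝ (Fin k) → (Fin (P s0).toFinset.card → ℂ) ×
      (Fin (Q s0).toFinset.card → ℂ) × ℝ := fun s =>
    (fun i => fP s (eP i), fun i => fQ s (eQ i), (F s).phi x0 2) with hG
  have hGc : ContinuousOn G (closedBall s0 δ) := by
    refine ContinuousOn.prodMk ?_ (ContinuousOn.prodMk ?_ ?_)
    · refine continuousOn_pi.2 fun i => ?_
      exact cont_track (M := P) (ρ := ρ) (fun s hs => (hfP s hs).1 _ (eP i).2)
        (fun s1 hs1 y hy => loc_P hU hc hsol hstr (hV hs1).1 hy)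
    · refine continuousOn_pi.2 fun i => ?_
      exact cont_track (M := Q) (ρ := ρ) (fun s hs => (hfQ s hs).1 _ (eQ i).2)
        (fun s1 hs1 y hy => loc_Q hU hc hsol hstr (hV hs1).1 hy)
    · intro s hs
      exact ((cont_at hU hc (hV hs).1 x0).comp (f := fun s => (s, x0))
        (by fun_prop)).continuousWithinAt
  have hGi : InjOn G (closedBall s0 δ) := by
    intro s hs t ht hst
    have g1 : ∀ p ∈ (P s0).toFinset, fP s p = fP t p := by
      intro p hp
      have h1 := congrFun (congrArg Prod.fst hst) (eP.symm ⟨p, hp⟩)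
      simpa [hG] using h1
    have g2 : ∀ p ∈ (Q s0).toFinset, fQ s p = fQ t p := by
      intro p hp
      have h1 := congrFun (congrArg (fun v => v.2.1) hst) (eQ.symm ⟨p, hp⟩)
      simpa [hG] using h1
    have g3 : (F s).phi x0 2 = (F t).phi x0 2 := congrArg (fun v => v.2.2) hst
    have hPP : P s = P t := by
      ext x
      by_cases hx : x ∈ P s
      · obtain ⟨p, hp, rfl⟩ := (hfP s hs).2 x hx
        rw [hcountP s hs p hp, g1 p hp, hcountP t ht p hp]
      · by_cases hx2 : x ∈ P t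
        · obtain ⟨p, hp, rfl⟩ := (hfP t ht).2 x hx2
          rw [hcountP t ht p hp, ← g1 p hp, hcountP s hs p hp]
        · rw [Multiset.count_eq_zero_of_notMem hx, Multiset.count_eq_zero_of_notMem hx2]
    have hQQ : Q s = Q t := by
      ext x
      by_cases hx : x ∈ Q s
      · obtain ⟨p, hp, rfl⟩ := (hfQ s hs).2 x hx
        rw [hcountQ s hs p hp, g2 p hp, hcountQ t ht p hp]
      · by_cases hx2 : x ∈ Q t
        · obtain ⟨p, hp, rfl⟩ := (hfQ t ht).2 x hx2
          rw [hcountQ t ht p hp, ← g2 p hp, hcountQ s hs p hp]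
        · rw [Multiset.count_eq_zero_of_notMem hx, Multiset.count_eq_zero_of_notMem hx2]
    obtain ⟨hsU, _, _, b1, b2⟩ := hV hs
    have hxP : x0 ∉ P s := fun h0 => by
      have := (eq_ss_iff (hsol s hsU) x0).1 (((hstr s hsU).hP x0).1 h0)
      linarith
    have hxQ : x0 ∉ Q s := fun h0 => by
      have := (eq_nn_iff (hsol s hsU) x0).1 (((hstr s hsU).hQ x0).1 h0)
      linarith
    have htU := (hV ht).1
    have hst' := hstr t htU
    rw [← hPP, ← hQQ] at hst'
    exact hinj s hsU t htU (gaugeEquiv_of_eq (hsol s hsU) (hsol t htU) (hstr s hsU) hst'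
      hxP hxQ g3)
  have hdim := dim_le hδ hGc hGi
  rw [finrank_target] at hdim
  have h1 := htP s0
  have h2 := htQ s0
  have h3 := hcP s0 hs0
  have h4 := hcQ s0 hs0
  omega

end Config

end Pool.Agent.H172R3.SM
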