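import Pool.Agent.H172R3.SM.U

/-! # Growth of subharmonic functions and the mass bound -/

set_option autoImplicit false

noncomputable section

namespace Pool.Agent.H172R3.SM

open Complex Set Filter Topology Metric MeasureTheory
open scoped ContDiff

/-- `L¹` growth on circles -/
theorem growth_abs {v : ℂ → ℝ} (hv : ContDiff ℝ ∞ v) (hl : ∀ z, 0 ≤ lap v z) {a b R : ℝ}
    (ha : 0 ≤ a) (hup : ∀ z : ℂ, R ≤ ‖z‖ → v z ≤ a * Real.log ‖z‖ + b) :
    ∃ C T : ℝ, ∀ t, T ≤ t → CM 0 (fun z => |v z|) t ≤ C * (1 + t) := by
  have hpi := Real.pi_pos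
  refine ⟨2 * (2 * Real.pi * (a + |b|)) + 2 * Real.pi * |v 0|, max 0 (Real.log (max R 1)),
    fun t ht => ?_⟩
  have ht0 : 0 ≤ t := (le_max_left _ _).trans ht
  have hRt : R ≤ Real.exp t := by
    have h1 : 0 < max R 1 := lt_max_of_lt_right one_pos
    exact (le_max_left _ _).trans ((Real.log_le_iff_le_exp h1).1 ((le_max_right _ _).trans ht))
  have hbound : ∀ z : ℂ, ‖z - 0‖ = Real.exp t → |v z| ≤ 2 * (a * t + |b|) - v z := by
    intro z hz
    rw [sub_zero] at hz
    have h1 := hup z (by rw [hz]; exact hRt)
    rw [hz, Real.log_exp] at h1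
    have h2 : 0 ≤ a * t := mul_nonneg ha ht0
    have h3 := le_abs_self b
    have h4 := abs_nonneg b
    rw [abs_le]
    constructor <;> linarith
  have h1 := CM_mono 0 (g := fun z => |v z|) (h := fun z => 2 * (a * t + |b|) - v z)
    hv.continuous.abs (continuous_const.sub hv.continuous) t hbound
  have h2 : CM 0 (fun z => 2 * (a * t + |b|) - v z) t =
      2 * Real.pi * (2 * (a * t + |b|)) - CM 0 v t := by
    unfold CM
    rw [intervalIntegral.integral_sub (by simp) (ii 0 hv.continuous t),
      intervalIntegral.integral_const, smul_eq_mul]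
    ring
  have h3 := CM_ge hv 0 hl t
  have h4 : -(|v 0|) ≤ v 0 := neg_abs_le _
  rw [h2] at h1
  have h5 : -(2 * Real.pi * |v 0|) ≤ 2 * Real.pi * v 0 := by nlinarith
  have h6 : 0 ≤ 2 * Real.pi * |v 0| * t := by positivity
  have h7 : 0 ≤ Real.pi * a * 1 := by positivity
  have h8 : 0 ≤ Real.pi * |b| * t := by positivity
  nlinarith

theorem CM_sub {g h : ℂ → ℝ} (hg : Continuous g) (hh : Continuous h) (t : ℝ) :
    CM 0 (fun z => |g z - h z|) t ≤ CM 0 (fun z => |g z|) t + CM 0 (fun z => |h z|) t := by
  rw [← CM_add 0 hg.abs hh.abs]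
  exact CM_mono 0 (hg.sub hh).abs (hg.abs.add hh.abs) t fun z _ => abs_sub _ _

/-- the mass bound -/
theorem mass {v : ℂ → ℝ} (hv : ContDiff ℝ ∞ v) (hl : ∀ z, 0 ≤ lap v z) {a b b' R : ℝ}
    (hup : ∀ z : ℂ, R ≤ ‖z‖ → v z ≤ a * Real.log ‖z‖ + b)
    (hlow : ∀ z : ℂ, R ≤ ‖z‖ → 2 * Real.exp (v z - a * Real.log ‖z‖ - b') ≤ lap v z) :
    2 < a := by
  by_contra ha
  push Not at ha
  have hpi := Real.pi_pos
  set m := CM 0 v with hm
  set n := CM 0 (Dr 0 v) with hn
  have hm' : ∀ t, HasDerivAt m (n t) t := hasDerivAt_CM hv 0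
  have hn' : ∀ t, HasDerivAt n (Real.exp (2 * t) * CM 0 (lap v) t) t := hasDerivAt_CM2 hv 0
  have hn0 : ∀ t, 0 ≤ n t := CM_Dr_nonneg hv 0 hl
  have hnm : Monotone n := by
    refine monotone_of_hasDerivAt_nonneg hn' fun t => ?_
    refine mul_nonneg (Real.exp_pos _).le ?_
    have := CM_mono 0 (g := fun _ => 0) (h := lap v) continuous_const
      (contDiff_lap hv).continuous t (fun z _ => hl z)
    rwa [CM_const, mul_zero] at this
  set T := max 0 (Real.log (max R 1)) with hT
  have hT0 : 0 ≤ T := le_max_left _ _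
  have hRt : ∀ t, T ≤ t → R ≤ Real.exp t := fun t ht => by
    have h1 : 0 < max R 1 := lt_max_of_lt_right one_pos
    exact (le_max_left _ _).trans
      ((Real.log_le_iff_le_exp h1).1 ((le_max_right _ _).trans ht))
  -- lower bound for the second derivative
  have hsec : ∀ t, T ≤ t → ∀ k : ℝ, 2 * Real.pi * (k + a * t + b') ≤ m t →
      4 * Real.pi * Real.exp (2 * t + k) ≤ Real.exp (2 * t) * CM 0 (lap v) t := by
    intro t ht k hk
    have h1 := CM_mono 0 (g := fun z => 2 * Real.exp k * (1 + (v z - (a * t + b' + k))))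
      (h := lap v) (by have := hv.continuous; fun_prop) (contDiff_lap hv).continuous t
      (fun z hz => by
        rw [sub_zero] at hz
        have h2 := hlow z (by rw [hz]; exact hRt t ht)
        rw [hz, Real.log_exp] at h2
        refine le_trans ?_ h2
        have h3 : v z - a * t - b' = k + (v z - (a * t + b' + k)) := by ring
        rw [h3, Real.exp_add]
        have h4 := Real.add_one_le_exp (v z - (a * t + b' + k))
        have h5 := Real.exp_pos k
        nlinarith)
    have h2 : CM 0 (fun z => 2 * Real.exp k * (1 + (v z - (a * t + b' + k)))) t =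
        2 * Real.exp k * (2 * Real.pi * (1 - (a * t + b' + k)) + m t) := by
      have e1 : (fun z : ℂ => 2 * Real.exp k * (1 + (v z - (a * t + b' + k)))) =
          fun z => 2 * Real.exp k * ((1 - (a * t + b' + k)) + v z) := by
        funext z; ring
      rw [e1, hm]
      unfold CM
      rw [intervalIntegral.integral_const_mul, intervalIntegral.integral_add (by simp)
        (ii 0 hv.continuous t), intervalIntegral.integral_const, smul_eq_mul]
      ring
    rw [h2] at h1
    have h3 : 2 * Real.exp k * (2 * Real.pi) ≤ CM 0 (lap v) t := by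
      refine le_trans ?_ h1
      have := Real.exp_pos k
      apply mul_le_mul_of_nonneg_left _ (by positivity)
      linarith
    have h4 := mul_le_mul_of_nonneg_left h3 (Real.exp_pos (2 * t)).le
    rw [Real.exp_add]
    linarith
  -- `n` is positive somewhere
  have hnpos : 0 < n (T + 1) := by
    by_contra hcon
    push Not at hcon
    have hz : ∀ t ∈ Icc T (T + 1), n t = 0 := fun t ht =>
      le_antisymm ((hnm ht.2).trans hcon) (hn0 t)
    have h1 : HasDerivAt n 0 (T + 1 / 2) := by
      have h2 : n =ᶠ[𝓝 (T + 1 / 2)] fun _ => 0 := by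
        filter_upwards [Icc_mem_nhds (show T < T + 1 / 2 by linarith)
          (show T + 1 / 2 < T + 1 by linarith)] with t ht
        exact hz t ht
      exact (hasDerivAt_const _ _).congr_of_eventuallyEq h2
    have h2 := (hn' (T + 1 / 2)).unique h1
    have h3 := hsec (T + 1 / 2) (by linarith)
      (m (T + 1 / 2) / (2 * Real.pi) - a * (T + 1 / 2) - b') (by
        apply le_of_eq; field_simp; ring)
    rw [h2] at h3
    have := Real.exp_pos (2 * (T + 1 / 2) +
      (m (T + 1 / 2) / (2 * Real.pi) - a * (T + 1 / 2) - b'))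
    nlinarith
  set κ := n (T + 1) with hκ
  have hlin : ∀ t, T + 1 ≤ t → m (T + 1) + κ * (t - (T + 1)) ≤ m t := by
    intro t ht
    have hmo : MonotoneOn (fun t => m t - κ * (t - (T + 1))) (Ici (T + 1)) := by
      have hder : ∀ x, HasDerivAt (fun t => m t - κ * (t - (T + 1))) (n x - κ * 1) x :=
        fun x => (hm' x).sub (((hasDerivAt_id x).sub_const _).const_mul κ)
      refine monotoneOn_of_deriv_nonneg (convex_Ici _)
        (fun x _ => (hder x).continuousAt.continuousWithinAt)
        (fun x _ => (hder x).differentiableAt.differentiableWithinAt) ?_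
      intro x hx
      rw [interior_Ici] at hx
      rw [(hder x).deriv]
      have := hnm (le_of_lt hx)
      linarith
    have := hmo self_mem_Ici (show t ∈ Ici (T + 1) from ht) ht
    simp only [sub_self, mul_zero, sub_zero] at this
    linarith
  -- the second derivative is bounded below
  set δ := 4 * Real.pi * Real.exp (m (T + 1) / (2 * Real.pi) - κ / (2 * Real.pi) * (T + 1) - b')
    with hδ
  have hδ0 : 0 < δ := by positivity
  have hn2 : ∀ t, T + 1 ≤ t → δ ≤ Real.exp (2 * t) * CM 0 (lap v) t := by
    intro t ht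
    have h1 := hlin t ht
    have h2 := hsec t (by linarith)
      ((m (T + 1) + κ * (t - (T + 1))) / (2 * Real.pi) - a * t - b') (by
        refine le_trans (le_of_eq ?_) h1
        field_simp; ring)
    refine le_trans ?_ h2
    rw [hδ]
    apply mul_le_mul_of_nonneg_left _ (by positivity)
    apply Real.exp_le_exp.2
    have h3 : (m (T + 1) + κ * (t - (T + 1))) / (2 * Real.pi) =
        m (T + 1) / (2 * Real.pi) - κ / (2 * Real.pi) * (T + 1) + κ / (2 * Real.pi) * t := by
      field_simp; ring
    rw [h3]
    have h4 : 0 ≤ κ / (2 * Real.pi) * t := by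
      have : 0 ≤ t := by linarith
      positivity
    have h5 : 0 ≤ (2 - a) * t := mul_nonneg (by linarith) (by linarith)
    linarith
  -- `n` grows linearly, `m` quadratically, contradiction
  have hquad : ∀ t, T + 1 ≤ t → m (T + 1) + δ / 2 * (t - (T + 1)) ^ 2 ≤ m t := by
    have hlin2 : ∀ t, T + 1 ≤ t → δ * (t - (T + 1)) ≤ n t := by
      intro t ht
      have hder : ∀ x, HasDerivAt (fun t => n t - δ * (t - (T + 1)))
          (Real.exp (2 * x) * CM 0 (lap v) x - δ * 1) x :=
        fun x => (hn' x).sub (((hasDerivAt_id x).sub_const _).const_mul δ)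
      have hmo : MonotoneOn (fun t => n t - δ * (t - (T + 1))) (Ici (T + 1)) := by
        refine monotoneOn_of_deriv_nonneg (convex_Ici _)
          (fun x _ => (hder x).continuousAt.continuousWithinAt)
          (fun x _ => (hder x).differentiableAt.differentiableWithinAt) ?_
        intro x hx
        rw [interior_Ici] at hx
        rw [(hder x).deriv]
        have := hn2 x (le_of_lt hx)
        linarith
      have := hmo self_mem_Ici (show t ∈ Ici (T + 1) from ht) ht
      simp only [sub_self, mul_zero, sub_zero] at this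
      have := hn0 (T + 1)
      linarith
    intro t ht
    have hder : ∀ x, HasDerivAt (fun t => m t - δ / 2 * (t - (T + 1)) ^ 2)
        (n x - δ * (x - (T + 1))) x := by
      intro x
      have h1 : HasDerivAt (fun t : ℝ => t - (T + 1)) 1 x := (hasDerivAt_id x).sub_const _
      refine ((hm' x).sub ((h1.pow 2).const_mul (δ / 2))).congr_deriv ?_
      simp
      ring
    have hmo : MonotoneOn (fun t => m t - δ / 2 * (t - (T + 1)) ^ 2) (Ici (T + 1)) := by
      refine monotoneOn_of_deriv_nonneg (convex_Ici _)
        (fun x _ => (hder x).continuousAt.continuousWithinAt)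
        (fun x _ => (hder x).differentiableAt.differentiableWithinAt) ?_
      intro x hx
      rw [interior_Ici] at hx
      rw [(hder x).deriv]
      have := hlin2 x (le_of_lt hx)
      linarith
    have := hmo self_mem_Ici (show t ∈ Ici (T + 1) from ht) ht
    simp only [sub_self, mul_zero, ne_eq, OfNat.ofNat_ne_zero, not_false_eq_true, zero_pow,
      sub_zero] at this
    linarith
  have hmup : ∀ t, T ≤ t → m t ≤ 2 * Real.pi * (a * t + b) := by
    intro t ht
    have := CM_mono 0 (g := v) (h := fun _ => a * t + b) hv.continuous continuous_const t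
      (fun z hz => by
        rw [sub_zero] at hz
        have h2 := hup z (by rw [hz]; exact hRt t ht)
        rwa [hz, Real.log_exp] at h2)
    rwa [CM_const] at this
  -- choose `t = T + 1 + s` with `s` large
  set c0 := |2 * Real.pi * (a * (T + 1) + b) - m (T + 1)| + 2 * Real.pi * |a| with hc0
  set s := max 1 (2 * c0 / δ + 1) with hs
  have hs1 : 1 ≤ s := le_max_left _ _
  have hs2 : 2 * c0 / δ + 1 ≤ s := le_max_right _ _
  have h1 := hquad (T + 1 + s) (by linarith)
  have h2 := hmup (T + 1 + s) (by linarith)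
  have h3 : T + 1 + s - (T + 1) = s := by ring
  rw [h3] at h1
  have h4 : 2 * Real.pi * (a * (T + 1 + s) + b) - m (T + 1) ≤ c0 * s := by
    have e1 := le_abs_self (2 * Real.pi * (a * (T + 1) + b) - m (T + 1))
    have e2 := abs_nonneg (2 * Real.pi * (a * (T + 1) + b) - m (T + 1))
    have e3 : a * s ≤ |a| * s := mul_le_mul_of_nonneg_right (le_abs_self a) (by linarith)
    have e4 : 2 * Real.pi * (a * s) ≤ 2 * Real.pi * (|a| * s) :=
      mul_le_mul_of_nonneg_left e3 (by positivity)
    rw [hc0]
    nlinarith
  have h5 : δ / 2 * s ^ 2 ≤ c0 * s := by linarith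
  have h6 : δ / 2 * s ≤ c0 := by
    have hs0 : 0 < s := by linarith
    by_contra hcon
    push Not at hcon
    have := mul_lt_mul_of_pos_right hcon hs0
    nlinarith
  have h7 : 2 * c0 / δ + 1 ≤ 2 * c0 / δ := by
    refine hs2.trans ?_
    rw [le_div_iff₀ hδ0]
    linarith
  linarith

end Pool.Agent.H172R3.SM
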