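import Pool.Agent.H172R3.SM.Defs
import Pool.Agent.H172R3.SM.C
import Pool.Agent.Helper897.ZS.Dbar3

/-! # Algebra of the self-dual equations -/

set_option autoImplicit false

noncomputable section

namespace Pool.Agent.H172R3.SM

open Complex Set Filter Topology MeasureTheory Metric
open scoped ContDiff Matrix

/-- `∂₁ + i ∂₂` -/
def dbar (f : ℂ → ℂ) (z : ℂ) : ℂ := fderiv ℝ f z 1 + I * fderiv ℝ f z I

namespace Config

variable {c : Config}

/-- `φ₁ + i φ₂` -/
def w (c : Config) (z : ℂ) : ℂ := ⟨c.phi z 0, c.phi z 1⟩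

/-- the stereographic coordinates -/
def psi (c : Config) (z : ℂ) : ℂ := c.w z / (1 + c.phi z 2 : ℝ)
def chi (c : Config) (z : ℂ) : ℂ := c.south z / (1 - c.phi z 2 : ℝ)

/-- `-i (A₁ + i A₂)` -/
def al (c : Config) (z : ℂ) : ℂ := ⟨c.A2 z, -c.A1 z⟩

theorem sphere' (h : c.IsSolution) (z : ℂ) :
    c.phi z 0 ^ 2 + c.phi z 1 ^ 2 + c.phi z 2 ^ 2 = 1 := by
  have := h.sphere z
  simp only [dotProduct, Fin.sum_univ_three] at this
  linarith

theorem nn_dot (c : Config) (z : ℂ) : nn ⬝ᵥ c.phi z = c.phi z 2 := by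
  simp [nn, dotProduct, Fin.sum_univ_three]

theorem smoothc (h : c.IsSolution) (i : Fin 3) : ContDiff ℝ ∞ (fun z => c.phi z i) :=
  contDiff_pi.1 h.smooth i

theorem fderiv_comp (h : c.IsSolution) (z v : ℂ) (i : Fin 3) :
    fderiv ℝ c.phi z v i = fderiv ℝ (fun z => c.phi z i) z v := by
  have h1 := (h.smooth.differentiable (by simp) z).hasFDerivAt
  have h2 := (hasFDerivAt_pi'.1 h1) i
  rw [h2.fderiv]
  rfl

theorem D1_0 (h : c.IsSolution) (z : ℂ) :
    c.D1 z 0 = dx (fun z => c.phi z 0) z - c.A1 z * c.phi z 1 := by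
  unfold D1 dx
  rw [Pi.add_apply, fderiv_comp h]
  simp [nn, crossProduct]
  ring

theorem D1_1 (h : c.IsSolution) (z : ℂ) :
    c.D1 z 1 = dx (fun z => c.phi z 1) z + c.A1 z * c.phi z 0 := by
  unfold D1 dx
  rw [Pi.add_apply, fderiv_comp h]
  simp [nn, crossProduct]

theorem D1_2 (h : c.IsSolution) (z : ℂ) :
    c.D1 z 2 = dx (fun z => c.phi z 2) z := by
  unfold D1 dx
  rw [Pi.add_apply, fderiv_comp h]
  simp [nn, crossProduct]

theorem D2_0 (h : c.IsSolution) (z : ℂ) :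
    c.D2 z 0 = dy (fun z => c.phi z 0) z - c.A2 z * c.phi z 1 := by
  unfold D2 dy
  rw [Pi.add_apply, fderiv_comp h]
  simp [nn, crossProduct]
  ring

theorem D2_1 (h : c.IsSolution) (z : ℂ) :
    c.D2 z 1 = dy (fun z => c.phi z 1) z + c.A2 z * c.phi z 0 := by
  unfold D2 dy
  rw [Pi.add_apply, fderiv_comp h]
  simp [nn, crossProduct]

theorem D2_2 (h : c.IsSolution) (z : ℂ) :
    c.D2 z 2 = dy (fun z => c.phi z 2) z := by
  unfold D2 dy
  rw [Pi.add_apply, fderiv_comp h]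
  simp [nn, crossProduct]

/-- tangency -/
theorem tang (h : c.IsSolution) (z : ℂ) :
    c.phi z 0 * c.D2 z 0 + c.phi z 1 * c.D2 z 1 + c.phi z 2 * c.D2 z 2 = 0 := by
  rw [D2_0 h, D2_1 h, D2_2 h]
  have h0 := ((smoothc h 0).differentiable (by simp) z).hasFDerivAt
  have h1 := ((smoothc h 1).differentiable (by simp) z).hasFDerivAt
  have h2 := ((smoothc h 2).differentiable (by simp) z).hasFDerivAt
  have h3 := ((h0.mul h0).add (h1.mul h1)).add (h2.mul h2)
  have h4 : (fun z => c.phi z 0 * c.phi z 0 + c.phi z 1 * c.phi z 1 + c.phi z 2 * c.phi z 2) =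
      fun _ => (1 : ℝ) := by
    funext z
    have := sphere' h z
    linarith
  have h5 : HasFDerivAt (fun z => c.phi z 0 * c.phi z 0 + c.phi z 1 * c.phi z 1 +
      c.phi z 2 * c.phi z 2) _ z := h3
  rw [h4] at h5
  have h6 := h5.unique (hasFDerivAt_const (1 : ℝ) z)
  have h7 := congrArg (fun L : ℂ →L[ℝ] ℝ => L I) h6
  simp at h7
  unfold dy
  linarith

theorem sd0 (h : c.IsSolution) (z : ℂ) :
    c.D1 z 0 = -(c.phi z 1 * c.D2 z 2 - c.phi z 2 * c.D2 z 1) := by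
  have := congrFun (h.sd1 z) 0
  simpa [crossProduct] using this

theorem sd1' (h : c.IsSolution) (z : ℂ) :
    c.D1 z 1 = -(c.phi z 2 * c.D2 z 0 - c.phi z 0 * c.D2 z 2) := by
  have := congrFun (h.sd1 z) 1
  simpa [crossProduct] using this

theorem sd2' (h : c.IsSolution) (z : ℂ) :
    c.D1 z 2 = -(c.phi z 0 * c.D2 z 1 - c.phi z 1 * c.D2 z 0) := by
  have := congrFun (h.sd1 z) 2
  simpa [crossProduct] using this

theorem contDiff_mk {f g : ℂ → ℝ} (hf : ContDiff ℝ ∞ f) (hg : ContDiff ℝ ∞ g) :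
    ContDiff ℝ ∞ (fun z => (⟨f z, g z⟩ : ℂ)) := by
  have : (fun z => (⟨f z, g z⟩ : ℂ)) = fun z => ofRealCLM (f z) + ofRealCLM (g z) * I := by
    funext z
    apply Complex.ext <;> simp
  rw [this]
  exact (ofRealCLM.contDiff.comp hf).add ((ofRealCLM.contDiff.comp hg).mul contDiff_const)

theorem fderiv_mk {f g : ℂ → ℝ} {z : ℂ} (hf : DifferentiableAt ℝ f z)
    (hg : DifferentiableAt ℝ g z) (v : ℂ) :
    fderiv ℝ (fun z => (⟨f z, g z⟩ : ℂ)) z v = ⟨fderiv ℝ f z v, fderiv ℝ g z v⟩ := by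
  have h : HasFDerivAt (fun z => (⟨f z, g z⟩ : ℂ)) (ofRealCLM.comp (fderiv ℝ f z) +
      (I • ofRealCLM.comp (fderiv ℝ g z))) z := by
    have e : (fun z => (⟨f z, g z⟩ : ℂ)) = fun z => ofRealCLM (f z) + I • ofRealCLM (g z) := by
      funext z
      apply Complex.ext <;> simp
    rw [e]
    exact (ofRealCLM.hasFDerivAt.comp z hf.hasFDerivAt).add
      ((ofRealCLM.hasFDerivAt.comp z hg.hasFDerivAt).const_smul I)
  rw [h.fderiv]
  apply Complex.ext <;> simp

theorem dbar_mk {f g : ℂ → ℝ} {z : ℂ} (hf : DifferentiableAt ℝ f z)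
    (hg : DifferentiableAt ℝ g z) :
    dbar (fun z => (⟨f z, g z⟩ : ℂ)) z = ⟨dx f z - dy g z, dx g z + dy f z⟩ := by
  unfold dbar
  rw [fderiv_mk hf hg, fderiv_mk hf hg]
  unfold dx dy
  apply Complex.ext <;> simp
  ring

theorem dbar_div {W : ℂ → ℂ} {ρ : ℂ → ℝ} {z : ℂ} (hW : DifferentiableAt ℝ W z)
    (hρ : DifferentiableAt ℝ ρ z) (h0 : ρ z ≠ 0) :
    dbar (fun z => W z / (ρ z : ℝ)) z =
      ((ρ z : ℂ) * dbar W z - W z * ⟨dx ρ z, dy ρ z⟩) / (ρ z : ℂ) ^ 2 := by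
  have h1 : (fun z => W z / (ρ z : ℝ)) = fun z => (ρ z)⁻¹ • W z := by
    funext z
    rw [real_smul]
    push_cast
    rw [div_eq_inv_mul]
  have h2 : HasFDerivAt (fun z => (ρ z)⁻¹ • W z) _ z :=
    ((hasDerivAt_inv h0).comp_hasFDerivAt z hρ.hasFDerivAt).smul hW.hasFDerivAt
  unfold dbar
  rw [h1, h2.fderiv]
  have h3 : (ρ z : ℂ) ≠ 0 := by exact_mod_cast h0
  have h4 : (⟨dx ρ z, dy ρ z⟩ : ℂ) = (dx ρ z : ℂ) + I * (dy ρ z : ℂ) := by
    apply Complex.ext <;> simp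
  rw [h4]
  unfold dx dy
  simp
  field_simp
  ring

theorem dbar_psi (h : c.IsSolution) {z : ℂ} (hz : 1 + c.phi z 2 ≠ 0) :
    dbar c.psi z = c.al z * c.psi z := by
  have d0 := (smoothc h 0).differentiable (by simp) z
  have d1 := (smoothc h 1).differentiable (by simp) z
  have d2 := (smoothc h 2).differentiable (by simp) z
  have dw : DifferentiableAt ℝ c.w z :=
    (contDiff_mk (smoothc h 0) (smoothc h 1)).differentiable (by simp) z
  have h1 : dbar c.psi z = _ := dbar_div (W := c.w) (ρ := fun z => 1 + c.phi z 2) dw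
    (d2.const_add 1) hz
  have h2 : dbar c.w z = _ := dbar_mk d0 d1
  have e1 : dx (fun z => 1 + c.phi z 2) z = dx (fun z => c.phi z 2) z := by
    unfold dx; rw [fderiv_const_add]
  have e2 : dy (fun z => 1 + c.phi z 2) z = dy (fun z => c.phi z 2) z := by
    unfold dy; rw [fderiv_const_add]
  rw [h1, h2, e1, e2]
  have s0 := sd0 h z
  have s1 := sd1' h z
  have s2 := sd2' h z
  have st := tang h z
  have sp := sphere' h z
  rw [D2_0 h, D2_1 h, D2_2 h] at st
  rw [D1_0 h, D2_1 h, D2_2 h] at s0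
  rw [D1_1 h, D2_0 h, D2_2 h] at s1
  rw [D1_2 h, D2_0 h, D2_1 h] at s2
  have hzc : ((1 + c.phi z 2 : ℝ) : ℂ) ≠ 0 := by exact_mod_cast hz
  rw [div_eq_iff (pow_ne_zero 2 hzc)]
  have e3 : c.al z * c.psi z * ((1 + c.phi z 2 : ℝ) : ℂ) ^ 2 =
      c.al z * c.w z * ((1 + c.phi z 2 : ℝ) : ℂ) := by
    unfold psi
    field_simp
  rw [e3]
  unfold al w
  apply Complex.ext
  · simp
    linear_combination (1 + c.phi z 2) * s0 - c.phi z 0 * s2 - c.phi z 1 * st +
      (dy (fun z => c.phi z 1) z + c.A2 z * c.phi z 0) * sp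
  · simp
    linear_combination (1 + c.phi z 2) * s1 - c.phi z 1 * s2 + c.phi z 0 * st -
      (dy (fun z => c.phi z 0) z - c.A2 z * c.phi z 1) * sp

theorem dbar_chi (h : c.IsSolution) {z : ℂ} (hz : 1 - c.phi z 2 ≠ 0) :
    dbar c.chi z = - c.al z * c.chi z := by
  have d0 := (smoothc h 0).differentiable (by simp) z
  have d1 := (smoothc h 1).differentiable (by simp) z
  have d2 := (smoothc h 2).differentiable (by simp) z
  have dw : DifferentiableAt ℝ c.south z :=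
    (contDiff_mk (smoothc h 0) (smoothc h 1).neg).differentiable (by simp) z
  have h1 : dbar c.chi z = _ := dbar_div (W := c.south) (ρ := fun z => 1 - c.phi z 2) dw
    (d2.const_sub 1) hz
  have h2 : dbar c.south z = _ := dbar_mk (f := fun z => c.phi z 0) (g := fun z => - c.phi z 1)
    d0 d1.neg
  have e1 : dx (fun z => 1 - c.phi z 2) z = - dx (fun z => c.phi z 2) z := by
    unfold dx; rw [fderiv_const_sub]; rfl
  have e2 : dy (fun z => 1 - c.phi z 2) z = - dy (fun z => c.phi z 2) z := by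
    unfold dy; rw [fderiv_const_sub]; rfl
  have e4 : dx (fun z => - c.phi z 1) z = - dx (fun z => c.phi z 1) z := by
    unfold dx; rw [fderiv_fun_neg]; rfl
  have e5 : dy (fun z => - c.phi z 1) z = - dy (fun z => c.phi z 1) z := by
    unfold dy; rw [fderiv_fun_neg]; rfl
  rw [h1, h2, e1, e2, e4, e5]
  have s0 := sd0 h z
  have s1 := sd1' h z
  have s2 := sd2' h z
  have st := tang h z
  have sp := sphere' h z
  rw [D2_0 h, D2_1 h, D2_2 h] at st
  rw [D1_0 h, D2_1 h, D2_2 h] at s0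
  rw [D1_1 h, D2_0 h, D2_2 h] at s1
  rw [D1_2 h, D2_0 h, D2_1 h] at s2
  have hzc : ((1 - c.phi z 2 : ℝ) : ℂ) ≠ 0 := by exact_mod_cast hz
  rw [div_eq_iff (pow_ne_zero 2 hzc)]
  have e3 : -c.al z * c.chi z * ((1 - c.phi z 2 : ℝ) : ℂ) ^ 2 =
      -c.al z * c.south z * ((1 - c.phi z 2 : ℝ) : ℂ) := by
    unfold chi
    field_simp
  rw [e3]
  unfold al south
  apply Complex.ext
  · simp
    linear_combination (1 - c.phi z 2) * s0 + c.phi z 0 * s2 + c.phi z 1 * st -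
      (dy (fun z => c.phi z 1) z + c.A2 z * c.phi z 0) * sp
  · simp
    linear_combination -(1 - c.phi z 2) * s1 - c.phi z 1 * s2 + c.phi z 0 * st -
      (dy (fun z => c.phi z 0) z - c.A2 z * c.phi z 1) * sp

end Config

end Pool.Agent.H172R3.SM
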