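import Pool.Agent.H172R3.SM.C

/-! # Uniqueness by circle integrals -/

set_option autoImplicit false

noncomputable section

namespace Pool.Agent.H172R3.SM

open Complex Set Filter Topology Metric MeasureTheory
open scoped ContDiff

theorem two_le_inf : (2 : WithTop ℕ∞) ≤ (∞ : WithTop ℕ∞) := by
  exact WithTop.coe_le_coe.2 le_top

theorem snd_le_of_max {φ φ' : ℝ → ℝ} {a : ℝ} (h1 : ∀ᶠ s in 𝓝 0, HasDerivAt φ (φ' s) s)
    (h2 : HasDerivAt φ' a 0) (hm : IsLocalMax φ 0) : a ≤ 0 := by
  by_contra ha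
  push Not at ha
  have e1 : deriv φ =ᶠ[𝓝 0] φ' := by
    filter_upwards [h1] with s hs
    exact hs.deriv
  have h10 := h1.self_of_nhds
  have h3 : φ' 0 = 0 := hm.hasDerivAt_eq_zero h10
  have hmin : IsLocalMin φ 0 := by
    refine isLocalMin_of_deriv_deriv_pos ?_ ?_ h10.continuousAt
    · rw [e1.deriv_eq, h2.deriv]; exact ha
    · rw [e1.eq_of_nhds]; exact h3
  have h5 : φ =ᶠ[𝓝 0] fun _ => φ 0 := by
    filter_upwards [hm, hmin] with s h h'
    exact le_antisymm h h'
  have h6 := e1.symm.trans h5.deriv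
  simp only [deriv_const'] at h6
  have h7 : HasDerivAt φ' 0 0 := (hasDerivAt_const (0 : ℝ) (0 : ℝ)).congr_of_eventuallyEq h6
  have := h2.unique h7
  linarith

theorem hasDerivAt_line (z v : ℂ) (s : ℝ) : HasDerivAt (fun s : ℝ => z + s * v) v s := by
  simpa using ((ofRealCLM.hasDerivAt (x := s)).mul_const v).const_add z

theorem lap_nonpos_of_max_at {w : ℂ → ℝ} {z : ℂ} (hw : ContDiffAt ℝ 2 w z)
    (hm : IsLocalMax w z) : lap w z ≤ 0 := by
  have key : ∀ v : ℂ, fderiv ℝ (fun y => fderiv ℝ w y v) z v ≤ 0 := by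
    intro v
    have hv : ContDiffAt ℝ 1 (fun y => fderiv ℝ w y v) z :=
      (hw.fderiv_right (m := 1) (by norm_num)).clm_apply contDiffAt_const
    have hcont := (hasDerivAt_line z v 0).continuousAt
    have hz0 : z + ((0 : ℝ) : ℂ) * v = z := by simp
    refine snd_le_of_max (φ := fun s : ℝ => w (z + s * v))
      (φ' := fun s : ℝ => fderiv ℝ w (z + s * v) v) ?_ ?_ ?_
    · have h1 : ∀ᶠ y in 𝓝 z, DifferentiableAt ℝ w y := by
        filter_upwards [hw.eventually (by simp)] with y hy
        exact hy.differentiableAt (by simp)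
      have h2 : Tendsto (fun s : ℝ => z + s * v) (𝓝 0) (𝓝 z) := by
        have := hcont.tendsto
        rwa [hz0] at this
      filter_upwards [h2.eventually h1] with s hs
      exact hs.hasFDerivAt.comp_hasDerivAt s (hasDerivAt_line z v s)
    · have h1 : HasFDerivAt (fun y => fderiv ℝ w y v)
          (fderiv ℝ (fun y => fderiv ℝ w y v) z) (z + (0 : ℝ) * v) := by
        rw [hz0]
        exact (hv.differentiableAt (by simp)).hasFDerivAt
      exact h1.comp_hasDerivAt (0 : ℝ) (hasDerivAt_line z v 0)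
    · have h0 : IsLocalMax w ((fun s : ℝ => z + s * v) 0) := by simpa using hm
      exact IsLocalMax.comp_continuous (g := fun s : ℝ => z + s * v) h0 hcont
  exact add_nonpos (key 1) (key I)

theorem lap_nonpos_of_max {w : ℂ → ℝ} (hw : ContDiff ℝ ∞ w) {z : ℂ} (hm : IsLocalMax w z) :
    lap w z ≤ 0 := lap_nonpos_of_max_at (hw.contDiffAt.of_le two_le_inf) hm

theorem lap_add_at {f g : ℂ → ℝ} {z : ℂ} (hf : ContDiffAt ℝ 2 f z) (hg : ContDiffAt ℝ 2 g z) :
    lap (fun z => f z + g z) z = lap f z + lap g z := by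
  have key : ∀ v : ℂ, fderiv ℝ (fun y => fderiv ℝ (fun z => f z + g z) y v) z v =
      fderiv ℝ (fun y => fderiv ℝ f y v) z v + fderiv ℝ (fun y => fderiv ℝ g y v) z v := by
    intro v
    have hf1 : ContDiffAt ℝ 1 (fun y => fderiv ℝ f y v) z :=
      (hf.fderiv_right (m := 1) (by norm_num)).clm_apply contDiffAt_const
    have hg1 : ContDiffAt ℝ 1 (fun y => fderiv ℝ g y v) z :=
      (hg.fderiv_right (m := 1) (by norm_num)).clm_apply contDiffAt_const
    have h1 : (fun y => fderiv ℝ (fun z => f z + g z) y v) =ᶠ[𝓝 z]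
        fun y => fderiv ℝ f y v + fderiv ℝ g y v := by
      filter_upwards [hf.eventually (by simp), hg.eventually (by simp)] with y h1 h2
      rw [fderiv_fun_add (h1.differentiableAt (by simp)) (h2.differentiableAt (by simp))]
      rfl
    rw [h1.fderiv_eq, fderiv_fun_add (hf1.differentiableAt (by simp))
      (hg1.differentiableAt (by simp))]
    rfl
  have h1 := key 1
  have h2 := key I
  unfold lap dx dy
  rw [h1, h2]
  ring

/-- `η |z|²` -/
def qd (η : ℝ) (z : ℂ) : ℝ := η * normSq z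

theorem contDiff_normSq : ContDiff ℝ ∞ (fun z : ℂ => normSq z) := by
  have : (fun z : ℂ => normSq z) = fun z => z.re * z.re + z.im * z.im := by
    funext z; rw [normSq_apply]
  rw [this]
  exact (reCLM.contDiff.mul reCLM.contDiff).add (imCLM.contDiff.mul imCLM.contDiff)

theorem fderiv_normSq (z v : ℂ) : fderiv ℝ (fun z : ℂ => normSq z) z v =
    2 * (z.re * v.re + z.im * v.im) := by
  have h : HasFDerivAt (fun z : ℂ => z.re * z.re + z.im * z.im) _ z :=
    ((reCLM.hasFDerivAt (x := z)).mul (reCLM.hasFDerivAt (x := z))).add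
      ((imCLM.hasFDerivAt (x := z)).mul (imCLM.hasFDerivAt (x := z)))
  have e : (fun z : ℂ => normSq z) = fun z => z.re * z.re + z.im * z.im := by
    funext z; rw [normSq_apply]
  rw [e, h.fderiv]
  simp
  ring

theorem lap_normSq (z : ℂ) : lap (fun z : ℂ => normSq z) z = 4 := by
  unfold lap dx dy
  have h1 : (fun z : ℂ => fderiv ℝ (fun z : ℂ => normSq z) z 1) = fun z => 2 * reCLM z := by
    funext y; rw [fderiv_normSq]; simp
  have h2 : (fun z : ℂ => fderiv ℝ (fun z : ℂ => normSq z) z I) = fun z => 2 * imCLM z := by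
    funext y; rw [fderiv_normSq]; simp
  rw [h1, h2, ((reCLM.hasFDerivAt (x := z)).const_mul 2).fderiv,
    ((imCLM.hasFDerivAt (x := z)).const_mul 2).fderiv]
  simp
  norm_num

theorem lap_qd (η : ℝ) (z : ℂ) : lap (qd η) z = 4 * η := by
  unfold lap dx dy
  have e : ∀ v : ℂ, (fun y : ℂ => fderiv ℝ (qd η) y v) =
      fun y => η * fderiv ℝ (fun z : ℂ => normSq z) y v := by
    intro v
    funext y
    have := ((contDiff_normSq.differentiable (by simp) y).hasFDerivAt.const_mul η)
    have h2 : fderiv ℝ (qd η) y = _ := this.fderiv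
    rw [h2]
    simp
  have hd : ∀ v : ℂ, DifferentiableAt ℝ (fun y => fderiv ℝ (fun z : ℂ => normSq z) y v) z :=
    fun v => ((contDiff_normSq.fderiv_right (m := ∞) (by simp)).clm_apply
      contDiff_const).differentiable (by simp) z
  rw [e, e, ((hd 1).hasFDerivAt.const_mul η).fderiv, ((hd I).hasFDerivAt.const_mul η).fderiv]
  have := lap_normSq z
  unfold lap dx dy at this
  simp only [FunLike.coe_smul, Pi.smul_apply, smul_eq_mul]
  rw [← mul_add, this]
  ring

/-- interior maximum principle -/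
theorem exists_circle {w : ℂ → ℝ} (hw : ContDiff ℝ ∞ w) (h1 : ∀ z, 0 < w z → 0 ≤ lap w z)
    {x : ℂ} (hx : 0 < w x) {R : ℝ} (hR0 : 0 < R) (hR : ‖x‖ ≤ R) :
    ∃ z, ‖z‖ = R ∧ w x / 2 ≤ w z := by
  set η := w x / (2 * R ^ 2) with hη
  have hη0 : 0 < η := by positivity
  have hηR : η * R ^ 2 = w x / 2 := by rw [hη]; field_simp
  have hs : ContDiff ℝ ∞ (fun z => w z + qd η z) :=
    hw.add (contDiff_const.mul contDiff_normSq)
  obtain ⟨z, hz, hmax⟩ := (isCompact_closedBall (0 : ℂ) R).exists_isMaxOn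
    ⟨x, by simpa using hR⟩ hs.continuous.continuousOn
  have hxz : w x + qd η x ≤ w z + qd η z := hmax (by simpa using hR)
  have hx0 : 0 ≤ qd η x := mul_nonneg hη0.le (normSq_nonneg x)
  have hzR : ‖z‖ ≤ R := by simpa using hz
  have hz2 : qd η z ≤ w x / 2 := by
    rw [← hηR]
    apply mul_le_mul_of_nonneg_left _ hη0.le
    rw [normSq_eq_norm_sq]
    exact pow_le_pow_left₀ (norm_nonneg _) hzR 2
  refine ⟨z, ?_, by linarith⟩
  by_contra hne
  have hlt : ‖z‖ < R := lt_of_le_of_ne hzR hne
  have hlm : IsLocalMax (fun z => w z + qd η z) z := by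
    filter_upwards [ball_mem_nhds z (sub_pos.2 hlt)] with y hy
    apply hmax
    rw [mem_closedBall, dist_zero_right]
    rw [mem_ball, dist_eq_norm] at hy
    have : ‖y‖ ≤ ‖y - z‖ + ‖z‖ := by
      simpa using norm_add_le (y - z) z
    linarith
  have h2 := lap_nonpos_of_max hs hlm
  have hq : ContDiff ℝ ∞ (qd η) := contDiff_const.mul contDiff_normSq
  rw [lap_add_at (f := w) (g := qd η) (hw.contDiffAt.of_le two_le_inf)
    (hq.contDiffAt.of_le two_le_inf), lap_qd] at h2
  have := h1 z (by linarith)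
  linarith

theorem exists_polar (c z : ℂ) (hz : z ≠ c) : ∃ t θ : ℝ, z = pt c t θ ∧ θ ∈ Icc (-Real.pi) Real.pi ∧
    Real.exp t = ‖z - c‖ := by
  have h0 : z - c ≠ 0 := sub_ne_zero.2 hz
  refine ⟨Real.log ‖z - c‖, arg (z - c), ?_, ⟨(neg_pi_lt_arg _).le, arg_le_pi _⟩,
    Real.exp_log (norm_pos_iff.2 h0)⟩
  unfold pt
  rw [exp_add, ← ofReal_exp, Real.exp_log (norm_pos_iff.2 h0), norm_mul_exp_arg_mul_I]
  ring

theorem strong_max_aux {w : ℂ → ℝ} (hw : ContDiff ℝ ∞ w) {K : ℝ} (hK : 0 ≤ K)
    (h0 : ∀ z, 0 ≤ w z)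
    (h1 : ∀ z, lap w z ≤ K * w z) (h2 : ∀ z, 0 ≤ lap w z) {c : ℂ} (hc : w c = 0) :
    ∀ z, w z = 0 := by
  set m := CM c w with hm
  set n := CM c (Dr c w) with hn
  have hm' : ∀ t, HasDerivAt m (n t) t := hasDerivAt_CM hw c
  have hn' : ∀ t, HasDerivAt n (Real.exp (2 * t) * CM c (lap w) t) t := hasDerivAt_CM2 hw c
  have hm0 : ∀ t, 0 ≤ m t := fun t => by
    have := CM_mono c (g := fun _ => 0) (h := w) continuous_const hw.continuous t
      (fun z _ => h0 z)
    rwa [CM_const, mul_zero] at this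
  have hn0 : ∀ t, 0 ≤ n t := CM_Dr_nonneg hw c h2
  have hlap : ∀ t, CM c (lap w) t ≤ K * m t := fun t => by
    have := CM_mono c (g := lap w) (h := fun z => K * w z) (contDiff_lap hw).continuous
      (continuous_const.mul hw.continuous) t (fun z _ => h1 z)
    refine this.trans (le_of_eq ?_)
    rw [hm]
    unfold CM
    rw [intervalIntegral.integral_const_mul]
  have hex : ∀ t : ℝ, HasDerivAt (fun t : ℝ => Real.exp (2 * t)) (2 * Real.exp (2 * t)) t := by
    intro t
    have := ((hasDerivAt_id t).const_mul 2).exp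
    simpa [mul_comm] using this
  have htm : Tendsto m atBot (𝓝 0) := by
    have := tendsto_CM hw.continuous c
    rwa [hc, mul_zero] at this
  have htn : Tendsto n atBot (𝓝 0) := tendsto_CM_Dr hw c
  have hte : Tendsto (fun t : ℝ => Real.exp (2 * t)) atBot (𝓝 0) :=
    Real.tendsto_exp_atBot.comp (tendsto_id.const_mul_atBot (by norm_num))
  have hk : ∀ t, n t ≤ K / 2 * Real.exp (2 * t) * m t := by
    intro t
    have hanti : Antitone (fun t => n t - K / 2 * Real.exp (2 * t) * m t) := by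
      refine antitone_of_hasDerivAt_nonpos (fun t => (hn' t).sub
        (((hex t).const_mul (K / 2)).mul (hm' t))) fun t => ?_
      have e1 := Real.exp_pos (2 * t)
      have e2 := mul_le_mul_of_nonneg_left (hlap t) e1.le
      have e3 : 0 ≤ K / 2 * Real.exp (2 * t) * n t :=
        mul_nonneg (mul_nonneg (by linarith) e1.le) (hn0 t)
      simp only [Pi.zero_apply]
      nlinarith
    have hlim : Tendsto (fun t => n t - K / 2 * Real.exp (2 * t) * m t) atBot (𝓝 0) := by
      have := htn.sub ((hte.const_mul (K / 2)).mul htm)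
      simpa using this
    have := hanti.ge_of_tendsto hlim t
    linarith
  have hmle : ∀ t, m t = 0 := by
    intro t
    have hanti : Antitone (fun t => m t * Real.exp (-(K / 4) * Real.exp (2 * t))) := by
      refine antitone_of_hasDerivAt_nonpos (fun t => (hm' t).mul
        (((hex t).const_mul (-(K / 4))).exp)) fun t => ?_
      have e1 := Real.exp_pos (-(K / 4) * Real.exp (2 * t))
      have e2 := mul_le_mul_of_nonneg_right (hk t) e1.le
      simp only [Pi.zero_apply]
      nlinarith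
    have hlim : Tendsto (fun t => m t * Real.exp (-(K / 4) * Real.exp (2 * t))) atBot (𝓝 0) := by
      have h5 : Tendsto (fun t => Real.exp (-(K / 4) * Real.exp (2 * t))) atBot (𝓝 1) := by
        have := (Real.continuous_exp.tendsto _).comp (hte.const_mul (-(K / 4)))
        simpa [Function.comp_def] using this
      have := htm.mul h5
      simpa using this
    have h6 := hanti.ge_of_tendsto hlim t
    have h7 : m t ≤ 0 := by
      by_contra hcon
      push Not at hcon
      have := mul_pos hcon (Real.exp_pos (-(K / 4) * Real.exp (2 * t)))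
      linarith
    exact le_antisymm h7 (hm0 t)
  intro z
  by_cases hz : z = c
  · rw [hz, hc]
  obtain ⟨t, θ, hzt, hθ, _⟩ := exists_polar c z hz
  by_contra hne
  have hpos : 0 < w z := lt_of_le_of_ne (h0 z) (Ne.symm hne)
  have h8 : 0 < m t := by
    rw [hm]
    unfold CM
    refine intervalIntegral.integral_pos (by linarith [Real.pi_pos])
      (continuous_cc c hw.continuous t).continuousOn (fun θ _ => h0 _) ⟨θ, hθ, ?_⟩
    rw [← hzt]
    exact hpos
  rw [hmle t] at h8
  exact lt_irrefl _ h8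

/-- strong maximum principle -/
theorem strong_max {w : ℂ → ℝ} (hw : ContDiff ℝ ∞ w) {K : ℝ} (h0 : ∀ z, 0 ≤ w z)
    (h1 : ∀ z, lap w z ≤ K * w z) (h2 : ∀ z, 0 ≤ lap w z) {c : ℂ} (hc : w c = 0) :
    ∀ z, w z = 0 := by
  by_cases hK : K ≤ 0
  · -- harmonic case is included by enlarging `K`
    intro z
    have := h1 z
    exact strong_max_aux hw (K := 1) (by norm_num) h0 (fun z => (h1 z).trans
      (mul_le_mul_of_nonneg_right (by linarith) (h0 z))) h2 hc z
  · push Not at hK
    exact strong_max_aux hw hK.le h0 h1 h2 hc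


/-! ## The comparison function -/

/-- `y arctan y - (1/2) log (1 + y²)`: derivative `arctan`, second derivative `1/(1+y²)` -/
def bet (y : ℝ) : ℝ := y * Real.arctan y - 1 / 2 * Real.log (1 + y ^ 2)

theorem hasDerivAt_bet (y : ℝ) : HasDerivAt bet (Real.arctan y) y := by
  unfold bet
  have hp : (1 + y ^ 2 : ℝ) ≠ 0 := by positivity
  have h1 := (hasDerivAt_id y).mul (Real.hasDerivAt_arctan y)
  have h2 : HasDerivAt (fun y : ℝ => 1 + y ^ 2) (2 * y) y := by
    simpa using ((hasDerivAt_id y).pow 2).const_add 1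
  have h3 := (h2.log hp).const_mul (1 / 2 : ℝ)
  refine (h1.sub h3).congr_deriv ?_
  simp only [id]
  field_simp
  ring

theorem contDiff_bet : ContDiff ℝ ∞ bet := by
  unfold bet
  refine (contDiff_id.mul Real.contDiff_arctan).sub (contDiff_const.mul ?_)
  exact (contDiff_const.add (contDiff_id.pow 2)).log (fun y => by positivity)

theorem bet_nonneg (y : ℝ) : 0 ≤ bet y := by
  have h : ∀ y, 0 ≤ y → 0 ≤ bet y := by
    intro y hy
    have hm : MonotoneOn bet (Ici 0) := by
      refine monotoneOn_of_deriv_nonneg (convex_Ici 0) contDiff_bet.continuous.continuousOn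
        (contDiff_bet.differentiable (by simp)).differentiableOn fun z hz => ?_
      rw [interior_Ici] at hz
      rw [(hasDerivAt_bet z).deriv]
      exact Real.arctan_nonneg.2 (le_of_lt hz)
    have := hm (self_mem_Ici) (show y ∈ Ici (0 : ℝ) from hy) hy
    have h0 : bet 0 = 0 := by unfold bet; simp
    rwa [h0] at this
  rcases le_total 0 y with hy | hy
  · exact h y hy
  · have : bet y = bet (-y) := by unfold bet; simp
    rw [this]
    exact h _ (by linarith)

theorem bet_le (y : ℝ) : bet y ≤ 2 * |y| := by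
  unfold bet
  have h1 : 0 ≤ Real.log (1 + y ^ 2) := Real.log_nonneg (by nlinarith [sq_nonneg y])
  have h2 : y * Real.arctan y ≤ |y| * |Real.arctan y| := by
    rw [← abs_mul]; exact le_abs_self _
  have h3 : |Real.arctan y| ≤ 2 := by
    rw [abs_le]
    have := Real.arctan_lt_pi_div_two y
    have := Real.neg_pi_div_two_lt_arctan y
    have := Real.pi_le_four
    constructor <;> linarith
  have h4 := mul_le_mul_of_nonneg_left h3 (abs_nonneg y)
  linarith

theorem dx_comp {w : ℂ → ℝ} (hw : ContDiff ℝ ∞ w) {F F' : ℝ → ℝ}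
    (hF : ∀ y, HasDerivAt F (F' y) y) (v z : ℂ) :
    fderiv ℝ (fun z => F (w z)) z v = F' (w z) * fderiv ℝ w z v := by
  have := ((hF (w z)).comp_hasFDerivAt z (hw.differentiable (by simp) z).hasFDerivAt)
  have h2 : fderiv ℝ (fun z => F (w z)) z = F' (w z) • fderiv ℝ w z := this.fderiv
  rw [h2]
  simp

theorem lap_comp {w : ℂ → ℝ} (hw : ContDiff ℝ ∞ w) {F F' F'' : ℝ → ℝ}
    (hF : ∀ y, HasDerivAt F (F' y) y) (hF' : ∀ y, HasDerivAt F' (F'' y) y) (z : ℂ) :
    lap (fun z => F (w z)) z = F'' (w z) * (dx w z ^ 2 + dy w z ^ 2) + F' (w z) * lap w z := by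
  have hk : ∀ v : ℂ, fderiv ℝ (fun y => fderiv ℝ (fun z => F (w z)) y v) z v =
      F'' (w z) * (fderiv ℝ w z v) ^ 2 + F' (w z) * fderiv ℝ (fun y => fderiv ℝ w y v) z v := by
    intro v
    have e1 : (fun y => fderiv ℝ (fun z => F (w z)) y v) =
        fun y => F' (w y) * fderiv ℝ w y v := funext fun y => dx_comp hw hF v y
    have hv : ContDiff ℝ ∞ (fun y => fderiv ℝ w y v) :=
      (hw.fderiv_right (m := ∞) (by simp)).clm_apply contDiff_const
    have e2 := ((hF' (w z)).comp_hasFDerivAt z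
      (hw.differentiable (by simp) z).hasFDerivAt).mul
      (hv.differentiable (by simp) z).hasFDerivAt
    have e3 : fderiv ℝ (fun y => F' (w y) * fderiv ℝ w y v) z = _ := e2.fderiv
    rw [e1, e3]
    simp
    ring
  have h1 := hk 1
  have h2 := hk I
  unfold lap dx dy
  rw [h1, h2]
  ring

theorem Da_arctan {w : ℂ → ℝ} (hw : ContDiff ℝ ∞ w) (c z : ℂ) :
    Da c (fun z => Real.arctan (w z)) z = Da c w z / (1 + w z ^ 2) := by
  unfold Da dx dy
  rw [dx_comp hw (fun y => Real.hasDerivAt_arctan y), dx_comp hw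
    (fun y => Real.hasDerivAt_arctan y)]
  ring

theorem key_ineq {w : ℂ → ℝ} (hw : ContDiff ℝ ∞ w) (z : ℂ) (h : 0 ≤ Real.arctan (w z) * lap w z) :
    (Da 0 (fun z => Real.arctan (w z)) z) ^ 2 ≤ ‖z‖ ^ 2 * lap (fun z => bet (w z)) z := by
  have hp : (0 : ℝ) < 1 + w z ^ 2 := by positivity
  have hF' : ∀ y, HasDerivAt Real.arctan ((1 + y ^ 2)⁻¹) y := fun y => by
    simpa using Real.hasDerivAt_arctan y
  rw [lap_comp hw hasDerivAt_bet hF', Da_arctan hw]
  have e0 : ‖z‖ ^ 2 = z.re ^ 2 + z.im ^ 2 := by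
    rw [← normSq_eq_norm_sq, normSq_apply]; ring
  have h1 : (Da 0 w z) ^ 2 ≤ ‖z‖ ^ 2 * (dx w z ^ 2 + dy w z ^ 2) := by
    rw [e0]
    unfold Da
    simp only [sub_zero]
    nlinarith [sq_nonneg (z.re * dx w z + z.im * dy w z)]
  have h2 : (Da 0 w z / (1 + w z ^ 2)) ^ 2 ≤ (1 + w z ^ 2)⁻¹ * (Da 0 w z) ^ 2 := by
    rw [div_pow, div_eq_inv_mul]
    apply mul_le_mul_of_nonneg_right _ (sq_nonneg _)
    apply inv_anti₀ hp
    nlinarith [sq_nonneg (w z)]
  have h3 : 0 ≤ ‖z‖ ^ 2 * (Real.arctan (w z) * lap w z) := mul_nonneg (sq_nonneg _) h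
  have h4 := mul_le_mul_of_nonneg_left h1 (inv_pos.2 hp).le
  nlinarith

/-- circles on which `arctan w` is almost constant -/
theorem exists_good {w : ℂ → ℝ} (hw : ContDiff ℝ ∞ w) (hs : ∀ z, 0 ≤ Real.arctan (w z) * lap w z)
    {C T : ℝ} (hg : ∀ t, T ≤ t → CM 0 (fun z => |w z|) t ≤ C * (1 + t)) {ε : ℝ} (hε : 0 < ε)
    (T' : ℝ) : ∃ t, T' ≤ t ∧ ∀ θ₁ ∈ Icc (-Real.pi) Real.pi, ∀ θ₂ ∈ Icc (-Real.pi) Real.pi,
      Real.arctan (w (pt 0 t θ₂)) - Real.arctan (w (pt 0 t θ₁)) ≤ 4 * ε := by
  set b : ℂ → ℝ := fun z => bet (w z) with hb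
  have hbs : ContDiff ℝ ∞ b := contDiff_bet.comp hw
  set a : ℂ → ℝ := fun z => Real.arctan (w z) with ha
  have has : ContDiff ℝ ∞ a := Real.contDiff_arctan.comp hw
  set B := CM 0 b with hB
  set B' := CM 0 (Dr 0 b) with hB'
  have hd1 : ∀ t, HasDerivAt B (B' t) t := hasDerivAt_CM hbs 0
  have hd2 : ∀ t, HasDerivAt B' (Real.exp (2 * t) * CM 0 (lap b) t) t := hasDerivAt_CM2 hbs 0
  have hB0 : ∀ t, 0 ≤ B t := fun t => by
    have := CM_mono 0 (g := fun _ => 0) (h := b) continuous_const hbs.continuous t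
      (fun z _ => bet_nonneg _)
    rwa [CM_const, mul_zero] at this
  have hBle : ∀ t, T ≤ t → B t ≤ 2 * C * (1 + t) := fun t ht => by
    have h1 := CM_mono 0 (g := b) (h := fun z => 2 * |w z|) hbs.continuous
      (continuous_const.mul hw.continuous.abs) t (fun z _ => bet_le _)
    have h2 : CM 0 (fun z => 2 * |w z|) t = 2 * CM 0 (fun z => |w z|) t := by
      unfold CM
      rw [intervalIntegral.integral_const_mul]
    rw [h2] at h1
    have := hg t ht
    linarith
  have hJ : ∀ t, CM 0 (fun z => (Da 0 a z) ^ 2) t ≤ Real.exp (2 * t) * CM 0 (lap b) t := by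
    intro t
    have h1 := CM_mono 0 (g := fun z => (Da 0 a z) ^ 2) (h := fun z => Real.exp (2 * t) * lap b z)
      ((contDiff_Da 0 has).continuous.pow 2) (continuous_const.mul (contDiff_lap hbs).continuous) t
      (fun z hz => by
        have := key_ineq hw z (hs z)
        rw [sub_zero] at hz
        rw [hz, ← Real.exp_nat_mul] at this
        simpa using this)
    refine h1.trans (le_of_eq ?_)
    unfold CM
    rw [intervalIntegral.integral_const_mul]
  by_cases hcase : ∃ t, T' ≤ t ∧ Real.exp (2 * t) * CM 0 (lap b) t < ε ^ 2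
  · obtain ⟨t, ht, hlt⟩ := hcase
    refine ⟨t, ht, ?_⟩
    have hpi := Real.pi_pos
    have hc : Continuous (fun θ => Da 0 a (pt 0 t θ)) := continuous_cc 0 (contDiff_Da 0 has).continuous t
    have hint : ∀ x y : ℝ, IntervalIntegrable (fun θ => ε / 2 + (Da 0 a (pt 0 t θ)) ^ 2 / (2 * ε))
        volume x y := fun x y => by
      apply Continuous.intervalIntegrable
      fun_prop
    have hbound : ∀ x y : ℝ, -Real.pi ≤ x → x ≤ y → y ≤ Real.pi →
        |a (pt 0 t y) - a (pt 0 t x)| ≤ 4 * ε := by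
      intro x y hx hxy hy
      have h1 : ∫ θ in x..y, Da 0 a (pt 0 t θ) = a (pt 0 t y) - a (pt 0 t x) :=
        intervalIntegral.integral_eq_sub_of_hasDerivAt (f := fun θ => a (pt 0 t θ))
          (fun θ _ => hasDerivAt_θ has 0 t θ) (hc.intervalIntegrable _ _)
      rw [← h1]
      have h2 : |∫ θ in x..y, Da 0 a (pt 0 t θ)| ≤ ∫ θ in x..y, |Da 0 a (pt 0 t θ)| :=
        intervalIntegral.abs_integral_le_integral_abs hxy
      have h3 : ∫ θ in x..y, |Da 0 a (pt 0 t θ)| ≤
          ∫ θ in x..y, (ε / 2 + (Da 0 a (pt 0 t θ)) ^ 2 / (2 * ε)) := by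
        refine intervalIntegral.integral_mono_on hxy (hc.abs.intervalIntegrable _ _) (hint _ _) ?_
        intro θ _
        have h4 : 0 ≤ (|Da 0 a (pt 0 t θ)| - ε) ^ 2 / (2 * ε) := by positivity
        have h5 : (|Da 0 a (pt 0 t θ)| - ε) ^ 2 / (2 * ε) =
            ε / 2 + (Da 0 a (pt 0 t θ)) ^ 2 / (2 * ε) - |Da 0 a (pt 0 t θ)| := by
          rw [sub_sq, sq_abs]
          field_simp
          ring
        linarith
      have h6 : ∫ θ in x..y, (ε / 2 + (Da 0 a (pt 0 t θ)) ^ 2 / (2 * ε)) ≤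
          ∫ θ in (-Real.pi)..Real.pi, (ε / 2 + (Da 0 a (pt 0 t θ)) ^ 2 / (2 * ε)) := by
        refine intervalIntegral.integral_mono_interval hx hxy hy ?_ (hint _ _)
        filter_upwards with θ
        positivity
      have h7 : ∫ θ in (-Real.pi)..Real.pi, (ε / 2 + (Da 0 a (pt 0 t θ)) ^ 2 / (2 * ε)) =
          Real.pi * ε + CM 0 (fun z => (Da 0 a z) ^ 2) t / (2 * ε) := by
        rw [intervalIntegral.integral_add (by simp)
          ((by fun_prop : Continuous fun θ => (Da 0 a (pt 0 t θ)) ^ 2 / (2 * ε)).intervalIntegrable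
            _ _), intervalIntegral.integral_const, intervalIntegral.integral_div]
        unfold CM
        simp only [smul_eq_mul]
        ring
      have h8 : CM 0 (fun z => (Da 0 a z) ^ 2) t / (2 * ε) ≤ ε / 2 := by
        rw [div_le_iff₀ (by positivity)]
        have := hJ t
        nlinarith
      have h9 : Real.pi * ε ≤ 7 / 2 * ε := by
        apply mul_le_mul_of_nonneg_right _ hε.le
        have := Real.pi_lt_d2
        linarith
      linarith
    intro θ₁ h1 θ₂ h2
    rcases le_total θ₁ θ₂ with h | h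
    · exact (le_abs_self _).trans (hbound _ _ h1.1 h h2.2)
    · have := hbound _ _ h2.1 h h1.2
      rw [abs_sub_comm] at this
      exact (le_abs_self _).trans this
  · exfalso
    push Not at hcase
    -- `B'` grows at least linearly, `B` quadratically
    have hε2 : 0 < ε ^ 2 := by positivity
    have g1 : ∀ t, T' ≤ t → B' T' + ε ^ 2 * (t - T') ≤ B' t := by
      intro t ht
      have hm : MonotoneOn (fun t => B' t - ε ^ 2 * t) (Ici T') := by
        refine monotoneOn_of_deriv_nonneg (convex_Ici _) ?_ ?_ ?_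
        · refine ContinuousOn.sub ?_ (by fun_prop)
          exact fun x _ => (hd2 x).continuousAt.continuousWithinAt
        · exact fun x _ => (((hd2 x).sub ((hasDerivAt_id x).const_mul (ε ^ 2))).differentiableAt).differentiableWithinAt
        · intro x hx
          rw [interior_Ici] at hx
          have := (hd2 x).sub ((hasDerivAt_id x).const_mul (ε ^ 2))
          have h2 : deriv (fun t => B' t - ε ^ 2 * t) x = _ := this.deriv
          rw [h2]
          have := hcase x (le_of_lt hx)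
          linarith
      have := hm self_mem_Ici (show t ∈ Ici T' from ht) ht
      simp only at this
      linarith
    have g2 : ∀ t, T' ≤ t → B T' + B' T' * (t - T') + ε ^ 2 / 2 * (t - T') ^ 2 ≤ B t := by
      intro t ht
      have hder : ∀ x, HasDerivAt (fun t => B t - B' T' * (t - T') - ε ^ 2 / 2 * (t - T') ^ 2)
          (B' x - B' T' - ε ^ 2 * (x - T')) x := by
        intro x
        have h1 : HasDerivAt (fun t : ℝ => t - T') 1 x := (hasDerivAt_id x).sub_const _
        have h2 := ((hd1 x).sub (h1.const_mul (B' T'))).sub ((h1.pow 2).const_mul (ε ^ 2 / 2))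
        refine h2.congr_deriv ?_
        simp
        ring
      have hm : MonotoneOn (fun t => B t - B' T' * (t - T') - ε ^ 2 / 2 * (t - T') ^ 2)
          (Ici T') := by
        refine monotoneOn_of_deriv_nonneg (convex_Ici _)
          (fun x _ => (hder x).continuousAt.continuousWithinAt)
          (fun x _ => (hder x).differentiableAt.differentiableWithinAt) ?_
        intro x hx
        rw [interior_Ici] at hx
        rw [(hder x).deriv]
        have := g1 x (le_of_lt hx)
        linarith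
      have := hm self_mem_Ici (show t ∈ Ici T' from ht) ht
      simp only [sub_self, mul_zero, ne_eq, OfNat.ofNat_ne_zero, not_false_eq_true, zero_pow,
        sub_zero] at this
      linarith
    -- contradiction for large `t`
    have g3 : ∀ t, max T T' ≤ t → B' T' * (t - T') + ε ^ 2 / 2 * (t - T') ^ 2 ≤ 2 * C * (1 + t) := by
      intro t ht
      have h1 := g2 t ((le_max_right _ _).trans ht)
      have h2 := hBle t ((le_max_left _ _).trans ht)
      have h3 := hB0 T'
      linarith
    have hB'0 : ∀ x y : ℝ, 0 ≤ y → x * y ≤ |x| * y := fun x y hy =>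
      mul_le_mul_of_nonneg_right (le_abs_self x) hy
    set M := (2 * |C| + |B' T'| + 2 * |C| * |1 + T'|) / (ε ^ 2 / 2) + 1 with hM
    set s := max 1 (max (T - T') M) with hs'
    have hs1 : 1 ≤ s := le_max_left _ _
    have hs2 : T - T' ≤ s := (le_max_left _ _).trans (le_max_right _ _)
    have hs3 : M ≤ s := (le_max_right _ _).trans (le_max_right _ _)
    have h5 := g3 (T' + s) (max_le (by linarith) (by linarith))
    have h6 : T' + s - T' = s := by ring
    rw [h6] at h5
    have h7 : 2 * |C| + |B' T'| + 2 * |C| * |1 + T'| = (M - 1) * (ε ^ 2 / 2) := by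
      rw [hM]; field_simp; ring
    have h8 : -(|B' T'| * s) ≤ B' T' * s := by
      have := neg_abs_le (B' T')
      nlinarith
    have h9 : 2 * C * (1 + (T' + s)) ≤ 2 * |C| * |1 + T'| * s + 2 * |C| * s := by
      have e1 : 2 * C * (1 + (T' + s)) = 2 * (C * (1 + T')) + 2 * C * s := by ring
      have e2 : C * (1 + T') ≤ |C| * |1 + T'| := by rw [← abs_mul]; exact le_abs_self _
      have e3 : |C| * |1 + T'| ≤ |C| * |1 + T'| * s := by
        have : 0 ≤ |C| * |1 + T'| := by positivity
        nlinarith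
      have e4 := mul_le_mul_of_nonneg_right (le_abs_self C) (by linarith : (0 : ℝ) ≤ s)
      nlinarith
    have h10 : ε ^ 2 / 2 * s ^ 2 ≤ (M - 1) * (ε ^ 2 / 2) * s := by
      rw [← h7]; nlinarith
    have h11 : 0 < ε ^ 2 / 2 * s := by positivity
    nlinarith

/-- uniqueness -/
theorem sign_of_pos {w : ℂ → ℝ} (hw : ContDiff ℝ ∞ w) (h1 : ∀ z, 0 < w z → 0 ≤ lap w z)
    (h2 : ∀ z, w z < 0 → lap w z ≤ 0) {C T : ℝ}
    (hg : ∀ t, T ≤ t → CM 0 (fun z => |w z|) t ≤ C * (1 + t)) {x : ℂ} (hx : 0 < w x) :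
    ∀ y, 0 ≤ w y := by
  intro y
  have hs : ∀ z, 0 ≤ Real.arctan (w z) * lap w z := by
    intro z
    rcases lt_trichotomy (w z) 0 with h | h | h
    · have h5 := Real.arctan_strictMono.monotone h.le
      rw [Real.arctan_zero] at h5
      exact mul_nonneg_of_nonpos_of_nonpos h5 (h2 z h)
    · rw [h, Real.arctan_zero, zero_mul]
    · exact mul_nonneg (Real.arctan_nonneg.2 h.le) (h1 z h)
  set α := Real.arctan (w x / 2) with hα
  have hα0 : 0 < α := Real.arctan_pos.2 (by linarith)
  obtain ⟨t, ht, hosc⟩ := exists_good hw hs hg (ε := α / 8) (by positivity)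
    (Real.log (max ‖x‖ (max ‖y‖ 1)))
  have hmax : 0 < max ‖x‖ (max ‖y‖ 1) := lt_max_of_lt_right (lt_max_of_lt_right one_pos)
  have hR : max ‖x‖ (max ‖y‖ 1) ≤ Real.exp t := by
    rw [← Real.log_le_iff_le_exp hmax]; exact ht
  obtain ⟨z, hz, hzw⟩ := exists_circle hw h1 hx (Real.exp_pos t) ((le_max_left _ _).trans hR)
  have hz0 : z ≠ 0 := by
    intro h
    rw [h, norm_zero] at hz
    exact (Real.exp_pos t).ne hz
  obtain ⟨t1, θ1, hz1, hθ1, hn1⟩ := exists_polar 0 z hz0
  rw [sub_zero, hz] at hn1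
  have ht1 : t1 = t := Real.exp_injective hn1
  subst ht1
  have hpos : ∀ u : ℂ, ‖u‖ = Real.exp t1 → 0 < w u := by
    intro u hu
    have hu0 : u ≠ 0 := by
      intro h
      rw [h, norm_zero] at hu
      exact (Real.exp_pos _).ne hu
    obtain ⟨t2, θ2, hz2, hθ2, hn2⟩ := exists_polar 0 u hu0
    rw [sub_zero, hu] at hn2
    have ht2 : t2 = t1 := Real.exp_injective hn2
    subst ht2
    have h3 := hosc θ2 hθ2 θ1 hθ1
    rw [← hz1, ← hz2] at h3
    have h4 : α ≤ Real.arctan (w z) := Real.arctan_strictMono.monotone hzw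
    rw [← Real.arctan_pos]
    linarith
  by_contra hcon
  push Not at hcon
  obtain ⟨u, hu, hu2⟩ := exists_circle (w := fun z => - w z) hw.neg (fun z hz => by
    have h5 := h2 z (by linarith)
    have h6 : lap (fun z => - w z) z = - lap w z := by
      unfold lap dx dy
      simp [fderiv_fun_neg]
      ring
    rw [h6]; linarith) (x := y) (by linarith) (Real.exp_pos _) ((le_max_left _ _).trans ((le_max_right _ _).trans hR))
  have := hpos u hu
  linarith

theorem lap_neg (w : ℂ → ℝ) (z : ℂ) : lap (fun z => - w z) z = - lap w z := by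
  unfold lap dx dy
  simp [fderiv_fun_neg]
  ring

theorem uniqueness {w : ℂ → ℝ} (hw : ContDiff ℝ ∞ w) (h1 : ∀ z, 0 < w z → 0 ≤ lap w z)
    (h2 : ∀ z, w z < 0 → lap w z ≤ 0) {K : ℝ} (h3 : ∀ z, |lap w z| ≤ K * |w z|) {C T : ℝ}
    (hg : ∀ t, T ≤ t → CM 0 (fun z => |w z|) t ≤ C * (1 + t)) {x : ℂ} (hx : w x = 0) :
    ∀ z, w z = 0 := by
  have key : ∀ w : ℂ → ℝ, ContDiff ℝ ∞ w → (∀ z, 0 < w z → 0 ≤ lap w z) →
      (∀ z, w z < 0 → lap w z ≤ 0) → (∀ z, |lap w z| ≤ K * |w z|) →
      (∀ t, T ≤ t → CM 0 (fun z => |w z|) t ≤ C * (1 + t)) → w x = 0 → ∀ y, w y ≤ 0 := by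
    intro w hw h1 h2 h3 hg hx y
    by_contra hcon
    push Not at hcon
    have h0 := sign_of_pos hw h1 h2 hg hcon
    have hl0 : ∀ z, 0 ≤ lap w z := by
      intro z
      rcases (h0 z).lt_or_eq with h | h
      · exact h1 z h
      · have := h3 z
        rw [← h, abs_zero, mul_zero] at this
        have := abs_nonpos_iff.1 this
        rw [this]
    have := strong_max hw (K := K) h0 (fun z => by
      have := h3 z
      rw [abs_of_nonneg (h0 z)] at this
      exact (le_abs_self _).trans this) hl0 hx y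
    linarith
  intro z
  refine le_antisymm (key w hw h1 h2 h3 hg hx z) ?_
  have := key (fun z => - w z) hw.neg (fun z hz => by
      rw [lap_neg]; have := h2 z (by linarith); linarith) (fun z hz => by
      rw [lap_neg]; have := h1 z (by linarith); linarith) (fun z => by
      rw [lap_neg, abs_neg, abs_neg]; exact h3 z) (fun t ht => by
      simp only [abs_neg]; exact hg t ht) (by simp [hx]) z
  linarith

end Pool.Agent.H172R3.SM
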