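import Pool.Agent.H172R3.SM.S1
import Pool.Agent.H172R3.SM.U

/-! # The equation `∂̄ f = α f` -/

set_option autoImplicit false

noncomputable section

namespace Pool.Agent.H172R3.SM

open Complex Set Filter Topology MeasureTheory Metric
open scoped ContDiff Matrix Convolution

theorem dbar_congr {f g : ℂ → ℂ} {z : ℂ} (h : f =ᶠ[𝓝 z] g) : dbar f z = dbar g z := by
  unfold dbar
  rw [h.fderiv_eq]

theorem dbar_mul {f g : ℂ → ℂ} {z : ℂ} (hf : DifferentiableAt ℝ f z)
    (hg : DifferentiableAt ℝ g z) :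
    dbar (fun z => f z * g z) z = f z * dbar g z + g z * dbar f z := by
  have h : HasFDerivAt (fun z => f z * g z) _ z := hf.hasFDerivAt.mul hg.hasFDerivAt
  unfold dbar
  rw [h.fderiv]
  simp
  ring

theorem dbar_exp {f : ℂ → ℂ} {z : ℂ} (hf : DifferentiableAt ℝ f z) :
    dbar (fun z => exp (f z)) z = exp (f z) * dbar f z := by
  have h : HasFDerivAt (fun z => exp (f z)) _ z := hf.hasFDerivAt.cexp
  unfold dbar
  rw [h.fderiv]
  simp
  ring

theorem dbar_neg (f : ℂ → ℂ) (z : ℂ) : dbar (fun z => - f z) z = - dbar f z := by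
  unfold dbar
  rw [fderiv_fun_neg]
  simp
  ring

theorem dbar_holo {f : ℂ → ℂ} {z : ℂ} (hf : DifferentiableAt ℂ f z) : dbar f z = 0 := by
  have h := (hf.hasDerivAt.hasFDerivAt.restrictScalars ℝ)
  unfold dbar
  rw [h.fderiv]
  simp
  ring_nf
  rw [I_sq]; ring

theorem holo_of_dbar {f : ℂ → ℂ} {z : ℂ} (hf : DifferentiableAt ℝ f z) (h0 : dbar f z = 0) :
    DifferentiableAt ℂ f z := by
  rw [differentiableAt_complex_iff_differentiableAt_real]
  refine ⟨hf, ?_⟩
  unfold dbar at h0
  rw [smul_eq_mul]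
  linear_combination (-I) * h0 + (fderiv ℝ f z I) * I_sq

theorem continuous_dbar {f : ℂ → ℂ} (hf : ContDiff ℝ ∞ f) : Continuous (dbar f) := by
  have h := hf.continuous_fderiv (by simp)
  unfold dbar
  exact (h.clm_apply continuous_const).add (continuous_const.mul (h.clm_apply continuous_const))

/-- local potentials -/
theorem exists_pot {α : ℂ → ℂ} (hα : ContDiff ℝ ∞ α) (R : ℝ) :
    ∃ g : ℂ → ℂ, ContDiff ℝ ∞ g ∧ ∀ z, ‖z‖ < R → dbar g z = α z := by
  let χ : ContDiffBump (0 : ℂ) := ⟨|R| + 1, |R| + 2, by positivity, by linarith⟩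
  set φ : ℂ → ℂ := fun z => χ z • (I * α z) with hφ
  have hs : ContDiff ℝ ∞ φ := χ.contDiff.smul (contDiff_const.mul hα)
  have hc : HasCompactSupport φ := χ.hasCompactSupport.smul_right
  refine ⟨fun z => ∫ w, MP8a09.S w * φ (z - w), ?_, ?_⟩
  · have hV : (fun z => ∫ w, MP8a09.S w * φ (z - w)) =
        MP8a09.S ⋆[ContinuousLinearMap.mul ℝ ℂ, volume] φ := by
      ext z
      rfl
    rw [hV]
    exact hc.contDiff_convolution_right _ MP8a09.locallyIntegrable_S hs
  · intro z hz
    obtain ⟨L, hL, hdb⟩ := MP8a09.exists_fderiv_conv (hs.of_le (by exact_mod_cast le_top)) hc z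
    unfold dbar
    rw [hL.fderiv]
    have h1 : χ z = 1 := χ.one_of_mem_closedBall (by
      rw [mem_closedBall, dist_zero_right]
      have := le_abs_self R
      show ‖z‖ ≤ |R| + 1
      linarith)
    rw [hφ] at hdb
    simp only [h1, one_smul] at hdb
    unfold MP8a09.db at hdb
    linear_combination (-I) * hdb + (L 1 - α z) * I_sq

/-- solutions of `∂̄ f = α f` -/
structure Sol (α f : ℂ → ℂ) : Prop where
  smooth : ContDiff ℝ ∞ f
  eq : ∀ z, dbar f z = α z * f z

theorem holo {α f g : ℂ → ℂ} {O : Set ℂ} (_hO : IsOpen O)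
    (hf : ∀ z ∈ O, DifferentiableAt ℝ f z) (hf' : ∀ z ∈ O, dbar f z = α z * f z)
    (hg : ContDiff ℝ ∞ g) (hg' : ∀ z ∈ O, dbar g z = α z) :
    DifferentiableOn ℂ (fun z => exp (- g z) * f z) O := by
  intro z hz
  have dg := hg.differentiable (by simp) z
  have de : DifferentiableAt ℝ (fun z => exp (- g z)) z := dg.neg.cexp
  have dm : DifferentiableAt ℝ (fun z => exp (- g z) * f z) z := de.mul (hf z hz)
  refine (holo_of_dbar dm ?_).differentiableWithinAt
  rw [dbar_mul de (hf z hz), dbar_exp (f := fun z => - g z) dg.neg, dbar_neg, hf' z hz, hg' z hz]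
  ring

theorem contDiffAt_of_holo {H : ℂ → ℂ} {O : Set ℂ} (hO : IsOpen O) (hH : DifferentiableOn ℂ H O)
    {z : ℂ} (hz : z ∈ O) : ContDiffAt ℝ ∞ H z :=
  ((hH.analyticAt (hO.mem_nhds hz)).contDiffAt (n := ∞)).restrict_scalars ℝ

/-- removing a dense set -/
theorem sol_of_dense {α f : ℂ → ℂ} (hα : ContDiff ℝ ∞ α) (hf : ContDiff ℝ ∞ f) {D : Set ℂ}
    (hD : Dense D) (h : ∀ z ∈ D, dbar f z = α z * f z) : Sol α f := by
  refine ⟨hf, fun z => ?_⟩
  have := Continuous.ext_on hD (continuous_dbar hf) (hα.continuous.mul hf.continuous) h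
  exact congrFun this z

/-- division by a zero -/
theorem Sol.div {α f : ℂ → ℂ} (hα : ContDiff ℝ ∞ α) (hf : Sol α f) {q : ℂ} (hq : f q = 0) :
    ∃ f1, Sol α f1 ∧ ∀ z, f z = (z - q) * f1 z := by
  obtain ⟨g, hg, hg'⟩ := exists_pot hα (‖q‖ + 1)
  set O : Set ℂ := ball 0 (‖q‖ + 1) with hOdef
  have hO : IsOpen O := isOpen_ball
  have hqO : q ∈ O := by rw [hOdef, mem_ball, dist_zero_right]; linarith
  have hH : DifferentiableOn ℂ (fun z => exp (- g z) * f z) O :=
    holo hO (fun z _ => hf.smooth.differentiable (by simp) z) (fun z _ => hf.eq z) hg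
      (fun z hz => hg' z (by rwa [hOdef, mem_ball, dist_zero_right] at hz))
  set H : ℂ → ℂ := fun z => exp (- g z) * f z with hHdef
  have hH1 : DifferentiableOn ℂ (dslope H q) O :=
    (Complex.differentiableOn_dslope (hO.mem_nhds hqO)).2 hH
  have hHq : H q = 0 := by simp [hHdef, hq]
  have key : ∀ z, f z = (z - q) * (exp (g z) * dslope H q z) := by
    intro z
    have h1 : (z - q) • dslope H q z = H z - H q := sub_smul_dslope H q z
    rw [hHq, sub_zero, smul_eq_mul] at h1
    have h2 : (z - q) * (exp (g z) * dslope H q z) = exp (g z) * ((z - q) * dslope H q z) := by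
      ring
    rw [h2, h1, hHdef]
    simp only
    rw [← mul_assoc, ← exp_add]
    simp
  set f1 : ℂ → ℂ := fun z => exp (g z) * dslope H q z with hf1
  have hsm : ContDiff ℝ ∞ f1 := by
    rw [contDiff_iff_contDiffAt]
    intro z
    by_cases hz : z ∈ O
    · exact (hg.cexp.contDiffAt).mul (contDiffAt_of_holo hO hH1 hz)
    · have hzq : z ≠ q := fun h => hz (h ▸ hqO)
      have h1 : f1 =ᶠ[𝓝 z] fun y => f y * (y - q)⁻¹ := by
        filter_upwards [isOpen_ne.mem_nhds hzq] with y hy
        rw [← div_eq_mul_inv, eq_div_iff (sub_ne_zero.2 hy), key y]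
        ring
      refine ContDiffAt.congr_of_eventuallyEq ?_ h1
      exact hf.smooth.contDiffAt.mul ((contDiff_id.sub contDiff_const).contDiffAt.inv
        (sub_ne_zero.2 hzq))
  refine ⟨f1, sol_of_dense hα hsm (dense_compl_singleton q) ?_, key⟩
  intro z hz
  have hz' : z - q ≠ 0 := sub_ne_zero.2 hz
  have d1 := hsm.differentiable (by simp) z
  have dl : DifferentiableAt ℂ (fun z : ℂ => z - q) z := by fun_prop
  have h1 := hf.eq z
  have h2 : f = fun z => (z - q) * f1 z := funext key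
  have h3 : dbar f z = (z - q) * dbar f1 z := by
    rw [h2, dbar_mul (dl.restrictScalars ℝ) d1, dbar_holo dl]
    ring
  rw [h3, key z] at h1
  have h4 : (z - q) * dbar f1 z = (z - q) * (α z * f1 z) := by rw [h1]; ring
  exact mul_left_cancel₀ hz' h4

/-- smooth logarithms -/
theorem exists_smooth_log {f : ℂ → ℂ} (hf : ContDiff ℝ ∞ f) {U : Set ℂ} (hU : IsOpen U)
    (hc : Convex ℝ U) (hne : U.Nonempty) (h0 : ∀ z ∈ U, f z ≠ 0) :
    ∃ L : ℂ → ℂ, (∀ z ∈ U, exp (L z) = f z) ∧ ∀ z ∈ U, ContDiffAt ℝ ∞ L z := by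
  have hsc : IsSimplyConnected U := by
    have : ContractibleSpace U := hc.contractibleSpace hne
    show SimplyConnectedSpace U
    infer_instance
  obtain ⟨L, hL, hE⟩ := Complex.exists_continuousOn_eqOn_exp_comp hsc hU
    (g := f) hf.continuous.continuousOn (by
      rintro ⟨z, hz, hz0⟩
      exact h0 z hz hz0)
  refine ⟨L, fun z hz => hE hz, fun z hz => ?_⟩
  -- local branch
  have hfz := h0 z hz
  have hsl : f z / f z ∈ slitPlane := by
    rw [div_self hfz]; exact one_mem_slitPlane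
  have hM : ContDiffAt ℝ ∞ (fun y => Complex.log (f y / f z) + L z) z := by
    refine ContDiffAt.add ?_ contDiffAt_const
    have h1 : ContDiffAt ℝ ∞ (fun y => f y / f z) z := hf.contDiffAt.div_const _
    have h2 : ContDiffAt ℝ ∞ Complex.log (f z / f z) :=
      (Complex.contDiffAt_log hsl).restrict_scalars ℝ
    exact h2.comp z h1
  refine hM.congr_of_eventuallyEq ?_
  have hLz : ContinuousAt L z := hL.continuousAt (hU.mem_nhds hz)
  have hcont : ContinuousAt (fun y => L y - (Complex.log (f y / f z) + L z)) z :=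
    hLz.sub hM.continuousAt
  have hval : (fun y => L y - (Complex.log (f y / f z) + L z)) z = 0 := by
    simp only
    rw [div_self hfz, log_one]; ring
  have hball : ∀ᶠ y in 𝓝 z, ‖L y - (Complex.log (f y / f z) + L z)‖ < 2 * Real.pi := by
    have := hcont.tendsto.norm
    have h0' : ‖L z - (Complex.log (f z / f z) + L z)‖ = 0 := by
      rw [div_self hfz, log_one]; simp
    rw [h0'] at this
    exact this.eventually (gt_mem_nhds (by positivity))
  have hne : ∀ᶠ y in 𝓝 z, f y ≠ 0 := hf.continuous.continuousAt.eventually_ne hfz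
  filter_upwards [hball, hne, hU.mem_nhds hz] with y hy hfy hyU
  have h3 : exp (L y) = exp (Complex.log (f y / f z) + L z) := by
    rw [exp_add, exp_log (div_ne_zero hfy hfz)]
    have e1 : exp (L y) = f y := hE hyU
    have e2 : exp (L z) = f z := hE hz
    rw [e1, e2]
    field_simp
  obtain ⟨k, hk⟩ := exp_eq_exp_iff_exists_int.1 h3
  have h4 : L y - (Complex.log (f y / f z) + L z) = k * (2 * Real.pi * I) := by
    rw [hk]; ring
  rw [h4] at hy
  have h5 : ‖(k : ℂ) * (2 * Real.pi * I)‖ = |(k : ℝ)| * (2 * Real.pi) := by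
    rw [norm_mul, norm_mul, norm_mul]
    simp [abs_of_pos Real.pi_pos]
  rw [h5] at hy
  have h6 : |(k : ℝ)| < 1 := by
    have : 0 < 2 * Real.pi := by positivity
    by_contra hcon
    push Not at hcon
    nlinarith
  have h7 : k = 0 := by
    have : |k| < 1 := by exact_mod_cast h6
    exact Int.abs_lt_one_iff.1 this
  rw [h7] at h4
  have h8 : L y - (Complex.log (f y / f z) + L z) = 0 := by rw [h4]; simp
  exact sub_eq_zero.1 h8

/-- the logarithm of a solution -/
theorem log_sol {α f L : ℂ → ℂ} (hf : Sol α f) {U : Set ℂ} (hU : IsOpen U)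
    (hE : ∀ z ∈ U, exp (L z) = f z) (hL : ∀ z ∈ U, ContDiffAt ℝ ∞ L z) {z : ℂ} (hz : z ∈ U) :
    dx (fun z => (L z).re) z - dy (fun z => (L z).im) z = (α z).re ∧
    dx (fun z => (L z).im) z + dy (fun z => (L z).re) z = (α z).im := by
  have dL := (hL z hz).differentiableAt (by simp)
  have h1 : dbar (fun z => exp (L z)) z = exp (L z) * dbar L z := dbar_exp dL
  have h2 : (fun z => exp (L z)) =ᶠ[𝓝 z] f := by
    filter_upwards [hU.mem_nhds hz] with y hy
    exact hE y hy
  rw [dbar_congr h2, hf.eq z, ← hE z hz] at h1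
  have h3 : dbar L z = α z := by
    have := exp_ne_zero (L z)
    have h4 : exp (L z) * dbar L z = exp (L z) * α z := by rw [← h1]; ring
    exact mul_left_cancel₀ this h4
  have hre : DifferentiableAt ℝ (fun z => (L z).re) z := reCLM.differentiableAt.comp z dL
  have him : DifferentiableAt ℝ (fun z => (L z).im) z := imCLM.differentiableAt.comp z dL
  have h5 := Config.dbar_mk hre him
  have h6 : (fun z => (⟨(L z).re, (L z).im⟩ : ℂ)) = L := by
    funext z; simp
  rw [h6, h3] at h5
  rw [h5]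
  exact ⟨rfl, rfl⟩

theorem dxdy_symm {b : ℂ → ℝ} {z : ℂ} (hb : ContDiffAt ℝ 2 b z) : dx (dy b) z = dy (dx b) z := by
  have hs := hb.isSymmSndFDerivAt (by simp)
  have hd : DifferentiableAt ℝ (fderiv ℝ b) z :=
    (hb.fderiv_right (m := 1) (by norm_num)).differentiableAt (by simp)
  have h1 : ∀ u v : ℂ, fderiv ℝ (fun y => fderiv ℝ b y v) z u =
      fderiv ℝ (fderiv ℝ b) z u v := by
    intro u v
    rw [fderiv_clm_apply hd (differentiableAt_const v)]
    simp
  unfold dx dy
  rw [h1, h1]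
  exact hs 1 I

/-- Laplacian of `log |f|²` -/
theorem lap_log {α f L : ℂ → ℂ} (hα : ContDiff ℝ ∞ α) (hf : Sol α f) {U : Set ℂ} (hU : IsOpen U)
    (hE : ∀ z ∈ U, exp (L z) = f z) (hL : ∀ z ∈ U, ContDiffAt ℝ ∞ L z) {z : ℂ} (hz : z ∈ U) :
    lap (fun z => (L z).re) z = dx (fun z => (α z).re) z + dy (fun z => (α z).im) z := by
  have hs : ∀ y ∈ U, ContDiffAt ℝ ∞ (fun z => (L z).im) y := fun y hy =>
    imCLM.contDiff.contDiffAt.comp y (hL y hy)
  have hae : ContDiff ℝ ∞ (fun z => (α z).re) := reCLM.contDiff.comp hα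
  have hai : ContDiff ℝ ∞ (fun z => (α z).im) := imCLM.contDiff.comp hα
  have hb2 : ContDiffAt ℝ 2 (fun z => (L z).im) z := (hs z hz).of_le two_le_inf
  have e1 : dx (fun z => (L z).re) =ᶠ[𝓝 z] fun y => (α y).re + dy (fun z => (L z).im) y := by
    filter_upwards [hU.mem_nhds hz] with y hy
    have := (log_sol hf hU hE hL hy).1
    linarith
  have e2 : dy (fun z => (L z).re) =ᶠ[𝓝 z] fun y => (α y).im - dx (fun z => (L z).im) y := by
    filter_upwards [hU.mem_nhds hz] with y hy
    have := (log_sol hf hU hE hL hy).2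
    linarith
  have d1 : DifferentiableAt ℝ (dy (fun z => (L z).im)) z := by
    unfold dy
    exact ((hb2.fderiv_right (m := 1) (by norm_num)).clm_apply
      contDiffAt_const).differentiableAt (by simp)
  have d2 : DifferentiableAt ℝ (dx (fun z => (L z).im)) z := by
    unfold dx
    exact ((hb2.fderiv_right (m := 1) (by norm_num)).clm_apply
      contDiffAt_const).differentiableAt (by simp)
  have h1 : dx (dx (fun z => (L z).re)) z =
      dx (fun z => (α z).re) z + dx (dy (fun z => (L z).im)) z := by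
    show fderiv ℝ (dx (fun z => (L z).re)) z 1 = _
    rw [e1.fderiv_eq, fderiv_fun_add (hae.differentiable (by simp) z) d1]
    rfl
  have h2 : dy (dy (fun z => (L z).re)) z =
      dy (fun z => (α z).im) z - dy (dx (fun z => (L z).im)) z := by
    show fderiv ℝ (dy (fun z => (L z).re)) z I = _
    rw [e2.fderiv_eq, fderiv_fun_sub (hai.differentiable (by simp) z) d2]
    rfl
  unfold lap
  rw [h1, h2, dxdy_symm hb2]
  ring

/-- the strictly subharmonic function `log (1 + |z|²)` -/
theorem contDiff_lg : ContDiff ℝ ∞ (fun z : ℂ => Real.log (1 + normSq z)) :=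
  (contDiff_const.add contDiff_normSq).log fun z => by
    have := normSq_nonneg z
    positivity

theorem lap_lg (z : ℂ) : 0 < lap (fun z : ℂ => Real.log (1 + normSq z)) z := by
  have hp : ∀ z : ℂ, 1 + normSq z ≠ 0 := fun z => by
    have := normSq_nonneg z
    positivity
  have h0 : ∀ y v : ℂ, fderiv ℝ (fun z : ℂ => Real.log (1 + normSq z)) y v =
      2 * (y.re * v.re + y.im * v.im) / (1 + normSq y) := by
    intro y v
    have h1 := (((contDiff_normSq.differentiable (by simp) y).hasFDerivAt.const_add 1).log (hp y))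
    have h2 : fderiv ℝ (fun z : ℂ => Real.log (1 + normSq z)) y = _ := h1.fderiv
    rw [h2]
    simp only [FunLike.coe_smul, Pi.smul_apply, smul_eq_mul]
    rw [fderiv_normSq]
    field_simp
  have e1 : (fun y : ℂ => fderiv ℝ (fun z : ℂ => Real.log (1 + normSq z)) y 1) =
      fun y => (2 * reCLM y) * (1 + normSq y)⁻¹ := by
    funext y; rw [h0]; simp; ring
  have e2 : (fun y : ℂ => fderiv ℝ (fun z : ℂ => Real.log (1 + normSq z)) y I) =
      fun y => (2 * imCLM y) * (1 + normSq y)⁻¹ := by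
    funext y; rw [h0]; simp; ring
  have hinv : HasFDerivAt (fun y : ℂ => (1 + normSq y)⁻¹) _ z :=
    (hasDerivAt_inv (hp z)).comp_hasFDerivAt z
      ((contDiff_normSq.differentiable (by simp) z).hasFDerivAt.const_add 1)
  have f1 : HasFDerivAt (fun y : ℂ => (2 * reCLM y) * (1 + normSq y)⁻¹) _ z :=
    ((reCLM.hasFDerivAt (x := z)).const_mul 2).mul hinv
  have f2 : HasFDerivAt (fun y : ℂ => (2 * imCLM y) * (1 + normSq y)⁻¹) _ z :=
    ((imCLM.hasFDerivAt (x := z)).const_mul 2).mul hinv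
  unfold lap dx dy
  rw [e1, e2, f1.fderiv, f2.fderiv]
  simp only [add_apply, FunLike.coe_smul, Pi.smul_apply, smul_eq_mul,
    fderiv_normSq, FunLike.coe_add, Pi.add_apply]
  simp
  have hz := hp z
  have hpos : 0 < 1 + normSq z := by
    have := normSq_nonneg z
    positivity
  have e3 : normSq z = z.re * z.re + z.im * z.im := normSq_apply z
  have : 2 * z.re * (-((1 + normSq z) ^ 2)⁻¹ * (2 * z.re)) + (1 + normSq z)⁻¹ * 2 +
      (2 * z.im * (-((1 + normSq z) ^ 2)⁻¹ * (2 * z.im)) + (1 + normSq z)⁻¹ * 2) =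
      4 / (1 + normSq z) ^ 2 := by
    field_simp
    rw [e3]; ring
  have h9 : 0 < 4 / (1 + normSq z) ^ 2 := by positivity
  rw [← this] at h9
  linarith

end Pool.Agent.H172R3.SM
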