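import Pool.Agent.H172R3.SM.S2
import Pool.Agent.H172R3.SM.M

/-! # Structure of the solutions -/

set_option autoImplicit false

noncomputable section

namespace Pool.Agent.H172R3.SM

open Complex Set Filter Topology MeasureTheory Metric
open scoped ContDiff Matrix

/-- product over a multiset of points -/
def PP (M : Multiset ℂ) (z : ℂ) : ℂ := (M.map fun p => z - p).prod

theorem PP_zero (z : ℂ) : PP 0 z = 1 := by simp [PP]
theorem PP_cons (p : ℂ) (M : Multiset ℂ) (z : ℂ) : PP (p ::ₘ M) z = (z - p) * PP M z := by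
  simp [PP]
theorem PP_add (M M' : Multiset ℂ) (z : ℂ) : PP (M + M') z = PP M z * PP M' z := by simp [PP]
theorem PP_replicate (k : ℕ) (p z : ℂ) : PP (Multiset.replicate k p) z = (z - p) ^ k := by
  simp [PP]

theorem PP_sum {ι : Type*} (s : Finset ι) (F : ι → Multiset ℂ) (z : ℂ) :
    PP (∑ i ∈ s, F i) z = ∏ i ∈ s, PP (F i) z := by
  classical
  induction s using Finset.induction_on with
  | empty => simp [PP_zero]
  | insert a s ha ih => rw [Finset.sum_insert ha, Finset.prod_insert ha, PP_add, ih]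

theorem PP_eq_zero {M : Multiset ℂ} {z : ℂ} : PP M z = 0 ↔ z ∈ M := by
  unfold PP
  rw [Multiset.prod_eq_zero_iff, Multiset.mem_map]
  constructor
  · rintro ⟨p, hp, h⟩
    rw [sub_eq_zero] at h
    rwa [h]
  · intro h
    exact ⟨z, h, sub_self z⟩

theorem differentiable_PP (M : Multiset ℂ) : Differentiable ℂ (PP M) := by
  induction M using Multiset.induction_on with
  | empty =>
    have : PP 0 = fun _ => 1 := funext PP_zero
    rw [this]; fun_prop
  | cons p M ih =>
    have : PP (p ::ₘ M) = fun z => (z - p) * PP M z := funext (PP_cons p M)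
    rw [this]
    exact (by fun_prop : Differentiable ℂ fun z : ℂ => z - p).mul ih

theorem contDiff_PP (M : Multiset ℂ) : ContDiff ℝ ∞ (PP M) :=
  ((differentiable_PP M).contDiff (n := ∞)).restrict_scalars ℝ

/-- growth of the products -/
theorem PP_bounds (M : Multiset ℂ) : ∃ R : ℝ, 1 ≤ R ∧ ∀ z : ℂ, R ≤ ‖z‖ →
    (‖z‖ / 2) ^ (Multiset.card M) ≤ ‖PP M z‖ ∧ ‖PP M z‖ ≤ (2 * ‖z‖) ^ (Multiset.card M) := by
  induction M using Multiset.induction_on with
  | empty => exact ⟨1, le_refl _, fun z _ => by simp [PP_zero]⟩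
  | cons p M ih =>
    obtain ⟨R, hR1, hR⟩ := ih
    refine ⟨max R (2 * ‖p‖), hR1.trans (le_max_left _ _), fun z hz => ?_⟩
    obtain ⟨h1, h2⟩ := hR z ((le_max_left _ _).trans hz)
    have hp : 2 * ‖p‖ ≤ ‖z‖ := (le_max_right _ _).trans hz
    have hz0 : 0 < ‖z‖ := by
      have := hR1.trans ((le_max_left _ _).trans hz)
      linarith
    have h3 : ‖z‖ / 2 ≤ ‖z - p‖ := by
      have := norm_sub_norm_le z p
      linarith
    have h4 : ‖z - p‖ ≤ 2 * ‖z‖ := by
      have := norm_sub_le z p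
      have := norm_nonneg p
      linarith
    rw [PP_cons, norm_mul, Multiset.card_cons, pow_succ', pow_succ']
    constructor
    · exact mul_le_mul h3 h1 (by positivity) (norm_nonneg _)
    · exact mul_le_mul h4 h2 (norm_nonneg _) (by positivity)

/-- winding number of the products -/
theorem Wind_PP {c : ℂ} {r : ℝ} (hr : 0 < r) (M : Multiset ℂ) (h : ∀ p ∈ M, ‖p - c‖ ≠ r) :
    Wind (PP M) c r (Multiset.card (M.filter fun p => ‖p - c‖ < r)) := by
  induction M using Multiset.induction_on with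
  | empty =>
    have : PP 0 = fun _ => 1 := funext PP_zero
    rw [this]
    simpa using Wind.one c r
  | cons p M ih =>
    have h1 := ih fun q hq => h q (Multiset.mem_cons_of_mem hq)
    have h2 : PP (p ::ₘ M) = fun z => (z - p) * PP M z := funext (PP_cons p M)
    rw [h2]
    by_cases hp : ‖p - c‖ < r
    · rw [Multiset.filter_cons_of_pos (p := fun p => ‖p - c‖ < r) M hp, Multiset.card_cons]
      have := (Wind.sub_inside hp).mul h1
      push_cast
      rwa [add_comm]
    · rw [Multiset.filter_cons_of_neg (p := fun p => ‖p - c‖ < r) M hp]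
      have hp2 : r < ‖p - c‖ := lt_of_le_of_ne (not_lt.1 hp)
        (Ne.symm (h p (Multiset.mem_cons_self _ _)))
      have := (Wind.sub_outside hr.le hp2).mul h1
      rwa [zero_add] at this

namespace Config

variable {c : Config}

theorem contDiff_al (h : c.IsSolution) : ContDiff ℝ ∞ c.al := contDiff_mk h.smooth2 h.smooth1.neg

theorem contDiff_w (h : c.IsSolution) : ContDiff ℝ ∞ c.w :=
  contDiff_mk (smoothc h 0) (smoothc h 1)

theorem contDiff_south (h : c.IsSolution) : ContDiff ℝ ∞ c.south :=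
  contDiff_mk (smoothc h 0) (smoothc h 1).neg

theorem contDiffAt_div_real {W : ℂ → ℂ} {ρ : ℂ → ℝ} {z : ℂ} (hW : ContDiff ℝ ∞ W)
    (hρ : ContDiff ℝ ∞ ρ) (h0 : ρ z ≠ 0) : ContDiffAt ℝ ∞ (fun z => W z / (ρ z : ℝ)) z := by
  have : (fun z => W z / (ρ z : ℝ)) = fun z => (ρ z)⁻¹ • W z := by
    funext z
    rw [real_smul]
    push_cast
    rw [div_eq_inv_mul]
  rw [this]
  exact (hρ.contDiffAt.inv h0).smul hW.contDiffAt

theorem contDiffAt_psi (h : c.IsSolution) {z : ℂ} (hz : 1 + c.phi z 2 ≠ 0) :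
    ContDiffAt ℝ ∞ c.psi z :=
  contDiffAt_div_real (ρ := fun z => 1 + c.phi z 2) (contDiff_w h)
    (contDiff_const.add (smoothc h 2)) hz

theorem contDiffAt_chi (h : c.IsSolution) {z : ℂ} (hz : 1 - c.phi z 2 ≠ 0) :
    ContDiffAt ℝ ∞ c.chi z :=
  contDiffAt_div_real (ρ := fun z => 1 - c.phi z 2) (contDiff_south h)
    (contDiff_const.sub (smoothc h 2)) hz

theorem w_mul_south (h : c.IsSolution) (z : ℂ) :
    c.w z * c.south z = ((1 + c.phi z 2 : ℝ) : ℂ) * ((1 - c.phi z 2 : ℝ) : ℂ) := by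
  have := sphere' h z
  unfold w south
  apply Complex.ext
  · simp; linarith
  · simp; ring

theorem normSq_w (h : c.IsSolution) (z : ℂ) :
    normSq (c.w z) = (1 + c.phi z 2) * (1 - c.phi z 2) := by
  have := sphere' h z
  unfold w
  rw [normSq_apply]
  simp only
  linarith

theorem phi_le (h : c.IsSolution) (z : ℂ) : c.phi z 2 ≤ 1 := by
  have := sphere' h z
  nlinarith [sq_nonneg (c.phi z 0), sq_nonneg (c.phi z 1)]

theorem phi_ge (h : c.IsSolution) (z : ℂ) : -1 ≤ c.phi z 2 := by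
  have := sphere' h z
  nlinarith [sq_nonneg (c.phi z 0), sq_nonneg (c.phi z 1)]

theorem eq_ss_iff (h : c.IsSolution) (z : ℂ) : c.phi z = ss ↔ c.phi z 2 = -1 := by
  constructor
  · intro hz
    rw [hz]; simp [ss]
  · intro hz
    have := sphere' h z
    rw [hz] at this
    have h0 : c.phi z 0 = 0 := by nlinarith [sq_nonneg (c.phi z 0), sq_nonneg (c.phi z 1)]
    have h1 : c.phi z 1 = 0 := by nlinarith [sq_nonneg (c.phi z 0), sq_nonneg (c.phi z 1)]
    funext i
    fin_cases i
    · simpa [ss] using h0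
    · simpa [ss] using h1
    · simpa [ss] using hz

theorem eq_nn_iff (h : c.IsSolution) (z : ℂ) : c.phi z = nn ↔ c.phi z 2 = 1 := by
  constructor
  · intro hz
    rw [hz]; simp [nn]
  · intro hz
    have := sphere' h z
    rw [hz] at this
    have h0 : c.phi z 0 = 0 := by nlinarith [sq_nonneg (c.phi z 0), sq_nonneg (c.phi z 1)]
    have h1 : c.phi z 1 = 0 := by nlinarith [sq_nonneg (c.phi z 0), sq_nonneg (c.phi z 1)]
    funext i
    fin_cases i
    · simpa [nn] using h0
    · simpa [nn] using h1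
    · simpa [nn] using hz

theorem isClosed_ss (h : c.IsSolution) : IsClosed {z | c.phi z = ss} :=
  isClosed_eq h.smooth.continuous continuous_const

theorem chi_eq_zero (h : c.IsSolution) {z : ℂ} (hz : c.phi z 2 < 1) :
    c.chi z = 0 ↔ c.phi z = ss := by
  have h1 : ((1 - c.phi z 2 : ℝ) : ℂ) ≠ 0 := by
    have : 1 - c.phi z 2 ≠ 0 := by linarith
    exact_mod_cast this
  unfold chi
  rw [div_eq_zero_iff, or_iff_left h1, eq_ss_iff h]
  constructor
  · intro h0
    have h2 := w_mul_south h z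
    rw [h0, mul_zero] at h2
    have h3 := mul_eq_zero.1 h2.symm
    rcases h3 with h3 | h3
    · have : 1 + c.phi z 2 = 0 := by exact_mod_cast h3
      linarith
    · exact absurd h3 h1
  · intro h0
    have h2 := (eq_ss_iff h z).2 h0
    unfold south
    rw [h2]
    simp [ss]
    rfl

/-- holomorphic functions with the zeros of `χ` -/
theorem exists_K (h : c.IsSolution) {p : ℂ} (hp : c.phi p = ss) :
    ∃ g K : ℂ → ℂ, ContDiff ℝ ∞ g ∧ AnalyticAt ℂ K p ∧
      ∀ᶠ y in 𝓝 p, c.phi y 2 < 1 ∧ c.chi y = exp (g y) * K y := by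
  obtain ⟨g, hg, hg'⟩ := exists_pot (contDiff_al h).neg (‖p‖ + 1)
  set O : Set ℂ := ball 0 (‖p‖ + 1) ∩ {y | c.phi y 2 < 1} with hO
  have hOo : IsOpen O := isOpen_ball.inter
    (isOpen_lt (smoothc h 2).continuous continuous_const)
  have hpO : p ∈ O := by
    refine ⟨?_, ?_⟩
    · rw [mem_ball, dist_zero_right]; linarith
    · show c.phi p 2 < 1
      rw [hp]; simp [ss]
  have hne : ∀ z ∈ O, 1 - c.phi z 2 ≠ 0 := fun z hz => by
    have : c.phi z 2 < 1 := hz.2
    linarith
  have hH := holo (α := fun z => - c.al z) hOo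
    (fun z hz => (contDiffAt_chi h (hne z hz)).differentiableAt (by simp))
    (fun z hz => dbar_chi h (hne z hz)) hg
    (fun z hz => hg' z (by have := hz.1; rwa [mem_ball, dist_zero_right] at this))
  refine ⟨g, fun z => exp (- g z) * c.chi z, hg, hH.analyticAt (hOo.mem_nhds hpO), ?_⟩
  filter_upwards [hOo.mem_nhds hpO] with y hy
  refine ⟨hy.2, ?_⟩
  rw [← mul_assoc, ← exp_add]
  simp

theorem isolated (h : c.IsSolution) {p : ℂ} (hp : c.phi p = ss) :
    (∀ᶠ y in 𝓝 p, c.phi y = ss) ∨ (∀ᶠ y in 𝓝[≠] p, c.phi y ≠ ss) := by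
  obtain ⟨g, K, hg, hK, hev⟩ := exists_K h hp
  rcases hK.eventually_eq_zero_or_eventually_ne_zero with h1 | h1
  · left
    filter_upwards [h1, hev] with y h2 h3
    rw [← chi_eq_zero h h3.1, h3.2, h2, mul_zero]
  · right
    filter_upwards [h1, hev.filter_mono nhdsWithin_le_nhds] with y h2 h3
    rw [Ne, ← chi_eq_zero h h3.1, h3.2]
    exact mul_ne_zero (exp_ne_zero _) h2

theorem punctured (h : c.IsSolution) {p : ℂ} (hp : c.phi p = ss) :
    ∀ᶠ y in 𝓝[≠] p, c.phi y ≠ ss := by
  set E : Set ℂ := {z | ∀ᶠ y in 𝓝 z, c.phi y = ss} with hE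
  have hop : IsOpen E := by
    rw [isOpen_iff_mem_nhds]
    intro z hz
    exact eventually_eventually_nhds.2 hz
  have hcl : IsClosed E := by
    rw [← isOpen_compl_iff, isOpen_iff_mem_nhds]
    intro z hz
    by_cases hz2 : c.phi z = ss
    · rcases isolated h hz2 with h1 | h1
      · exact absurd h1 hz
      · rw [eventually_nhdsWithin_iff] at h1
        filter_upwards [h1] with y hy hyE
        by_cases hyz : y = z
        · rw [hyz] at hyE; exact hz hyE
        · exact hy hyz (show ∀ᶠ x in 𝓝 y, c.phi x = ss from hyE).self_of_nhds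
    · filter_upwards [(isClosed_ss h).isOpen_compl.mem_nhds hz2] with y hy hyE
      exact hy (show ∀ᶠ x in 𝓝 y, c.phi x = ss from hyE).self_of_nhds
  rcases isolated h hp with h1 | h1
  · exfalso
    have hu : E = univ := (isClopen_iff.1 ⟨hcl, hop⟩).resolve_left
      (Set.Nonempty.ne_empty ⟨p, h1⟩)
    have hall : ∀ z, c.phi z = ss := fun z => by
      have : z ∈ E := by rw [hu]; trivial
      exact (show ∀ᶠ x in 𝓝 z, c.phi x = ss from this).self_of_nhds
    have h2 := h.infty
    have h3 : (fun z => nn ⬝ᵥ c.phi z) = fun _ => (-1 : ℝ) := by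
      funext z
      rw [nn_dot, hall z]; simp [ss]
    rw [h3] at h2
    have := tendsto_nhds_unique h2 tendsto_const_nhds
    norm_num at this
  · exact h1

theorem bounded_far (h : c.IsSolution) : ∃ R : ℝ, 0 < R ∧ ∀ z : ℂ, R ≤ ‖z‖ → 0 < c.phi z 2 := by
  have h1 := h.infty.eventually (lt_mem_nhds (show (0 : ℝ) < 1 by norm_num))
  rw [← cobounded_eq_cocompact, ← comap_norm_atTop] at h1
  rw [eventually_comap] at h1
  obtain ⟨R, hR⟩ := eventually_atTop.1 h1
  refine ⟨max R 1, by positivity, fun z hz => ?_⟩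
  have := hR ‖z‖ ((le_max_left _ _).trans hz) z rfl
  rwa [nn_dot] at this

theorem finite_ss (h : c.IsSolution) : {z | c.phi z = ss}.Finite := by
  obtain ⟨R, hR0, hR⟩ := bounded_far h
  have hcomp : IsCompact {z | c.phi z = ss} := by
    refine (isCompact_closedBall (0 : ℂ) R).of_isClosed_subset (isClosed_ss h) ?_
    intro z hz
    rw [mem_closedBall, dist_zero_right]
    by_contra hcon
    push Not at hcon
    have h1 := hR z hcon.le
    rw [(eq_ss_iff h z).1 hz] at h1
    linarith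
  have h1 : ∀ z ∈ {z | c.phi z = ss}, ∃ U ∈ 𝓝 z, U ∩ {z | c.phi z = ss} ⊆ {z} := by
    intro z hz
    have h2 := punctured h hz
    rw [eventually_nhdsWithin_iff] at h2
    refine ⟨_, h2, ?_⟩
    rintro y ⟨hy1, hy2⟩
    by_contra hcon
    exact hy1 hcon hy2
  choose! U hU hU2 using h1
  obtain ⟨t, ht, hcov⟩ := hcomp.elim_nhds_subcover U hU
  refine (t.finite_toSet).subset ?_
  intro z hz
  obtain ⟨y, hy, hzy⟩ := mem_iUnion₂.1 (hcov hz)
  have := hU2 y (ht y hy) ⟨hzy, hz⟩
  rw [mem_singleton_iff] at this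
  rw [this]
  exact hy

/-- local form near a pole -/
theorem pole_form (h : c.IsSolution) {p : ℂ} (hp : c.phi p = ss) :
    ∃ m : ℕ, 1 ≤ m ∧ ∃ G : ℂ → ℂ, ContDiffAt ℝ ∞ G p ∧ G p ≠ 0 ∧
      ∀ᶠ y in 𝓝[≠] p, c.psi y * (y - p) ^ m = G y := by
  obtain ⟨g, K, hg, hK, hev⟩ := exists_K h hp
  have hpu := punctured h hp
  have hnz : ¬ ∀ᶠ y in 𝓝 p, K y = 0 := by
    intro h0
    have h1 : ∀ᶠ y in 𝓝 p, c.phi y = ss := by
      filter_upwards [h0, hev] with y h2 h3
      rw [← chi_eq_zero h h3.1, h3.2, h2, mul_zero]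
    have h2 : ∀ᶠ y in 𝓝[≠] p, c.phi y = ss := h1.filter_mono nhdsWithin_le_nhds
    obtain ⟨y, hy1, hy2⟩ := (h2.and hpu).exists
    exact hy2 hy1
  obtain ⟨m, k, hk, hkp, hkev⟩ := hK.exists_eventuallyEq_pow_smul_nonzero_iff.2 hnz
  have hm : 1 ≤ m := by
    by_contra hm
    have hm0 : m = 0 := by omega
    subst hm0
    have h1 := hkev.self_of_nhds
    have h2 := hev.self_of_nhds
    have h3 := (chi_eq_zero h h2.1).2 hp
    rw [h2.2, h1] at h3
    simp at h3
    exact hkp h3
  refine ⟨m, hm, fun y => exp (- g y) * (k y)⁻¹, ?_, ?_, ?_⟩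
  · refine ContDiffAt.mul (hg.neg.cexp.contDiffAt) ?_
    exact ((hk.contDiffAt (n := ∞)).restrict_scalars ℝ).inv hkp
  · exact mul_ne_zero (exp_ne_zero _) (inv_ne_zero hkp)
  · have hkne : ∀ᶠ y in 𝓝 p, k y ≠ 0 := hk.continuousAt.eventually_ne hkp
    filter_upwards [hpu, hev.filter_mono nhdsWithin_le_nhds,
      hkev.filter_mono nhdsWithin_le_nhds, hkne.filter_mono nhdsWithin_le_nhds,
      self_mem_nhdsWithin] with y h1 h2 h3 h4 h5
    have h6 : y - p ≠ 0 := sub_ne_zero.2 h5
    have hA : ((1 - c.phi y 2 : ℝ) : ℂ) ≠ 0 := by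
      have : 1 - c.phi y 2 ≠ 0 := by linarith [h2.1]
      exact_mod_cast this
    have hB : ((1 + c.phi y 2 : ℝ) : ℂ) ≠ 0 := by
      have : 1 + c.phi y 2 ≠ 0 := fun h0 => h1 ((eq_ss_iff h y).2 (by linarith))
      exact_mod_cast this
    have h7 : c.psi y * c.chi y = 1 := by
      unfold psi chi
      rw [div_mul_div_comm, w_mul_south h, div_self (mul_ne_zero hB hA)]
    rw [h2.2, h3, smul_eq_mul] at h7
    have h8 : exp (g y) ≠ 0 := exp_ne_zero _
    have h9 : exp (- g y) = (exp (g y))⁻¹ := exp_neg _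
    rw [h9, ← mul_inv]
    refine eq_inv_of_mul_eq_one_left ?_
    rw [← h7]
    ring

end Config

end Pool.Agent.H172R3.SM
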