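import Pool.Agent.H172R3.SM.S3

/-! # Global factorisation of the solutions -/

set_option autoImplicit false

noncomputable section

namespace Pool.Agent.H172R3.SM

open Complex Set Filter Topology MeasureTheory Metric
open scoped ContDiff Matrix

namespace Config

variable {c : Config}

/-- clearing the poles -/
theorem exists_f0 (h : c.IsSolution) : ∃ (P : Multiset ℂ) (f : ℂ → ℂ),
    (∀ z, z ∈ P ↔ c.phi z = ss) ∧ Sol c.al f ∧ (∀ z, c.phi z = ss → f z ≠ 0) ∧
    ∀ z, c.phi z ≠ ss → f z = c.psi z * PP P z := by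
  classical
  set S := (finite_ss h).toFinset with hS
  have hmem : ∀ z, z ∈ S ↔ c.phi z = ss := fun z => by
    rw [hS, Set.Finite.mem_toFinset]; rfl
  have hpf : ∀ p, ∃ m : ℕ, ∃ G : ℂ → ℂ, c.phi p = ss → (1 ≤ m ∧ ContDiffAt ℝ ∞ G p ∧ G p ≠ 0 ∧
      ∀ᶠ y in 𝓝[≠] p, c.psi y * (y - p) ^ m = G y) := by
    intro p
    by_cases hp : c.phi p = ss
    · obtain ⟨m, hm, G, h1, h2, h3⟩ := pole_form h hp
      exact ⟨m, G, fun _ => ⟨hm, h1, h2, h3⟩⟩
    · exact ⟨0, fun _ => 0, fun h => absurd h hp⟩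
  choose m G hmG using hpf
  set P : Multiset ℂ := ∑ p ∈ S, Multiset.replicate (m p) p with hP
  have hPmem : ∀ z, z ∈ P ↔ c.phi z = ss := by
    intro z
    rw [hP, Multiset.mem_sum, ← hmem]
    constructor
    · rintro ⟨i, hi, hz⟩
      rwa [Multiset.eq_of_mem_replicate hz]
    · intro hz
      refine ⟨z, hz, ?_⟩
      rw [Multiset.mem_replicate]
      exact ⟨by have := (hmG z ((hmem z).1 hz)).1; omega, rfl⟩
  have hPP : ∀ z, PP P z = ∏ p ∈ S, (z - p) ^ m p := by
    intro z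
    rw [hP, PP_sum]
    exact Finset.prod_congr rfl fun p _ => PP_replicate _ _ _
  set f : ℂ → ℂ := fun z => if z ∈ S then G z z * ∏ p ∈ S.erase z, (z - p) ^ m p
    else c.psi z * PP P z with hf
  have hfS : ∀ z, c.phi z ≠ ss → f z = c.psi z * PP P z := by
    intro z hz
    simp only [hf]
    rw [if_neg (fun h0 => hz ((hmem z).1 h0))]
  have hne : ∀ z, c.phi z ≠ ss → 1 + c.phi z 2 ≠ 0 := fun z hz h0 =>
    hz ((eq_ss_iff h z).2 (by linarith))
  have hopen : IsOpen {z | c.phi z ≠ ss} := (isClosed_ss h).isOpen_compl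
  have hsm : ContDiff ℝ ∞ f := by
    rw [contDiff_iff_contDiffAt]
    intro z
    by_cases hz : c.phi z = ss
    · obtain ⟨_, h1, _, h3⟩ := hmG z hz
      have h4 : f =ᶠ[𝓝 z] fun y => G z y * ∏ p ∈ S.erase z, (y - p) ^ m p := by
        have h5 := punctured h hz
        rw [eventually_nhdsWithin_iff] at h3 h5
        filter_upwards [h3, h5] with y hy1 hy2
        by_cases hyz : y = z
        · subst hyz
          simp only [hf]
          rw [if_pos ((hmem y).2 hz)]
        · rw [hfS y (hy2 hyz), hPP, ← Finset.mul_prod_erase S _ ((hmem z).2 hz), ← mul_assoc,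
            hy1 hyz]
      refine ContDiffAt.congr_of_eventuallyEq ?_ h4
      refine h1.mul ?_
      refine ContDiff.contDiffAt ?_
      exact contDiff_prod fun p _ => (contDiff_id.sub contDiff_const).pow _
    · have h4 : f =ᶠ[𝓝 z] fun y => c.psi y * PP P y := by
        filter_upwards [hopen.mem_nhds hz] with y hy
        exact hfS y hy
      refine ContDiffAt.congr_of_eventuallyEq ?_ h4
      exact (contDiffAt_psi h (hne z hz)).mul (contDiff_PP P).contDiffAt
  refine ⟨P, f, hPmem, ?_, ?_, hfS⟩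
  · have hD : Dense {z | c.phi z ≠ ss} := by
      have : {z | c.phi z ≠ ss} = {z | c.phi z = ss}ᶜ := rfl
      rw [this]
      exact (finite_ss h).countable.dense_compl ℝ
    refine sol_of_dense (contDiff_al h) hsm hD ?_
    intro z hz
    have h4 : f =ᶠ[𝓝 z] fun y => c.psi y * PP P y := by
      filter_upwards [hopen.mem_nhds hz] with y hy
      exact hfS y hy
    have dp := (contDiffAt_psi h (hne z hz)).differentiableAt (by simp)
    rw [dbar_congr h4, dbar_mul dp ((contDiff_PP P).differentiable (by simp) z),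
      dbar_holo (differentiable_PP P z), dbar_psi h (hne z hz), hfS z hz]
    ring
  · intro z hz
    obtain ⟨_, _, h2, _⟩ := hmG z hz
    simp only [hf]
    rw [if_pos ((hmem z).2 hz)]
    refine mul_ne_zero h2 (Finset.prod_ne_zero_iff.2 fun p hp => pow_ne_zero _ ?_)
    exact sub_ne_zero.2 (Ne.symm (Finset.ne_of_mem_erase hp))

theorem normSq_psi (h : c.IsSolution) {z : ℂ} (hz : 1 + c.phi z 2 ≠ 0) :
    normSq (c.psi z) * (1 + c.phi z 2) = 1 - c.phi z 2 := by
  unfold psi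
  rw [normSq_div, normSq_w h, normSq_ofReal]
  field_simp

/-- `∂₁ α₁ + ∂₂ α₂ = F₁₂ = 1 - φ₃` -/
theorem al_div (h : c.IsSolution) (z : ℂ) :
    dx (fun z => (c.al z).re) z + dy (fun z => (c.al z).im) z = 1 - c.phi z 2 := by
  have h1 := h.sd2 z
  rw [nn_dot] at h1
  rw [← h1]
  unfold F12 dx dy al
  simp only
  have : fderiv ℝ (fun z => - c.A1 z) z I = - fderiv ℝ c.A1 z I := by
    rw [fderiv_fun_neg]; rfl
  rw [this]
  rfl

/-- at most `card P` zeros can be divided out -/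
theorem bound (h : c.IsSolution) {P : Multiset ℂ} {f0 : ℂ → ℂ}
    (hP : ∀ z, z ∈ P ↔ c.phi z = ss) (hne : P ≠ 0) (hf0S : ∀ z, c.phi z = ss → f0 z ≠ 0)
    (hf0 : ∀ z, c.phi z ≠ ss → f0 z = c.psi z * PP P z) {Q : Multiset ℂ} {f : ℂ → ℂ}
    (hf : Sol c.al f) (hQ : ∀ z, f0 z = PP Q z * f z)
    (hcard : Multiset.card Q = Multiset.card P + 1) : False := by
  obtain ⟨R0, hR0, hfar⟩ := bounded_far h
  obtain ⟨R1, hR1, hb1⟩ := PP_bounds P
  obtain ⟨R2, hR2, hb2⟩ := PP_bounds Q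
  set F : ℂ → ℝ := fun z => normSq (f z) * (1 + normSq z) with hF
  have hFc : Continuous F := (continuous_normSq.comp hf.smooth.continuous).mul
    (continuous_const.add continuous_normSq)
  obtain ⟨p, hp⟩ := Multiset.exists_mem_of_ne_zero hne
  have hpss := (hP p).1 hp
  have hfp : f p ≠ 0 := fun h0 => hf0S p hpss (by rw [hQ, h0, mul_zero])
  have hFp : 0 < F p := mul_pos (normSq_pos.2 hfp) (by
    have := normSq_nonneg p
    positivity)
  -- decay
  set N := Multiset.card P with hN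
  have hdec : ∀ z : ℂ, max R0 (max R1 R2) ≤ ‖z‖ →
      F z ≤ 2 * 16 ^ (N + 1) * (1 - c.phi z 2) := by
    intro z hz
    have hz0 : R0 ≤ ‖z‖ := (le_max_left _ _).trans hz
    have hz1 : R1 ≤ ‖z‖ := ((le_max_left _ _).trans (le_max_right _ _)).trans hz
    have hz2 : R2 ≤ ‖z‖ := ((le_max_right _ _).trans (le_max_right _ _)).trans hz
    have hpos := hfar z hz0
    have hn1 : 1 ≤ ‖z‖ := hR1.trans hz1
    have hzss : c.phi z ≠ ss := fun h0 => by
      rw [eq_ss_iff h] at h0; linarith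
    have e1 := hf0 z hzss
    rw [hQ z] at e1
    obtain ⟨_, h1⟩ := hb1 z hz1
    obtain ⟨h2, _⟩ := hb2 z hz2
    rw [hcard] at h2
    have e2 : ‖PP Q z‖ * ‖f z‖ = ‖c.psi z‖ * ‖PP P z‖ := by rw [← norm_mul, e1, norm_mul]
    have e3 : (‖z‖ / 2) ^ (N + 1) * ‖f z‖ ≤ ‖c.psi z‖ * (2 * ‖z‖) ^ N := by
      calc (‖z‖ / 2) ^ (N + 1) * ‖f z‖ ≤ ‖PP Q z‖ * ‖f z‖ :=
            mul_le_mul_of_nonneg_right h2 (norm_nonneg _)
        _ = ‖c.psi z‖ * ‖PP P z‖ := e2
        _ ≤ _ := mul_le_mul_of_nonneg_left h1 (norm_nonneg _)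
    have e4 : ‖z‖ * ‖f z‖ ≤ 4 ^ (N + 1) * ‖c.psi z‖ := by
      have h5 : (‖z‖ / 2) ^ (N + 1) = ‖z‖ ^ (N + 1) / 2 ^ (N + 1) := div_pow _ _ _
      have h6 : (2 * ‖z‖) ^ N = 2 ^ N * ‖z‖ ^ N := mul_pow _ _ _
      rw [h5, h6, div_mul_eq_mul_div, div_le_iff₀ (by positivity)] at e3
      have h7 : 0 < ‖z‖ ^ N := by positivity
      have h8 : ‖z‖ ^ (N + 1) * ‖f z‖ = ‖z‖ ^ N * (‖z‖ * ‖f z‖) := by ring
      have h9 : ‖c.psi z‖ * (2 ^ N * ‖z‖ ^ N) * 2 ^ (N + 1) =
          ‖z‖ ^ N * (2 ^ N * 2 ^ (N + 1) * ‖c.psi z‖) := by ring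
      rw [h8, h9] at e3
      have h10 := le_of_mul_le_mul_left e3 h7
      refine h10.trans ?_
      apply mul_le_mul_of_nonneg_right _ (norm_nonneg _)
      rw [← pow_add]
      have : (4 : ℝ) ^ (N + 1) = 2 ^ (2 * (N + 1)) := by rw [pow_mul]; norm_num
      rw [this]
      exact pow_le_pow_right₀ (by norm_num) (by omega)
    have e5 : normSq (c.psi z) ≤ 1 - c.phi z 2 := by
      have h5 := normSq_psi h (z := z) (by linarith)
      have h6 := normSq_nonneg (c.psi z)
      nlinarith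
    have e6 : F z ≤ 2 * (‖z‖ * ‖f z‖) ^ 2 := by
      simp only [hF]
      rw [normSq_eq_norm_sq, normSq_eq_norm_sq]
      have h5 : 1 + ‖z‖ ^ 2 ≤ 2 * ‖z‖ ^ 2 := by nlinarith
      have h6 := mul_le_mul_of_nonneg_left h5 (sq_nonneg ‖f z‖)
      nlinarith
    have e7 : (‖z‖ * ‖f z‖) ^ 2 ≤ (4 ^ (N + 1) * ‖c.psi z‖) ^ 2 :=
      pow_le_pow_left₀ (by positivity) e4 2
    have e8 : (4 ^ (N + 1) * ‖c.psi z‖) ^ 2 = 16 ^ (N + 1) * normSq (c.psi z) := by
      rw [mul_pow, normSq_eq_norm_sq, ← pow_mul, mul_comm (N + 1) 2, pow_mul]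
      norm_num
    rw [e8] at e7
    have e9 : (16 : ℝ) ^ (N + 1) * normSq (c.psi z) ≤ 16 ^ (N + 1) * (1 - c.phi z 2) :=
      mul_le_mul_of_nonneg_left e5 (by positivity)
    linarith
  have hev : ∀ᶠ z in cocompact ℂ, F z ≤ F p := by
    have h1 : ∀ᶠ z in cocompact ℂ, 1 - F p / (2 * 16 ^ (N + 1)) < nn ⬝ᵥ c.phi z :=
      h.infty.eventually (lt_mem_nhds (by
        have : 0 < F p / (2 * 16 ^ (N + 1)) := by positivity
        linarith))
    have h2 : ∀ᶠ z in cocompact ℂ, max R0 (max R1 R2) ≤ ‖z‖ :=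
      (tendsto_norm_cocompact_atTop (E := ℂ)).eventually_ge_atTop _
    filter_upwards [h1, h2] with z hz1 hz2
    refine (hdec z hz2).trans ?_
    rw [nn_dot] at hz1
    have h3 : 1 - c.phi z 2 ≤ F p / (2 * 16 ^ (N + 1)) := by linarith
    have h4 := mul_le_mul_of_nonneg_left h3 (show (0 : ℝ) ≤ 2 * 16 ^ (N + 1) by positivity)
    refine h4.trans (le_of_eq ?_)
    field_simp
  obtain ⟨x, hx⟩ := hFc.exists_forall_ge' p hev
  have hFx : 0 < F x := hFp.trans_le (hx p)
  have hfx : f x ≠ 0 := by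
    intro h0
    simp [hF, h0] at hFx
  -- logarithm near `x`
  obtain ⟨r, hr, hball⟩ := Metric.eventually_nhds_iff_ball.1
    (hf.smooth.continuous.continuousAt.eventually_ne hfx)
  obtain ⟨L, hE, hL⟩ := exists_smooth_log hf.smooth (U := ball x r) isOpen_ball
    (convex_ball x r) ⟨x, mem_ball_self hr⟩ hball
  have hxb : x ∈ ball x r := mem_ball_self hr
  have hre : ContDiffAt ℝ ∞ (fun z => (L z).re) x :=
    reCLM.contDiff.contDiffAt.comp x (hL x hxb)
  have hre2 : ContDiffAt ℝ 2 (fun z => (L z).re + (L z).re) x :=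
    (hre.add hre).of_le two_le_inf
  have hFexp : ∀ y ∈ ball x r, Real.exp ((L y).re + (L y).re + Real.log (1 + normSq y)) = F y := by
    intro y hy
    have h1 : 0 < 1 + normSq y := by
      have := normSq_nonneg y
      positivity
    rw [Real.exp_add, Real.exp_log h1, Real.exp_add]
    simp only [hF]
    rw [← hE y hy, normSq_eq_norm_sq (exp (L y)), norm_exp, sq]
  have hmax : IsLocalMax (fun y => (L y).re + (L y).re + Real.log (1 + normSq y)) x := by
    filter_upwards [isOpen_ball.mem_nhds hxb] with y hy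
    rw [← Real.exp_le_exp, hFexp y hy, hFexp x hxb]
    exact hx y
  have hl := lap_nonpos_of_max_at (hre2.add (contDiff_lg.contDiffAt.of_le two_le_inf)) hmax
  have hl2 : lap (fun y => (L y).re + (L y).re + Real.log (1 + normSq y)) x =
      lap (fun y => (L y).re + (L y).re) x + lap (fun y : ℂ => Real.log (1 + normSq y)) x :=
    lap_add_at hre2 (contDiff_lg.contDiffAt.of_le two_le_inf)
  have hl3 : lap (fun y => (L y).re + (L y).re) x =
      lap (fun y => (L y).re) x + lap (fun y => (L y).re) x :=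
    lap_add_at (hre.of_le two_le_inf) (hre.of_le two_le_inf)
  have hl4 := lap_log (contDiff_al h) hf isOpen_ball hE hL hxb
  have hl' : lap (fun y => (L y).re + (L y).re + Real.log (1 + normSq y)) x ≤ 0 := hl
  rw [hl2, hl3, hl4, al_div h] at hl'
  have := lap_lg x
  have := phi_le h x
  linarith

/-- global factorisation -/
structure Str (c : Config) (P Q : Multiset ℂ) (a b : ℂ → ℝ) : Prop where
  sa : ContDiff ℝ ∞ a
  sb : ContDiff ℝ ∞ b
  hP : ∀ z, z ∈ P ↔ c.phi z = ss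
  hQ : ∀ z, z ∈ Q ↔ c.phi z = nn
  e1 : ∀ z, c.w z * PP P z = ((1 + c.phi z 2 : ℝ) : ℂ) * (exp (⟨a z, b z⟩ : ℂ) * PP Q z)
  cr1 : ∀ z, dx a z - dy b z = c.A2 z
  cr2 : ∀ z, dx b z + dy a z = - c.A1 z

theorem exists_str (h : c.IsSolution) (hs : ∃ z, c.phi z = ss) :
    ∃ (P Q : Multiset ℂ) (a b : ℂ → ℝ), Str c P Q a b := by
  obtain ⟨P, f0, hP, hsol, hf0S, hf0⟩ := exists_f0 h
  have hne : P ≠ 0 := by
    obtain ⟨z, hz⟩ := hs
    intro h0
    have := (hP z).2 hz
    rw [h0] at this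
    exact absurd this (Multiset.notMem_zero z)
  -- divide out all zeros
  have hex : ∃ (Q : Multiset ℂ) (f : ℂ → ℂ), Sol c.al f ∧ (∀ z, f0 z = PP Q z * f z) ∧
      ∀ z, f z ≠ 0 := by
    by_contra hcon
    push Not at hcon
    have hall : ∀ k : ℕ, ∃ (Q : Multiset ℂ) (f : ℂ → ℂ), Sol c.al f ∧
        (∀ z, f0 z = PP Q z * f z) ∧ Multiset.card Q = k := by
      intro k
      induction k with
      | zero => exact ⟨0, f0, hsol, fun z => by rw [PP_zero, one_mul], rfl⟩
      | succ k ih =>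
        obtain ⟨Q, f, hf, hQ, hk⟩ := ih
        obtain ⟨q, hq⟩ := hcon Q f hf hQ
        obtain ⟨f1, hf1, hf2⟩ := hf.div (contDiff_al h) hq
        refine ⟨q ::ₘ Q, f1, hf1, fun z => ?_, by rw [Multiset.card_cons, hk]⟩
        rw [PP_cons, hQ z, hf2 z]
        ring
    obtain ⟨Q, f, hf, hQ, hk⟩ := hall (Multiset.card P + 1)
    exact bound h hP hne hf0S hf0 hf hQ hk
  obtain ⟨Q, f, hf, hQf, hfne⟩ := hex
  obtain ⟨L, hE, hL⟩ := exists_smooth_log hf.smooth (U := univ) isOpen_univ convex_univ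
    univ_nonempty (fun z _ => hfne z)
  have hLs : ContDiff ℝ ∞ L := contDiff_iff_contDiffAt.2 fun z => hL z (mem_univ z)
  have hLmk : ∀ z, (⟨(L z).re, (L z).im⟩ : ℂ) = L z := fun z => by simp
  refine ⟨P, Q, fun z => (L z).re, fun z => (L z).im, reCLM.contDiff.comp hLs,
    imCLM.contDiff.comp hLs, hP, ?_, ?_, ?_, ?_⟩
  · intro z
    rw [eq_nn_iff h, ← PP_eq_zero]
    constructor
    · intro h0
      have h1 : f0 z = 0 := by rw [hQf, h0, zero_mul]
      have h2 : c.phi z ≠ ss := fun h3 => hf0S z h3 h1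
      have h3 : c.phi z 2 ≠ -1 := fun h4 => h2 ((eq_ss_iff h z).2 h4)
      rw [hf0 z h2] at h1
      have h4 : PP P z ≠ 0 := fun h5 => h2 ((hP z).1 (PP_eq_zero.1 h5))
      have h5 : c.psi z = 0 := (mul_eq_zero.1 h1).resolve_right h4
      have h6 := normSq_psi h (z := z) (fun h7 => h3 (by linarith))
      rw [h5, map_zero, zero_mul] at h6
      linarith
    · intro h0
      have h2 : c.phi z ≠ ss := fun h3 => by
        rw [eq_ss_iff h] at h3; linarith
      have h6 := normSq_psi h (z := z) (by rw [h0]; norm_num)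
      rw [h0] at h6
      have h7 : normSq (c.psi z) = 0 := by linarith
      have h8 := hf0 z h2
      rw [normSq_eq_zero.1 h7, zero_mul, hQf z] at h8
      exact (mul_eq_zero.1 h8).resolve_right (hfne z)
  · intro z
    rw [hLmk, hE z (mem_univ z)]
    by_cases hz : c.phi z = ss
    · have h1 : PP P z = 0 := PP_eq_zero.2 ((hP z).2 hz)
      rw [h1, mul_zero, (eq_ss_iff h z).1 hz]
      simp
    · have h1 := hf0 z hz
      have h2 : ((1 + c.phi z 2 : ℝ) : ℂ) ≠ 0 := by
        have : 1 + c.phi z 2 ≠ 0 := fun h0 => hz ((eq_ss_iff h z).2 (by linarith))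
        exact_mod_cast this
      rw [mul_comm (f z), ← hQf z, h1]
      unfold psi
      field_simp
  · intro z
    exact (log_sol hf isOpen_univ hE hL (mem_univ z)).1
  · intro z
    exact (log_sol hf isOpen_univ hE hL (mem_univ z)).2

end Config

end Pool.Agent.H172R3.SM
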