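import Pool.Agent.H172R3.SM.S4

/-! # Consequences of the factorisation: degree, mass bound, uniqueness -/

set_option autoImplicit false

noncomputable section

namespace Pool.Agent.H172R3.SM

open Complex Set Filter Topology MeasureTheory Metric
open scoped ContDiff Matrix

namespace Config

variable {c c' : Config} {P Q : Multiset ℂ} {a b a' b' : ℂ → ℝ}

theorem ss_ne_nn : ss ≠ nn := by
  intro h
  have := congrFun h 2
  simp [ss, nn] at this
  norm_num at this

theorem Str.e2 (h : c.IsSolution) (s : Str c P Q a b) (z : ℂ) :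
    c.south z * (exp (⟨a z, b z⟩ : ℂ) * PP Q z) = ((1 - c.phi z 2 : ℝ) : ℂ) * PP P z := by
  by_cases hz : c.phi z = ss
  · have h1 : PP P z = 0 := PP_eq_zero.2 ((s.hP z).2 hz)
    have h2 : c.south z = 0 := by
      unfold south
      rw [hz]; simp [ss]; rfl
    rw [h1, h2]; ring
  · have h2 : ((1 + c.phi z 2 : ℝ) : ℂ) ≠ 0 := by
      have : 1 + c.phi z 2 ≠ 0 := fun h0 => hz ((eq_ss_iff h z).2 (by linarith))
      exact_mod_cast this
    have h3 := s.e1 z
    have h4 := w_mul_south h z
    apply mul_left_cancel₀ h2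
    linear_combination (-c.south z) * h3 + PP P z * h4

theorem Str.E (h : c.IsSolution) (s : Str c P Q a b) (z : ℂ) :
    (1 - c.phi z 2) * normSq (PP P z) =
      (1 + c.phi z 2) * (Real.exp (a z + a z) * normSq (PP Q z)) := by
  have h1 := congrArg normSq (s.e1 z)
  have h2 := congrArg normSq (s.e2 h z)
  have he : normSq (exp (⟨a z, b z⟩ : ℂ)) = Real.exp (a z + a z) := by
    rw [normSq_eq_norm_sq, norm_exp, sq, ← Real.exp_add]
  rw [map_mul, map_mul, map_mul, he, normSq_w h, normSq_ofReal] at h1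
  by_cases hz : c.phi z = ss
  · have h3 : PP P z = 0 := PP_eq_zero.2 ((s.hP z).2 hz)
    rw [h3, (eq_ss_iff h z).1 hz]; simp
  · have h4 : 1 + c.phi z 2 ≠ 0 := fun h0 => hz ((eq_ss_iff h z).2 (by linarith))
    apply mul_left_cancel₀ h4
    linarith

theorem Str.disj (s : Str c P Q a b) {z : ℂ} (hz : PP P z = 0) : PP Q z ≠ 0 := by
  intro h1
  have h2 := (s.hP z).1 (PP_eq_zero.1 hz)
  have h3 := (s.hQ z).1 (PP_eq_zero.1 h1)
  exact ss_ne_nn (h2.symm.trans h3)

theorem Str.lap_a (h : c.IsSolution) (s : Str c P Q a b) (z : ℂ) :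
    lap a z = 1 - c.phi z 2 := by
  have h1 := h.sd2 z
  rw [nn_dot] at h1
  rw [← h1]
  have e1 : dx a = fun y => c.A2 y + dy b y := funext fun y => by
    have := s.cr1 y; linarith
  have e2 : dy a = fun y => - c.A1 y - dx b y := funext fun y => by
    have := s.cr2 y; linarith
  have dyb := (contDiff_dy s.sb).differentiable (by simp) z
  have dxb := (contDiff_dx s.sb).differentiable (by simp) z
  have dA2 := h.smooth2.differentiable (by simp) z
  have dA1 := h.smooth1.differentiable (by simp) z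
  have f1 : dx (dx a) z = fderiv ℝ c.A2 z 1 + dx (dy b) z := by
    rw [e1]
    show fderiv ℝ (fun y => c.A2 y + dy b y) z 1 = _
    rw [fderiv_fun_add dA2 dyb]
    rfl
  have f2 : dy (dy a) z = - fderiv ℝ c.A1 z I - dy (dx b) z := by
    rw [e2]
    show fderiv ℝ (fun y => - c.A1 y - dx b y) z I = _
    have dn : DifferentiableAt ℝ (fun y => - c.A1 y) z := dA1.neg
    rw [fderiv_fun_sub dn dxb, fderiv_fun_neg]
    rfl
  unfold lap F12
  rw [f1, f2, dxdy_symm (s.sb.contDiffAt.of_le two_le_inf)]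
  ring

theorem Str.lap_v (h : c.IsSolution) (s : Str c P Q a b) (z : ℂ) :
    lap (fun z => a z + a z) z = 2 * (1 - c.phi z 2) := by
  rw [lap_add_at (s.sa.contDiffAt.of_le two_le_inf) (s.sa.contDiffAt.of_le two_le_inf),
    s.lap_a h]
  ring

theorem Str.smooth_v (s : Str c P Q a b) : ContDiff ℝ ∞ (fun z => a z + a z) := s.sa.add s.sa

/-- growth of `v` at infinity -/
theorem Str.growth (h : c.IsSolution) (s : Str c P Q a b) : ∃ R : ℝ, 1 ≤ R ∧
    (∀ z : ℂ, R ≤ ‖z‖ → a z + a z ≤
      (2 * (Multiset.card P : ℝ) - 2 * Multiset.card Q) * Real.log ‖z‖ +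
      (2 * (Multiset.card P : ℝ) + 2 * Multiset.card Q) * Real.log 2) ∧
    (∀ z : ℂ, R ≤ ‖z‖ → 2 * Real.exp (a z + a z -
      (2 * (Multiset.card P : ℝ) - 2 * Multiset.card Q) * Real.log ‖z‖ -
      (2 * (Multiset.card P : ℝ) + 2 * Multiset.card Q) * Real.log 2) ≤
      lap (fun z => a z + a z) z) := by
  obtain ⟨R0, hR0, hfar⟩ := bounded_far h
  obtain ⟨R1, hR1, hb1⟩ := PP_bounds P
  obtain ⟨R2, hR2, hb2⟩ := PP_bounds Q
  set N := Multiset.card P
  set M := Multiset.card Q
  have key : ∀ z : ℂ, max R0 (max R1 R2) ≤ ‖z‖ →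
      Real.exp (a z + a z + 2 * M * (Real.log ‖z‖ - Real.log 2)) ≤
        (1 - c.phi z 2) * Real.exp (2 * N * (Real.log 2 + Real.log ‖z‖)) ∧
      0 < c.phi z 2 := by
    intro z hz
    have hz0 : R0 ≤ ‖z‖ := (le_max_left _ _).trans hz
    have hz1 : R1 ≤ ‖z‖ := ((le_max_left _ _).trans (le_max_right _ _)).trans hz
    have hz2 : R2 ≤ ‖z‖ := ((le_max_right _ _).trans (le_max_right _ _)).trans hz
    have hpos := hfar z hz0
    have hn : 0 < ‖z‖ := by linarith
    obtain ⟨_, h1⟩ := hb1 z hz1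
    obtain ⟨h2, _⟩ := hb2 z hz2
    have e1 : normSq (PP P z) ≤ Real.exp (2 * N * (Real.log 2 + Real.log ‖z‖)) := by
      have e2 : Real.exp (2 * N * (Real.log 2 + Real.log ‖z‖)) = ((2 * ‖z‖) ^ N) ^ 2 := by
        rw [← Real.log_mul (by norm_num) hn.ne', ← pow_mul, mul_comm N 2,
          ← Real.exp_log (show 0 < (2 * ‖z‖) ^ (2 * N) by positivity), Real.log_pow]
        congr 1
        push_cast
        ring
      rw [e2, normSq_eq_norm_sq]
      exact pow_le_pow_left₀ (norm_nonneg _) h1 2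
    have e3 : Real.exp (2 * M * (Real.log ‖z‖ - Real.log 2)) ≤ normSq (PP Q z) := by
      have e2 : Real.exp (2 * M * (Real.log ‖z‖ - Real.log 2)) = ((‖z‖ / 2) ^ M) ^ 2 := by
        rw [← Real.log_div hn.ne' (by norm_num), ← pow_mul, mul_comm M 2,
          ← Real.exp_log (show 0 < (‖z‖ / 2) ^ (2 * M) by positivity), Real.log_pow]
        congr 1
        push_cast
        ring
      rw [e2, normSq_eq_norm_sq]
      exact pow_le_pow_left₀ (by positivity) h2 2
    refine ⟨?_, hpos⟩
    have e4 := s.E h z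
    have e5 : 0 ≤ 1 - c.phi z 2 := by have := phi_le h z; linarith
    calc Real.exp (a z + a z + 2 * M * (Real.log ‖z‖ - Real.log 2))
        = Real.exp (a z + a z) * Real.exp (2 * M * (Real.log ‖z‖ - Real.log 2)) := by
          rw [Real.exp_add]
      _ ≤ Real.exp (a z + a z) * normSq (PP Q z) :=
          mul_le_mul_of_nonneg_left e3 (Real.exp_pos _).le
      _ ≤ (1 + c.phi z 2) * (Real.exp (a z + a z) * normSq (PP Q z)) := by
          have := mul_nonneg (Real.exp_pos (a z + a z)).le (normSq_nonneg (PP Q z))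
          nlinarith
      _ = (1 - c.phi z 2) * normSq (PP P z) := e4.symm
      _ ≤ _ := mul_le_mul_of_nonneg_left e1 e5
  refine ⟨max (max R0 (max R1 R2)) 1, le_max_right _ _, fun z hz => ?_, fun z hz => ?_⟩
  · obtain ⟨h1, h2⟩ := key z ((le_max_left _ _).trans hz)
    have h3 : (1 - c.phi z 2) * Real.exp (2 * N * (Real.log 2 + Real.log ‖z‖)) ≤
        Real.exp (2 * N * (Real.log 2 + Real.log ‖z‖)) := by
      have := Real.exp_pos (2 * N * (Real.log 2 + Real.log ‖z‖))
      nlinarith
    have h4 := Real.exp_le_exp.1 (h1.trans h3)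
    linarith
  · obtain ⟨h1, h2⟩ := key z ((le_max_left _ _).trans hz)
    rw [s.lap_v h]
    apply mul_le_mul_of_nonneg_left _ (by norm_num)
    have h5 : a z + a z - (2 * (N : ℝ) - 2 * M) * Real.log ‖z‖ -
        (2 * (N : ℝ) + 2 * M) * Real.log 2 =
        (a z + a z + 2 * M * (Real.log ‖z‖ - Real.log 2)) -
          2 * N * (Real.log 2 + Real.log ‖z‖) := by ring
    rw [h5, Real.exp_sub, div_le_iff₀ (Real.exp_pos _)]
    exact h1

theorem Str.card_lt (h : c.IsSolution) (s : Str c P Q a b) :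
    Multiset.card Q + 2 ≤ Multiset.card P := by
  obtain ⟨R, _, h1, h2⟩ := s.growth h
  have h3 := mass s.smooth_v (fun z => by
    rw [s.lap_v h]; have := phi_le h z; linarith) h1 h2
  have h4 : (Multiset.card Q : ℝ) + 1 < Multiset.card P := by linarith
  have h5 : Multiset.card Q + 1 < Multiset.card P := by exact_mod_cast h4
  omega

/-- comparison -/
theorem compare (h : c.IsSolution) (h' : c'.IsSolution) (s : Str c P Q a b)
    (s' : Str c' P Q a' b') {z : ℂ} (hz : a' z ≤ a z) :
    0 ≤ (1 - c.phi z 2) - (1 - c'.phi z 2) ∧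
    (1 - c.phi z 2) - (1 - c'.phi z 2) ≤ 4 * (a z - a' z) := by
  have e := s.E h z
  have e' := s'.E h' z
  set p := normSq (PP P z) with hp
  set q := normSq (PP Q z) with hq
  set E := Real.exp (a z + a z) * q with hE
  set E' := Real.exp (a' z + a' z) * q with hE'
  have hp0 : 0 ≤ p := normSq_nonneg _
  have hq0 : 0 ≤ q := normSq_nonneg _
  have hE0 : 0 ≤ E := mul_nonneg (Real.exp_pos _).le hq0
  have hE'0 : 0 ≤ E' := mul_nonneg (Real.exp_pos _).le hq0
  have hEE : E' ≤ E := mul_le_mul_of_nonneg_right (Real.exp_le_exp.2 (by linarith)) hq0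
  have hdiff : E - E' ≤ E * (2 * (a z - a' z)) := by
    have h1 : E' = E * Real.exp (-(2 * (a z - a' z))) := by
      rw [hE, hE', mul_right_comm, ← Real.exp_add]
      congr 2
      ring
    rw [h1]
    have h2 := Real.add_one_le_exp (-(2 * (a z - a' z)))
    nlinarith
  have hpos : 0 < p + E' := by
    by_contra hcon
    push Not at hcon
    have h1 : p = 0 := by linarith
    have h2 : E' = 0 := by linarith
    have h3 : PP P z = 0 := normSq_eq_zero.1 h1
    have h4 : q ≠ 0 := fun h0 => s.disj h3 (normSq_eq_zero.1 h0)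
    exact (mul_ne_zero (Real.exp_pos _).ne' h4) h2
  have hs1 := phi_le h z
  have hs2 := phi_ge h z
  set t := (1 - c.phi z 2) - (1 - c'.phi z 2) with ht
  have key : t * (p + E') = (1 + c.phi z 2) * (E - E') := by
    rw [ht]; linear_combination e - e'
  constructor
  · by_contra hcon
    push Not at hcon
    have h1 : t * (p + E') < 0 := mul_neg_of_neg_of_pos hcon hpos
    have h2 : 0 ≤ (1 + c.phi z 2) * (E - E') := mul_nonneg (by linarith) (by linarith)
    linarith
  · have hd : 0 ≤ a z - a' z := by linarith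
    have h1 : (1 + c.phi z 2) * (E - E') ≤ (1 + c.phi z 2) * (E * (2 * (a z - a' z))) :=
      mul_le_mul_of_nonneg_left hdiff (by linarith)
    have h2 : (1 + c.phi z 2) * (E * (2 * (a z - a' z))) =
        ((1 - c.phi z 2) * p) * (2 * (a z - a' z)) := by rw [e]; ring
    have h3 : ((1 - c.phi z 2) * p) * (2 * (a z - a' z)) ≤ (2 * p) * (2 * (a z - a' z)) := by
      apply mul_le_mul_of_nonneg_right _ (by linarith)
      apply mul_le_mul_of_nonneg_right _ hp0
      linarith
    have h4 : (2 * p) * (2 * (a z - a' z)) ≤ (4 * (a z - a' z)) * (p + E') := by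
      have : 0 ≤ (a z - a' z) * E' := mul_nonneg hd hE'0
      nlinarith
    have h5 : t * (p + E') ≤ (4 * (a z - a' z)) * (p + E') := by linarith
    exact le_of_mul_le_mul_right h5 hpos

/-- a solution is determined up to gauge by its zeros, poles and one value -/
theorem gaugeEquiv_of_eq (h : c.IsSolution) (h' : c'.IsSolution) (s : Str c P Q a b)
    (s' : Str c' P Q a' b') {x : ℂ} (hxP : x ∉ P) (hxQ : x ∉ Q)
    (hx : c.phi x 2 = c'.phi x 2) : GaugeEquiv c c' := by
  have hcard := s.card_lt h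
  -- the difference
  set W : ℂ → ℝ := fun z => (a z + a z) - (a' z + a' z) with hW
  have hWs : ContDiff ℝ ∞ W := s.smooth_v.sub s'.smooth_v
  have hneg : ContDiff ℝ ∞ (fun z => - (a' z + a' z)) := s'.smooth_v.neg
  have hWlap : ∀ z, lap W z = 2 * ((1 - c.phi z 2) - (1 - c'.phi z 2)) := by
    intro z
    have h1 : W = fun z => (a z + a z) + (- (a' z + a' z)) := by
      funext z; rw [hW]; ring
    rw [h1, lap_add_at (s.smooth_v.contDiffAt.of_le two_le_inf)
      (hneg.contDiffAt.of_le two_le_inf), lap_neg, s.lap_v h, s'.lap_v h']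
    ring
  have hA0 : (0 : ℝ) ≤ 2 * (Multiset.card P : ℝ) - 2 * Multiset.card Q := by
    have : (Multiset.card Q : ℝ) + 2 ≤ Multiset.card P := by exact_mod_cast hcard
    linarith
  obtain ⟨R, _, g1, _⟩ := s.growth h
  obtain ⟨R', _, g1', _⟩ := s'.growth h'
  obtain ⟨C, T, hC⟩ := growth_abs s.smooth_v (fun z => by
    rw [s.lap_v h]; have := phi_le h z; linarith) hA0 g1
  obtain ⟨C', T', hC'⟩ := growth_abs s'.smooth_v (fun z => by
    rw [s'.lap_v h']; have := phi_le h' z; linarith) hA0 g1'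
  have hWx : W x = 0 := by
    have e := s.E h x
    have e' := s'.E h' x
    rw [← hx] at e'
    have h1 : 1 + c.phi x 2 ≠ 0 := fun h0 => hxP ((s.hP x).2 ((eq_ss_iff h x).2 (by linarith)))
    have h2 : normSq (PP Q x) ≠ 0 := fun h0 => hxQ (PP_eq_zero.1 (normSq_eq_zero.1 h0))
    have h3 : (1 + c.phi x 2) * (Real.exp (a x + a x) * normSq (PP Q x)) =
        (1 + c.phi x 2) * (Real.exp (a' x + a' x) * normSq (PP Q x)) := by rw [← e, ← e']
    have h4 := mul_right_cancel₀ h2 (mul_left_cancel₀ h1 h3)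
    have h5 := Real.exp_injective h4
    rw [hW]
    simp only
    linarith
  have hzero := uniqueness hWs (K := 4) (C := C + C') (T := max T T')
    (fun z hz => by
      rw [hWlap]
      have := (compare h h' s s' (z := z) (by simp only [hW] at hz; linarith)).1
      linarith)
    (fun z hz => by
      rw [hWlap]
      have := (compare h' h s' s (z := z) (by simp only [hW] at hz; linarith)).1
      linarith)
    (fun z => by
      rw [hWlap]
      rcases le_total (a' z) (a z) with hz | hz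
      · obtain ⟨h1, h2⟩ := compare h h' s s' hz
        rw [abs_of_nonneg (by linarith), abs_of_nonneg (by simp only [hW]; linarith)]
        simp only [hW]
        linarith
      · obtain ⟨h1, h2⟩ := compare h' h s' s hz
        rw [abs_of_nonpos (by linarith), abs_of_nonpos (by simp only [hW]; linarith)]
        simp only [hW]
        linarith)
    (fun t ht => by
      have h1 := hC t ((le_max_left _ _).trans ht)
      have h2 := hC' t ((le_max_right _ _).trans ht)
      have h3 := CM_sub s.smooth_v.continuous s'.smooth_v.continuous t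
      have h4 : (C + C') * (1 + t) = C * (1 + t) + C' * (1 + t) := by ring
      rw [h4]
      linarith) hWx
  have haa : ∀ z, a z = a' z := fun z => by
    have := hzero z
    simp only [hW] at this
    linarith
  have haa' : a = a' := funext haa
  have hphi2 : ∀ z, c'.phi z 2 = c.phi z 2 := by
    intro z
    have h1 := compare h h' s s' (z := z) (haa z).symm.le
    have h2 := haa z
    linarith [h1.1, h1.2]
  refine ⟨fun z => b' z - b z, s'.sb.sub s.sb, fun z => ?_, fun z => ?_, fun z => ?_⟩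
  · -- rotation
    have hw : c'.w z = exp (((b' z - b z : ℝ) : ℂ) * I) * c.w z := by
      by_cases hz : c.phi z = ss
      · have h1 : c'.phi z = ss := (eq_ss_iff h' z).2 (by rw [hphi2]; exact (eq_ss_iff h z).1 hz)
        unfold w
        rw [hz, h1]
        have h2 : (⟨ss 0, ss 1⟩ : ℂ) = 0 := by simp [ss]; rfl
        rw [h2, mul_zero]
      · have h1 : PP P z ≠ 0 := fun h0 => hz ((s.hP z).1 (PP_eq_zero.1 h0))
        apply mul_right_cancel₀ h1
        have e := s.e1 z
        have e' := s'.e1 z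
        rw [hphi2] at e'
        have h3 : exp (⟨a' z, b' z⟩ : ℂ) = exp (((b' z - b z : ℝ) : ℂ) * I) *
            exp (⟨a z, b z⟩ : ℂ) := by
          rw [← exp_add]
          congr 1
          apply Complex.ext
          · simp [haa z]
          · simp
        rw [e', h3]
        linear_combination (-exp (((b' z - b z : ℝ) : ℂ) * I)) * e
    have hre : (exp (((b' z - b z : ℝ) : ℂ) * I)).re = Real.cos (b' z - b z) := by
      rw [exp_ofReal_mul_I_re]
    have him : (exp (((b' z - b z : ℝ) : ℂ) * I)).im = Real.sin (b' z - b z) := by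
      rw [exp_ofReal_mul_I_im]
    funext i
    fin_cases i
    · have h1 := congrArg Complex.re hw
      rw [mul_re, hre, him] at h1
      simpa [w] using h1
    · have h1 := congrArg Complex.im hw
      rw [mul_im, hre, him] at h1
      simp [w] at h1
      simp
      linarith
    · simpa using hphi2 z
  · have h1 := s.cr2 z
    have h2 := s'.cr2 z
    have h3 : fderiv ℝ (fun z => b' z - b z) z 1 = dx b' z - dx b z := by
      rw [fderiv_fun_sub (s'.sb.differentiable (by simp) z) (s.sb.differentiable (by simp) z)]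
      rfl
    rw [h3]
    rw [← haa'] at h2
    linarith
  · have h1 := s.cr1 z
    have h2 := s'.cr1 z
    have h3 : fderiv ℝ (fun z => b' z - b z) z I = dy b' z - dy b z := by
      rw [fderiv_fun_sub (s'.sb.differentiable (by simp) z) (s.sb.differentiable (by simp) z)]
      rfl
    rw [h3]
    rw [← haa'] at h2
    linarith

/-- number of points of a multiset in a disc -/
def cnt (M : Multiset ℂ) (x : ℂ) (r : ℝ) : ℕ := Multiset.card (M.filter fun p => ‖p - x‖ < r)

theorem Str.wind_south (h : c.IsSolution) (s : Str c P Q a b) {x : ℂ} {r : ℝ} (hr : 0 < r)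
    (hP : ∀ p ∈ P, ‖p - x‖ ≠ r) (hQ : ∀ p ∈ Q, ‖p - x‖ ≠ r) :
    Wind c.south x r ((cnt P x r : ℤ) - cnt Q x r) := by
  have h1 : Wind (fun z => ((1 - c.phi z 2 : ℝ) : ℂ)) x r 0 := by
    refine Wind.pos hr.le (continuous_const.sub (smoothc h 2).continuous).continuousOn ?_
    intro z hz
    have h2 := phi_le h z
    have h3 : c.phi z 2 ≠ 1 := fun h0 => hQ z ((s.hQ z).2 ((eq_nn_iff h z).2 h0))
      (by rwa [mem_sphere, dist_eq_norm] at hz)
    have : c.phi z 2 < 1 := lt_of_le_of_ne h2 h3
    linarith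
  have hab : Continuous (fun z => (⟨a z, b z⟩ : ℂ)) := (contDiff_mk s.sa s.sb).continuous
  have h2 : Wind (fun z => Complex.exp (⟨a z, b z⟩ : ℂ)) x r 0 :=
    Wind.exp hr.le hab.continuousOn
  have h3 := (h1.mul (Wind_PP hr P hP)).mul (h2.mul (Wind_PP hr Q hQ)).inv
  have h4 : (0 + (Multiset.card (P.filter fun p => ‖p - x‖ < r) : ℤ) +
      -(0 + (Multiset.card (Q.filter fun p => ‖p - x‖ < r) : ℤ))) =
      (cnt P x r : ℤ) - cnt Q x r := by
    unfold cnt; ring
  rw [h4] at h3
  refine h3.congr hr.le fun z hz => ?_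
  have h5 : PP Q z ≠ 0 := fun h0 => hQ z (PP_eq_zero.1 h0)
    (by rwa [mem_sphere, dist_eq_norm] at hz)
  rw [← s.e2 h z, mul_assoc, mul_inv_cancel₀ (mul_ne_zero (exp_ne_zero _) h5), mul_one]

theorem Str.wind_w (h : c.IsSolution) (s : Str c P Q a b) {x : ℂ} {r : ℝ} (hr : 0 < r)
    (hP : ∀ p ∈ P, ‖p - x‖ ≠ r) (hQ : ∀ p ∈ Q, ‖p - x‖ ≠ r) :
    Wind c.w x r ((cnt Q x r : ℤ) - cnt P x r) := by
  have h1 : Wind (fun z => ((1 + c.phi z 2 : ℝ) : ℂ)) x r 0 := by
    refine Wind.pos hr.le (continuous_const.add (smoothc h 2).continuous).continuousOn ?_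
    intro z hz
    have h2 := phi_ge h z
    have h3 : c.phi z 2 ≠ -1 := fun h0 => hP z ((s.hP z).2 ((eq_ss_iff h z).2 h0))
      (by rwa [mem_sphere, dist_eq_norm] at hz)
    have : -1 < c.phi z 2 := lt_of_le_of_ne h2 (Ne.symm h3)
    linarith
  have hab : Continuous (fun z => (⟨a z, b z⟩ : ℂ)) := (contDiff_mk s.sa s.sb).continuous
  have h2 : Wind (fun z => Complex.exp (⟨a z, b z⟩ : ℂ)) x r 0 :=
    Wind.exp hr.le hab.continuousOn
  have h3 := (h1.mul (h2.mul (Wind_PP hr Q hQ))).mul (Wind_PP hr P hP).inv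
  have h4 : (0 + (0 + (Multiset.card (Q.filter fun p => ‖p - x‖ < r) : ℤ)) +
      -(Multiset.card (P.filter fun p => ‖p - x‖ < r) : ℤ)) =
      (cnt Q x r : ℤ) - cnt P x r := by
    unfold cnt; ring
  rw [h4] at h3
  refine h3.congr hr.le fun z hz => ?_
  have h5 : PP P z ≠ 0 := fun h0 => hP z (PP_eq_zero.1 h0)
    (by rwa [mem_sphere, dist_eq_norm] at hz)
  rw [← s.e1 z, mul_assoc, mul_inv_cancel₀ h5, mul_one]

theorem exists_sep (S : Finset ℂ) (x : ℂ) : ∃ ρ : ℝ, 0 < ρ ∧ ∀ p ∈ S, p ≠ x → ρ < ‖p - x‖ := by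
  induction S using Finset.induction_on with
  | empty => exact ⟨1, one_pos, fun p hp => absurd hp (Finset.notMem_empty p)⟩
  | insert q S hq ih =>
    obtain ⟨ρ, hρ, h1⟩ := ih
    by_cases hqx : q = x
    · refine ⟨ρ, hρ, fun p hp hpx => ?_⟩
      rcases Finset.mem_insert.1 hp with h2 | h2
      · rw [h2] at hpx; exact absurd hqx hpx
      · exact h1 p h2 hpx
    · have h3 : 0 < ‖q - x‖ := norm_pos_iff.2 (sub_ne_zero.2 hqx)
      refine ⟨min ρ (‖q - x‖ / 2), by positivity, fun p hp hpx => ?_⟩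
      rcases Finset.mem_insert.1 hp with h2 | h2
      · rw [h2]
        have := min_le_right ρ (‖q - x‖ / 2)
        linarith
      · exact (min_le_left _ _).trans_lt (h1 p h2 hpx)

theorem cnt_small {M : Multiset ℂ} {x : ℂ} {r ρ : ℝ} (hr : 0 < r) (hrρ : r ≤ ρ)
    (hρ : ∀ p ∈ M, p ≠ x → ρ < ‖p - x‖) : cnt M x r = M.count x := by
  unfold cnt
  rw [Multiset.count, Multiset.countP_eq_card_filter]
  congr 1
  refine Multiset.filter_congr fun p hp => ?_
  constructor
  · intro h1
    by_contra h2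
    have := hρ p hp (Ne.symm h2)
    linarith
  · intro h1
    rw [← h1, sub_self, norm_zero]
    exact hr

/-- the degree is the number of poles -/
theorem Str.degree (h : c.IsSolution) (s : Str c P Q a b) {N : ℤ} (hN : c.HasDegree N) :
    (Multiset.card P : ℤ) = N := by
  classical
  obtain ⟨_, m, hm, hsum⟩ := hN
  have hm2 : ∀ p ∈ P, m p = P.count p := by
    intro p hp
    have hps := (s.hP p).1 hp
    obtain ⟨ρ, hρ, h1⟩ := exists_sep (P.toFinset ∪ Q.toFinset) p
    have h2 : ∀ᶠ r in 𝓝[>] (0 : ℝ), r < ρ ∧ 0 < r := by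
      filter_upwards [Ioo_mem_nhdsGT hρ] with r hr
      exact ⟨hr.2, hr.1⟩
    obtain ⟨r, hr1, hr2, hr3⟩ := ((hm p hps).and h2).exists
    have hPr : ∀ q ∈ P, q ≠ p → ρ < ‖q - p‖ := fun q hq =>
      h1 q (Finset.mem_union_left _ (Multiset.mem_toFinset.2 hq))
    have hQr : ∀ q ∈ Q, q ≠ p → ρ < ‖q - p‖ := fun q hq =>
      h1 q (Finset.mem_union_right _ (Multiset.mem_toFinset.2 hq))
    have hpQ : p ∉ Q := fun h0 => by
      have := (s.hQ p).1 h0
      rw [hps] at this
      exact ss_ne_nn this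
    have e1 : ∀ q ∈ P, ‖q - p‖ ≠ r := by
      intro q hq h0
      by_cases hqp : q = p
      · rw [hqp, sub_self, norm_zero] at h0; linarith
      · have := hPr q hq hqp; linarith
    have e2 : ∀ q ∈ Q, ‖q - p‖ ≠ r := by
      intro q hq h0
      by_cases hqp : q = p
      · exact hpQ (hqp ▸ hq)
      · have := hQr q hq hqp; linarith
    have h3 := (s.wind_south h hr3 e1 e2).unique hr1
    rw [cnt_small hr3 hr2.le hPr, cnt_small hr3 hr2.le hQr,
      Multiset.count_eq_zero_of_notMem hpQ] at h3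
    rw [← h3]; simp
  have hset : c.phi ⁻¹' {ss} = (P.toFinset : Set ℂ) := by
    ext z
    simp [s.hP z]
  rw [hset, finsum_mem_coe_finset] at hsum
  rw [← hsum, Finset.sum_congr rfl (fun p hp => hm2 p (Multiset.mem_toFinset.1 hp)),
    ← Multiset.toFinset_sum_count_eq]
  push_cast
  rfl

end Config

end Pool.Agent.H172R3.SM
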