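import Mathlib

/-! # Winding numbers by lifting -/

set_option autoImplicit false

noncomputable section

namespace Pool.Agent.H172R3.SM

open Complex Set Filter Topology Metric

/-- The loop `θ ↦ f (c + r e^{iθ})`, `0 ≤ θ ≤ 2π`, avoids the origin and winds `m` times
around it: it has a continuous logarithm `l` with `l (2π) - l 0 = 2π m i`. -/
def Wind (f : ℂ → ℂ) (c : ℂ) (r : ℝ) (m : ℤ) : Prop :=
  ∃ l : ℝ → ℂ, Continuous l ∧ (∀ θ : ℝ, f (circleMap c r θ) = exp (l θ)) ∧
    l (2 * Real.pi) - l 0 = 2 * Real.pi * m * I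

variable {f g : ℂ → ℂ} {c : ℂ} {r : ℝ} {m n : ℤ}

theorem circleMap_two_pi (c : ℂ) (r : ℝ) : circleMap c r (2 * Real.pi) = circleMap c r 0 := by
  unfold circleMap
  congr 2
  push_cast
  rw [exp_two_pi_mul_I]
  simp

theorem Wind.unique (h1 : Wind f c r m) (h2 : Wind f c r n) : m = n := by
  obtain ⟨l1, c1, e1, d1⟩ := h1
  obtain ⟨l2, c2, e2, d2⟩ := h2
  have hk : ∀ θ, ∃ k : ℤ, l1 θ = l2 θ + k * (2 * Real.pi * I) := by
    intro θ
    have : exp (l1 θ) = exp (l2 θ) := by rw [← e1, ← e2]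
    exact exp_eq_exp_iff_exists_int.1 this
  choose k hk using hk
  have hpi : (2 * (Real.pi : ℂ) * I) ≠ 0 := by
    simp [Real.pi_ne_zero]
  have hkc : Continuous k := by
    have h3 : Continuous (fun θ => ((k θ : ℤ) : ℝ)) := by
      have h4 : (fun θ => ((k θ : ℤ) : ℝ)) = fun θ => ((l1 θ - l2 θ) / (2 * Real.pi * I)).re := by
        funext θ
        have : (l1 θ - l2 θ) / (2 * Real.pi * I) = (k θ : ℂ) := by
          rw [div_eq_iff hpi]
          rw [hk θ]; ring
        rw [this]
        simp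
      rw [h4]
      exact continuous_re.comp ((c1.sub c2).div_const _)
    exact Int.isClosedEmbedding_coe_real.isEmbedding.continuous_iff.2 h3
  have hc : k (2 * Real.pi) = k 0 := PreconnectedSpace.constant inferInstance hkc
  have h5 : l1 (2 * Real.pi) - l1 0 = l2 (2 * Real.pi) - l2 0 := by
    rw [hk (2 * Real.pi), hk 0, hc]; ring
  rw [d1, d2] at h5
  have h6 : (m : ℂ) = n := by
    have h7 : (2 * (Real.pi : ℂ) * I) * m = (2 * (Real.pi : ℂ) * I) * n := by
      linear_combination h5
    exact mul_left_cancel₀ hpi h7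
  exact_mod_cast h6

theorem Wind.mul (hf : Wind f c r m) (hg : Wind g c r n) :
    Wind (fun z => f z * g z) c r (m + n) := by
  obtain ⟨l1, c1, e1, d1⟩ := hf
  obtain ⟨l2, c2, e2, d2⟩ := hg
  refine ⟨fun θ => l1 θ + l2 θ, c1.add c2, fun θ => ?_, ?_⟩
  · rw [exp_add, ← e1, ← e2]
  · push_cast
    linear_combination d1 + d2

theorem Wind.inv (hf : Wind f c r m) : Wind (fun z => (f z)⁻¹) c r (-m) := by
  obtain ⟨l1, c1, e1, d1⟩ := hf
  refine ⟨fun θ => - l1 θ, c1.neg, fun θ => ?_, ?_⟩
  · rw [exp_neg, ← e1]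
  · push_cast
    linear_combination -d1

theorem Wind.one (c : ℂ) (r : ℝ) : Wind (fun _ => 1) c r 0 :=
  ⟨fun _ => 0, continuous_const, fun θ => by simp, by simp⟩

theorem Wind.prod {ι : Type*} (s : Finset ι) (F : ι → ℂ → ℂ) (M : ι → ℤ)
    (h : ∀ i ∈ s, Wind (F i) c r (M i)) : Wind (fun z => ∏ i ∈ s, F i z) c r (∑ i ∈ s, M i) := by
  classical
  induction s using Finset.induction_on with
  | empty => simpa using Wind.one c r
  | insert a s ha ih =>
    have h1 := (h a (Finset.mem_insert_self _ _)).mul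
      (ih fun i hi => h i (Finset.mem_insert_of_mem hi))
    simp only [Finset.prod_insert ha, Finset.sum_insert ha]
    exact h1

theorem Wind.pow (hf : Wind f c r m) (k : ℕ) : Wind (fun z => f z ^ k) c r (k * m) := by
  have := Wind.prod (Finset.range k) (fun _ => f) (fun _ => m) (c := c) (r := r)
    (fun _ _ => hf)
  simpa using this

/-- equal functions on the circle have the same winding number -/
theorem Wind.congr (hf : Wind f c r m) (hr : 0 ≤ r) (h : ∀ z ∈ sphere c r, f z = g z) :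
    Wind g c r m := by
  obtain ⟨l1, c1, e1, d1⟩ := hf
  refine ⟨l1, c1, fun θ => ?_, d1⟩
  rw [← h _ (circleMap_mem_sphere c hr θ)]
  exact e1 θ

/-- winding number of an exponential -/
theorem Wind.exp {L : ℂ → ℂ} (hr : 0 ≤ r) (hL : ContinuousOn L (sphere c r)) :
    Wind (fun z => Complex.exp (L z)) c r 0 := by
  refine ⟨fun θ => L (circleMap c r θ), ?_, fun θ => rfl, ?_⟩
  · exact hL.comp_continuous (continuous_circleMap c r) (fun θ => circleMap_mem_sphere c hr θ)
  · show L (circleMap c r (2 * Real.pi)) - L (circleMap c r 0) = _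
    rw [circleMap_two_pi]; simp

/-- positive functions do not wind -/
theorem Wind.pos {ρ : ℂ → ℝ} (hr : 0 ≤ r) (hρ : ContinuousOn ρ (sphere c r))
    (h0 : ∀ z ∈ sphere c r, 0 < ρ z) : Wind (fun z => (ρ z : ℂ)) c r 0 := by
  have h1 : Wind (fun z => Complex.exp ((Real.log (ρ z) : ℝ) : ℂ)) c r 0 := by
    refine Wind.exp hr ?_
    refine continuous_ofReal.comp_continuousOn ?_
    exact hρ.log (fun z hz => (h0 z hz).ne')
  refine h1.congr hr fun z hz => ?_
  rw [← ofReal_exp, Real.exp_log (h0 z hz)]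

theorem Wind.one_add {ζ : ℂ → ℂ} (hr : 0 ≤ r) (hζ : ContinuousOn ζ (sphere c r))
    (h0 : ∀ z ∈ sphere c r, ‖ζ z‖ < 1) : Wind (fun z => 1 + ζ z) c r 0 := by
  have hsl : ∀ z ∈ sphere c r, 1 + ζ z ∈ slitPlane := fun z hz => by
    exact mem_slitPlane_of_norm_lt_one (h0 z hz)
  have h1 : Wind (fun z => Complex.exp (Complex.log (1 + ζ z))) c r 0 := by
    refine Wind.exp hr ?_
    exact (continuousOn_const.add hζ).clog hsl
  refine h1.congr hr fun z hz => ?_
  exact exp_log (slitPlane_ne_zero (hsl z hz))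

theorem Wind.const {a : ℂ} (ha : a ≠ 0) : Wind (fun _ => a) c r 0 :=
  ⟨fun _ => Complex.log a, continuous_const, fun θ => (exp_log ha).symm, by simp⟩

theorem Wind.center (hr : 0 < r) : Wind (fun z => z - c) c r 1 := by
  refine ⟨fun θ => Real.log r + θ * I, by fun_prop, fun θ => ?_, ?_⟩
  · rw [exp_add, ← ofReal_exp, Real.exp_log hr]
    simp [circleMap]
  · push_cast; ring

theorem Wind.sub_inside {p : ℂ} (h : ‖p - c‖ < r) : Wind (fun z => z - p) c r 1 := by
  have hr : 0 < r := lt_of_le_of_lt (norm_nonneg _) h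
  have hne : ∀ z ∈ sphere c r, z - c ≠ 0 := fun z hz h0 => by
    rw [mem_sphere, dist_eq_norm, h0, norm_zero] at hz
    exact hr.ne hz
  have h1 : Wind (fun z => 1 + (c - p) / (z - c)) c r 0 := by
    refine Wind.one_add hr.le ?_ ?_
    · exact continuousOn_const.div (by fun_prop) hne
    · intro z hz
      rw [norm_div, div_lt_one (norm_pos_iff.2 (hne z hz)), norm_sub_rev]
      rw [mem_sphere, dist_eq_norm] at hz
      rwa [hz]
  have h2 := (Wind.center (c := c) hr).mul h1
  rw [add_zero] at h2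
  refine h2.congr hr.le fun z hz => ?_
  field_simp [hne z hz]
  ring

theorem Wind.sub_outside {p : ℂ} (hr : 0 ≤ r) (h : r < ‖p - c‖) :
    Wind (fun z => z - p) c r 0 := by
  have hne : c - p ≠ 0 := fun h0 => by
    rw [norm_sub_rev, h0, norm_zero] at h
    linarith
  have h1 : Wind (fun z => 1 + (z - c) / (c - p)) c r 0 := by
    refine Wind.one_add hr ?_ ?_
    · exact (by fun_prop : ContinuousOn (fun z : ℂ => z - c) _).div_const _
    · intro z hz
      rw [norm_div, div_lt_one (norm_pos_iff.2 hne), norm_sub_rev c p]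
      rw [mem_sphere, dist_eq_norm] at hz
      rwa [hz]
  have h2 := (Wind.const (c := c) (r := r) hne).mul h1
  rw [add_zero] at h2
  refine h2.congr hr fun z hz => ?_
  field_simp
  ring

/-- Rouche -/
theorem Wind.close (hr : 0 ≤ r) (hf : Wind f c r m) (hfc : ContinuousOn f (sphere c r))
    (hg : ContinuousOn g (sphere c r)) (h : ∀ z ∈ sphere c r, ‖g z - f z‖ < ‖f z‖) :
    Wind g c r m := by
  have hne : ∀ z ∈ sphere c r, f z ≠ 0 := fun z hz h0 => by
    have := h z hz
    rw [h0, norm_zero] at this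
    exact absurd this (not_lt.2 (norm_nonneg _))
  have h1 : Wind (fun z => 1 + (g z - f z) / f z) c r 0 := by
    refine Wind.one_add hr ((hg.sub hfc).div hfc hne) ?_
    intro z hz
    rw [norm_div, div_lt_one (norm_pos_iff.2 (hne z hz))]
    exact h z hz
  have h2 := hf.mul h1
  rw [add_zero] at h2
  refine h2.congr hr fun z hz => ?_
  have := hne z hz
  field_simp
  ring

/-- continuous logarithms on the plane -/
theorem exists_log {f : ℂ → ℂ} (hf : Continuous f) (h0 : ∀ z, f z ≠ 0) :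
    ∃ L : ℂ → ℂ, Continuous L ∧ ∀ z, Complex.exp (L z) = f z := by
  have hsc : IsSimplyConnected (univ : Set ℂ) := by
    have : ContractibleSpace (univ : Set ℂ) :=
      (convex_univ (𝕜 := ℝ) (E := ℂ)).contractibleSpace univ_nonempty
    show SimplyConnectedSpace (univ : Set ℂ)
    infer_instance
  obtain ⟨L, hL, hE⟩ := Complex.exists_continuousOn_eqOn_exp_comp hsc isOpen_univ
    hf.continuousOn (by
      rintro ⟨z, _, hz⟩
      exact h0 z hz)
  exact ⟨L, continuousOn_univ.1 hL, fun z => hE (mem_univ z)⟩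

theorem Wind.nonvanishing {f : ℂ → ℂ} (hr : 0 ≤ r) (hf : Continuous f) (h0 : ∀ z, f z ≠ 0) :
    Wind f c r 0 := by
  obtain ⟨L, hL, hE⟩ := exists_log hf h0
  exact (Wind.exp hr hL.continuousOn (L := L)).congr hr fun z _ => hE z

end Pool.Agent.H172R3.SM
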